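import Pool.Agent.Helper16.NL.Kata
import Pool.Graph.R_pool_sql_team_seeded_1e53cb71.Helper44K9.FN.Abs
import Pool.Graph.R_pool_sql_team_seeded_1e53cb71.Helper44K9.FN.Besa
import Pool.Graph.R_pool_sql_team_seeded_1e53cb71.Helper44K9.FN.Fina
import Pool.Graph.R_pool_sql_team_seeded_1e53cb71.Helper44K9.FN.Kata
import Pool.Graph.R_pool_sql_team_seeded_1e53cb71.Helper44K9.FU.Dil
import Pool.Graph.R_pool_sql_team_seeded_1e53cb71.Helper44K9.FU.Pig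
import Pool.Graph.R_pool_sql_team_seeded_1e53cb71.Helper44K9.FU.Sub
import Pool.Graph.R_pool_sql_team_seeded_1e53cb71.Helper44K9.FB.Mu

/-! All nilmanifolds, small sets of horizontal directions: assembly. -/

set_option autoImplicit false

namespace Pool.Agent.Helper16.NL

open Finset Topology MeasureTheory
open Pool.Agent.H807R2.Dav (ee ee_add norm_ee ee_zero)
open Pool.Agent.Helper44K9.FN (pw cw sT)
open Pool.Agent.Helper44K9.FU (Mul1)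

variable {G : Type} [Group G] [TopologicalSpace G] [IsTopologicalGroup G] {Γ : Subgroup G} (D : NilData G Γ)

/-- the supremum over the elements with horizontal part in `E` and all points -/
noncomputable def nS (F : G → ℂ) (E : Set (D.ι 0 → UnitAddCircle)) (f : ℕ → ℂ) (n H : ℕ) : ℝ :=
  ⨆ p : {a : G // md (D.π 0 a) ∈ E} × G, ‖∑ h ∈ Icc 1 H, f (n + h) * F (p.1.1 ^ (n + h) * p.2)‖

/-- the bound for the averages -/
def Bn (E : Set (D.ι 0 → UnitAddCircle)) (𝓕 : Set (ℕ → ℂ)) (F : G → ℂ) (ε : ℝ) : Prop :=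
  ∃ H₀ : ℕ, ∀ f ∈ 𝓕, ∀ N H : ℕ, H₀ ≤ H → H ≤ N →
    ∑ n ∈ Icc 1 N, (1 / (n : ℝ)) * nS D F E f n H ≤ ε * H * Real.log N

/-- functions with small averages, for a class of multiplicative functions -/
def Gd (𝓕 : Set (ℕ → ℂ)) (F : G → ℂ) : Prop :=
  (∃ B : ℝ, ∀ g, ‖F g‖ ≤ B) ∧ ∀ ε : ℝ, 0 < ε → ∃ δ : ℝ, 0 < δ ∧ ∃ K : ℕ, ∀ E : Set (D.ι 0 → UnitAddCircle), Sm δ K E →
    Bn D E 𝓕 F ε

variable {E : Set (D.ι 0 → UnitAddCircle)} {𝓕 : Set (ℕ → ℂ)}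

lemma nS_nonneg (F : G → ℂ) (f : ℕ → ℂ) (n H : ℕ) : 0 ≤ nS D F E f n H := Real.iSup_nonneg fun _ => norm_nonneg _

lemma le_nS {F : G → ℂ} {B : ℝ} (hB : ∀ g, ‖F g‖ ≤ B) {f : ℕ → ℂ} (hf : ∀ n, ‖f n‖ ≤ 1) (n H : ℕ)
    (p : {a : G // md (D.π 0 a) ∈ E} × G) :
    ‖∑ h ∈ Icc 1 H, f (n + h) * F (p.1.1 ^ (n + h) * p.2)‖ ≤ nS D F E f n H := by
  have hb : BddAbove (Set.range fun p : {a : G // md (D.π 0 a) ∈ E} × G =>
      ‖∑ h ∈ Icc 1 H, f (n + h) * F (p.1.1 ^ (n + h) * p.2)‖) := by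
    refine ⟨∑ h ∈ Icc 1 H, B, ?_⟩
    rintro _ ⟨q, rfl⟩
    refine (norm_sum_le _ _).trans (sum_le_sum fun h _ => ?_)
    rw [norm_mul]
    calc _ ≤ 1 * B := mul_le_mul (hf _) (hB _) (norm_nonneg _) zero_le_one
      _ = B := one_mul _
  exact le_ciSup hb p

lemma log_bd {N : ℕ} (hN : 3 ≤ N) : 1 ≤ Real.log N ∧ ∑ n ∈ Icc 1 N, 1 / (n : ℝ) ≤ 1 + Real.log N := by
  have hNr : (3 : ℝ) ≤ N := by exact_mod_cast hN
  refine ⟨?_, ?_⟩
  · rw [Real.le_log_iff_exp_le (by linarith)]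
    linarith [Real.exp_one_lt_d9]
  · have h1 := harmonic_le_one_add_log N
    refine le_trans (le_of_eq ?_) h1
    rw [harmonic_eq_sum_Icc]
    push_cast
    exact sum_congr rfl fun x _ => one_div _

/-- approximation -/
lemma gd_approx (h𝓕 : ∀ f ∈ 𝓕, ∀ n, ‖f n‖ ≤ 1) {F : G → ℂ} {B : ℝ} (hB : ∀ g, ‖F g‖ ≤ B)
    (h : ∀ ε : ℝ, 0 < ε → ∃ F', Gd D 𝓕 F' ∧ ∀ g, ‖F g - F' g‖ ≤ ε) : Gd D 𝓕 F := by
  refine ⟨⟨B, hB⟩, fun ε hε => ?_⟩
  obtain ⟨F', ⟨⟨B', hB'⟩, hF'⟩, happ⟩ := h (ε / 4) (by positivity)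
  obtain ⟨δ, hδ, K, hF'⟩ := hF' (ε / 2) (by positivity)
  refine ⟨δ, hδ, K, fun E hSm => ?_⟩
  obtain ⟨H₀, hH₀⟩ := hF' E hSm
  refine ⟨H₀ + 3, fun f hf N H hH hN => ?_⟩
  obtain ⟨hlog, hharm⟩ := log_bd (N := N) (by omega)
  have hHr : (0 : ℝ) < H := by exact_mod_cast (by omega : 0 < H)
  have hpt : ∀ n, nS D F E f n H ≤ nS D F' E f n H + ε / 4 * H := by
    intro n
    refine Real.iSup_le (fun p => ?_) (add_nonneg (nS_nonneg D _ _ _ _) (by positivity))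
    have h1 : ∑ h ∈ Icc 1 H, f (n + h) * F (p.1.1 ^ (n + h) * p.2) =
        ∑ h ∈ Icc 1 H, f (n + h) * F' (p.1.1 ^ (n + h) * p.2) +
        ∑ h ∈ Icc 1 H, f (n + h) * (F (p.1.1 ^ (n + h) * p.2) - F' (p.1.1 ^ (n + h) * p.2)) := by
      rw [← sum_add_distrib]
      exact sum_congr rfl fun h _ => by ring
    rw [h1]
    refine (norm_add_le _ _).trans (add_le_add (le_nS D hB' (h𝓕 f hf) n H p) ?_)
    refine (norm_sum_le _ _).trans ?_
    calc _ ≤ ∑ h ∈ Icc 1 H, ε / 4 := by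
          refine sum_le_sum fun h _ => ?_
          rw [norm_mul]
          calc _ ≤ 1 * (ε / 4) := mul_le_mul (h𝓕 f hf _) (happ _) (norm_nonneg _) zero_le_one
            _ = _ := one_mul _
      _ = ε / 4 * H := by rw [sum_const, Nat.card_Icc, nsmul_eq_mul]; simp [mul_comm]
  calc ∑ n ∈ Icc 1 N, (1 / (n : ℝ)) * nS D F E f n H ≤
      ∑ n ∈ Icc 1 N, (1 / (n : ℝ)) * (nS D F' E f n H + ε / 4 * H) :=
        sum_le_sum fun n _ => mul_le_mul_of_nonneg_left (hpt n) (by positivity)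
    _ = ∑ n ∈ Icc 1 N, (1 / (n : ℝ)) * nS D F' E f n H + ε / 4 * H * ∑ n ∈ Icc 1 N, 1 / (n : ℝ) := by
        rw [mul_sum, ← sum_add_distrib]
        exact sum_congr rfl fun n _ => by ring
    _ ≤ ε / 2 * H * Real.log N + ε / 4 * H * (1 + Real.log N) :=
        add_le_add (hH₀ f hf N H (by omega) hN) (mul_le_mul_of_nonneg_left hharm (by positivity))
    _ ≤ ε * H * Real.log N := by
        have h1 : 0 < ε * H := by positivity
        nlinarith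

/-- sums -/
lemma gd_add (h𝓕 : ∀ f ∈ 𝓕, ∀ n, ‖f n‖ ≤ 1) {F F' : G → ℂ} (h : Gd D 𝓕 F) (h' : Gd D 𝓕 F') :
    Gd D 𝓕 (fun g => F g + F' g) := by
  obtain ⟨⟨B, hB⟩, h⟩ := h
  obtain ⟨⟨B', hB'⟩, h'⟩ := h'
  refine ⟨⟨B + B', fun g => (norm_add_le _ _).trans (add_le_add (hB g) (hB' g))⟩, fun ε hε => ?_⟩
  obtain ⟨δ₁, hδ₁, K₁, h₁⟩ := h (ε / 2) (by positivity)
  obtain ⟨δ₂, hδ₂, K₂, h₂⟩ := h' (ε / 2) (by positivity)
  refine ⟨min δ₁ δ₂, lt_min hδ₁ hδ₂, K₁ + K₂, fun E hSm => ?_⟩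
  obtain ⟨H₁, h₁⟩ := h₁ E (hSm.mono (min_le_left _ _) (by omega))
  obtain ⟨H₂, h₂⟩ := h₂ E (hSm.mono (min_le_right _ _) (by omega))
  refine ⟨H₁ + H₂, fun f hf N H hH hN => ?_⟩
  have hpt : ∀ n, nS D (fun g => F g + F' g) E f n H ≤ nS D F E f n H + nS D F' E f n H := by
    intro n
    refine Real.iSup_le (fun p => ?_) (add_nonneg (nS_nonneg D _ _ _ _) (nS_nonneg D _ _ _ _))
    have h1 : ∑ h ∈ Icc 1 H, f (n + h) * (F (p.1.1 ^ (n + h) * p.2) + F' (p.1.1 ^ (n + h) * p.2)) =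
        ∑ h ∈ Icc 1 H, f (n + h) * F (p.1.1 ^ (n + h) * p.2) + ∑ h ∈ Icc 1 H, f (n + h) * F' (p.1.1 ^ (n + h) * p.2) := by
      rw [← sum_add_distrib]
      exact sum_congr rfl fun h _ => by ring
    rw [h1]
    exact (norm_add_le _ _).trans (add_le_add (le_nS D hB (h𝓕 f hf) n H p) (le_nS D hB' (h𝓕 f hf) n H p))
  calc ∑ n ∈ Icc 1 N, (1 / (n : ℝ)) * nS D (fun g => F g + F' g) E f n H ≤
      ∑ n ∈ Icc 1 N, (1 / (n : ℝ)) * (nS D F E f n H + nS D F' E f n H) :=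
        sum_le_sum fun n _ => mul_le_mul_of_nonneg_left (hpt n) (by positivity)
    _ = ∑ n ∈ Icc 1 N, (1 / (n : ℝ)) * nS D F E f n H + ∑ n ∈ Icc 1 N, (1 / (n : ℝ)) * nS D F' E f n H := by
        rw [← sum_add_distrib]
        exact sum_congr rfl fun n _ => by ring
    _ ≤ ε / 2 * H * Real.log N + ε / 2 * H * Real.log N :=
        add_le_add (h₁ f hf N H (by omega) hN) (h₂ f hf N H (by omega) hN)
    _ = _ := by ring

lemma gd_zero : Gd D 𝓕 (fun _ => 0) := by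
  refine ⟨⟨0, fun g => by simp⟩, fun ε hε => ⟨1, one_pos, 0, fun E _ => ⟨0, fun f _ N H _ _ => ?_⟩⟩⟩
  have h1 : ∀ n, nS D (fun _ => 0) E f n H ≤ 0 := by
    intro n
    refine Real.iSup_le (fun p => ?_) le_rfl
    simp
  calc ∑ n ∈ Icc 1 N, (1 / (n : ℝ)) * nS D (fun _ => 0) E f n H ≤ ∑ n ∈ Icc 1 N, 0 := by
        refine sum_le_sum fun n _ => ?_
        exact mul_nonpos_of_nonneg_of_nonpos (by positivity) (h1 n)
    _ = 0 := by simp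
    _ ≤ _ := by
        have := Real.log_natCast_nonneg N
        positivity

lemma gd_sum (h𝓕 : ∀ f ∈ 𝓕, ∀ n, ‖f n‖ ≤ 1) {κ : Type} (S : Finset κ) (F : κ → G → ℂ) (h : ∀ k ∈ S, Gd D 𝓕 (F k)) :
    Gd D 𝓕 (fun g => ∑ k ∈ S, F k g) := by
  classical
  induction S using Finset.induction_on with
  | empty => simpa using gd_zero D
  | insert a S ha ih =>
    simp only [sum_insert ha]
    exact gd_add D h𝓕 (h a (mem_insert_self _ _)) (ih fun k hk => h k (mem_insert_of_mem hk))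

lemma gd_mul {F : G → ℂ} (h : Gd D 𝓕 F) (c : ℂ) : Gd D 𝓕 (fun g => c * F g) := by
  obtain ⟨⟨B, hB⟩, h⟩ := h
  refine ⟨⟨‖c‖ * B, fun g => ?_⟩, fun ε hε => ?_⟩
  · rw [norm_mul]; exact mul_le_mul_of_nonneg_left (hB g) (norm_nonneg _)
  obtain ⟨δ, hδ, K, h⟩ := h (ε / (‖c‖ + 1)) (by positivity)
  refine ⟨δ, hδ, K, fun E hSm => ?_⟩
  obtain ⟨H₁, h₁⟩ := h E hSm
  refine ⟨H₁, fun f hf N H hH hN => ?_⟩
  have h2 := h₁ f hf N H hH hN
  have hpt : ∀ n, nS D (fun g => c * F g) E f n H = ‖c‖ * nS D F E f n H := by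
    intro n
    unfold nS
    rw [Real.mul_iSup_of_nonneg (norm_nonneg c)]
    congr 1
    funext p
    rw [← norm_mul, mul_sum]
    congr 1
    exact sum_congr rfl fun h _ => by ring
  have hlog := Real.log_natCast_nonneg N
  calc ∑ n ∈ Icc 1 N, (1 / (n : ℝ)) * nS D (fun g => c * F g) E f n H =
      ‖c‖ * ∑ n ∈ Icc 1 N, (1 / (n : ℝ)) * nS D F E f n H := by
        rw [mul_sum]
        exact sum_congr rfl fun n _ => by rw [hpt]; ring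
    _ ≤ ‖c‖ * (ε / (‖c‖ + 1) * H * Real.log N) := mul_le_mul_of_nonneg_left h2 (norm_nonneg _)
    _ ≤ (‖c‖ + 1) * (ε / (‖c‖ + 1) * H * Real.log N) :=
        mul_le_mul_of_nonneg_right (by linarith) (by positivity)
    _ = ε * H * Real.log N := by
        field_simp

lemma sum_Ioc (g : ℕ → ℂ) (n H : ℕ) : ∑ m ∈ Ioc n (n + H), g m = ∑ h ∈ Icc 1 H, g (n + h) := by
  have h1 : Ioc n (n + H) = (Icc 1 H).image (fun h => n + h) := by
    ext m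
    simp only [mem_Ioc, mem_image, mem_Icc]
    constructor
    · rintro ⟨h1, h2⟩
      exact ⟨m - n, ⟨by omega, by omega⟩, by omega⟩
    · rintro ⟨h, ⟨h1, h2⟩, rfl⟩
      omega
  rw [h1, sum_image (fun a _ b _ h => Nat.add_left_cancel h)]

/-- functions with a nontrivial vertical character, bounded by one -/
lemma gd_one {j : ℕ} {k : D.ι j → ℤ} (hk : k ≠ 0) {F : G → ℂ} (hF : VC D j k F) (hF1 : ∀ g, ‖F g‖ ≤ 1)
    (h𝓕 : ∀ f ∈ 𝓕, Mul1 f) : Gd D 𝓕 F := by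
  refine ⟨⟨1, hF1⟩, fun ε hε => ?_⟩
  obtain ⟨δ, c, hδ, hc, hfin⟩ := fina1 ε hε
  obtain ⟨δ', hδ', K, hEQ⟩ := eqa D hk hF hF1 hδ hc
  refine ⟨δ', hδ', K, fun E hSm => ?_⟩
  obtain ⟨H₀, hH₀⟩ := hfin (Cn D F Set.univ) (Cn D F E) (Cn_clos D hF1)
    (fun ψ hψ => by obtain ⟨a, y, _, h⟩ := hψ; exact ⟨a, y, trivial, h⟩) (hEQ E hSm)
    (lsn D hk hF hF1 hSm.1 hSm.2.1)
  refine ⟨H₀, fun f hf N H hH hN => ?_⟩
  refine le_trans (sum_le_sum fun n _ => mul_le_mul_of_nonneg_left ?_ (by positivity)) (hH₀ f (h𝓕 f hf) N H hH hN)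
  have hnn : 0 ≤ sT (Cn D F E) f n H := Real.iSup_nonneg fun _ => norm_nonneg _
  refine Real.iSup_le (fun p => ?_) hnn
  have hb : BddAbove (Set.range fun φ : Cn D F E => cw f φ n H) := by
    refine ⟨H, ?_⟩
    rintro _ ⟨φ, rfl⟩
    exact Pool.Agent.Helper44K9.FN.KataL.cw_le (h𝓕 f hf).1 (fun m => Cn_bdd D hF1 φ.2 m) n H
  refine le_trans (le_of_eq ?_) (le_ciSup hb ⟨fun m => F (p.1.1 ^ m * p.2), p.1.1, p.2, p.1.2, fun m => rfl⟩)
  show _ = ‖∑ m ∈ Ioc n (n + H), f m * F (p.1.1 ^ m * p.2)‖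
  rw [sum_Ioc (fun m => f m * F (p.1.1 ^ m * p.2))]

/-- functions with a nontrivial vertical character -/
lemma gd_char {j : ℕ} {k : D.ι j → ℤ} (hk : k ≠ 0) {F : G → ℂ} (hF : VC D j k F) (h𝓕 : ∀ f ∈ 𝓕, Mul1 f) : Gd D 𝓕 F := by
  obtain ⟨B, hB0, hB⟩ := D.bdd hF.1 hF.2.1
  have hBc : (B : ℂ) ≠ 0 := by exact_mod_cast hB0.ne'
  have h1 : VC D j k (fun g => F g / B) := by
    refine ⟨hF.1.div_const _, fun g γ hγ => by simp only [hF.2.1 g γ hγ], fun z hz g => ?_⟩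
    simp only [hF.2.2 z hz g, mul_div_assoc]
  have h2 := gd_mul D (gd_one D hk h1 (fun g => by
    rw [norm_div, Complex.norm_real, Real.norm_of_nonneg hB0.le, div_le_one hB0]
    exact hB g) h𝓕) B
  have h3 : (fun g => (B : ℂ) * (F g / B)) = F := by
    funext g
    field_simp
  rwa [h3] at h2

/-- the Möbius function: all functions -/
theorem gd_mu (n : ℕ) :
    ∀ F : G → ℂ, Continuous F → (∀ g γ, γ ∈ Γ → F (g * γ) = F g) → (∀ z ∈ D.fil n, ∀ g, F (z * g) = F g) →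
    Gd D {Pool.Agent.Helper44K9.FB.mu} F := by
  have hmu : ∀ f ∈ ({Pool.Agent.Helper44K9.FB.mu} : Set (ℕ → ℂ)), Mul1 f := by
    rintro f rfl
    exact Pool.Agent.Helper44K9.FB.mu_mult
  induction n with
  | zero =>
    intro F hF hΓ hinv
    have hc : ∀ g, F g = F 1 := fun g => by
      have := hinv g (D.mem0 g) 1
      rwa [mul_one] at this
    refine ⟨⟨‖F 1‖, fun g => by rw [hc]⟩, fun ε hε => ?_⟩
    obtain ⟨H₀, hH₀⟩ := Pool.Agent.Helper44K9.FB.mu_short (ε / (‖F 1‖ + 1)) (by positivity)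
    refine ⟨1, one_pos, 0, fun E _ => ⟨H₀, fun f hf N H hH hN => ?_⟩⟩
    rw [Set.mem_singleton_iff] at hf
    subst hf
    have h1 := hH₀ N H hH hN
    have hlog := Real.log_natCast_nonneg N
    have hpt : ∀ n, nS D F E Pool.Agent.Helper44K9.FB.mu n H ≤
        ‖F 1‖ * ‖∑ h ∈ Icc 1 H, Pool.Agent.Helper44K9.FB.mu (n + h)‖ := by
      intro n
      refine Real.iSup_le (fun p => ?_) (by positivity)
      rw [← norm_mul, mul_sum]
      refine le_of_eq (congrArg _ (sum_congr rfl fun h _ => ?_))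
      rw [hc]; ring
    calc ∑ n ∈ Icc 1 N, (1 / (n : ℝ)) * nS D F E Pool.Agent.Helper44K9.FB.mu n H ≤
        ∑ n ∈ Icc 1 N, (1 / (n : ℝ)) * (‖F 1‖ * ‖∑ h ∈ Icc 1 H, Pool.Agent.Helper44K9.FB.mu (n + h)‖) :=
          sum_le_sum fun n _ => mul_le_mul_of_nonneg_left (hpt n) (by positivity)
      _ = ‖F 1‖ * ∑ n ∈ Icc 1 N, (1 / (n : ℝ)) * ‖∑ h ∈ Icc 1 H, Pool.Agent.Helper44K9.FB.mu (n + h)‖ := by
          rw [mul_sum]
          exact sum_congr rfl fun n _ => by ring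
      _ ≤ ‖F 1‖ * (ε / (‖F 1‖ + 1) * H * Real.log N) := mul_le_mul_of_nonneg_left h1 (norm_nonneg _)
      _ ≤ (‖F 1‖ + 1) * (ε / (‖F 1‖ + 1) * H * Real.log N) :=
          mul_le_mul_of_nonneg_right (by linarith) (by positivity)
      _ = ε * H * Real.log N := by field_simp
  | succ n ih =>
    intro F hF hΓ hinv
    classical
    obtain ⟨B, _, hB⟩ := D.bdd hF hΓ
    refine gd_approx D (fun f hf => (hmu f hf).1) hB fun ε hε => ?_
    obtain ⟨S, Φ, h1, _, h3⟩ := D.vert hF hΓ hinv hε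
    refine ⟨fun g => ∑ k ∈ S, Φ k g, gd_sum D (fun f hf => (hmu f hf).1) S Φ fun k _ => ?_, h3⟩
    by_cases hk : k = 0
    · refine ih (Φ k) (h1 k).1 (h1 k).2.1 fun z hz g => ?_
      rw [(h1 k).2.2 z hz g, hk]
      have : dt (0 : D.ι n → ℤ) (D.π n z) = 0 := by unfold dt; simp
      rw [this, ee_zero, one_mul]
    · exact gd_char D hk (h1 k) hmu

end Pool.Agent.Helper16.NL
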