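import Pool.Agent.Helper16.NL.Slab

/-! The bracket lemma. -/

set_option autoImplicit false

namespace Pool.Agent.Helper16.NL

open Finset

variable {ι : Type} [Fintype ι]

lemma Nr.mono {η η' x : ℝ} (h : Nr η x) (hη : η ≤ η') : Nr η' x := by
  obtain ⟨a, ha⟩ := h; exact ⟨a, ha.trans hη⟩

lemma Nr.neg {η x : ℝ} (h : Nr η x) : Nr η (-x) := by
  obtain ⟨a, ha⟩ := h
  refine ⟨-a, ?_⟩
  rw [Int.cast_neg, sub_neg_eq_add, neg_add_eq_sub, abs_sub_comm]
  exact ha

lemma dt_neg (k : ι → ℤ) (x : ι → ℝ) : dt (-k) x = -dt k x := by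
  unfold dt
  simp [sum_neg_distrib]

omit [Fintype ι] in
lemma Bd.mono {K K' : ℕ} {k : ι → ℤ} (h : Bd K k) (hK : K ≤ K') : Bd K' k :=
  ⟨h.1, fun i => (h.2 i).trans (by exact_mod_cast hK)⟩

open Classical in
/-- the bracket lemma -/
theorem bl {c : ℝ} (hc : 0 < c) : ∃ K : ℕ, ∀ η : ℝ, 0 < η → ∃ η₁ : ℝ, 0 < η₁ ∧ ∃ N₀ : ℕ, ∀ N ≥ N₀,
    ∀ (x v : ι → ℝ) (α κ : ℝ), (∀ i, |v i| ≤ 1) →
    c * N ≤ #((Ico 0 N).filter (fun h : ℕ => Nr η₁ (κ + α * h + ∑ i, v i * Int.fract ((h : ℝ) * x i)))) →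
    (∃ k : ι → ℤ, Bd K k ∧ Nr η (dt k x)) ∨ ∃ l : ℕ, 1 ≤ l ∧ l ≤ K ∧ ∀ i, Nr η (l * v i) := by
  obtain ⟨M₁, hM₁, hs₁⟩ := slab (ι := Option ι) (c := c / 2) (W := 1) (by positivity) zero_le_one
  obtain ⟨M₂, hM₂, hs₂⟩ := slab (ι := ι) (c := c / 4) (W := 2 * M₁) (by positivity) (by positivity)
  set d := Fintype.card ι with hd
  have hd' : Fintype.card (Option ι) = d + 1 := by rw [Fintype.card_option]
  refine ⟨M₁ + M₂, fun η hη => ?_⟩
  obtain ⟨L, hL1, hs₂⟩ := hs₂ η hη
  set ρ : ℝ := η / (16 * M₂ * (d + 2)) with hρ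
  have hM₁r : (1 : ℝ) ≤ M₁ := by exact_mod_cast hM₁
  have hM₂r : (1 : ℝ) ≤ M₂ := by exact_mod_cast hM₂
  have hLr : (1 : ℝ) ≤ L := by exact_mod_cast hL1
  have hρ0 : 0 < ρ := by positivity
  set η₂ : ℝ := min η (ρ / (2 * L)) with hη₂
  have hη₂0 : 0 < η₂ := by positivity
  obtain ⟨N₁, _, hs₁⟩ := hs₁ η₂ hη₂0
  set η₁ : ℝ := min (1 / (16 * M₁ * (d + 3))) (ρ / (2 * M₁)) with hη₁
  have hη₁0 : 0 < η₁ := by positivity
  refine ⟨η₁, hη₁0, N₁ + L, fun N hN x v α κ hv hcount => ?_⟩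
  by_contra hcon
  push Not at hcon
  obtain ⟨hx, hlv⟩ := hcon
  have hN0 : (0 : ℝ) < N := by
    have : 0 < N := by omega
    exact_mod_cast this
  set S := (Ico 0 N).filter (fun h : ℕ => Nr η₁ (κ + α * h + ∑ i, v i * Int.fract ((h : ℝ) * x i))) with hS
  -- step one: a relation between `x` and `α`
  obtain ⟨k, hk, hkx⟩ : ∃ k : Option ι → ℤ, Bd M₁ k ∧ Nr η₂ (dt k (fun o => o.elim α x)) := by
    by_contra h1
    push Not at h1
    have h2 := hs₁ N (by omega) (fun o => o.elim α x) h1 (fun o => o.elim 1 v) (by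
      intro o; cases o with
      | none => simp
      | some i => exact hv i) none (by
      intro o; cases o with
      | none => exact le_rfl
      | some i => simpa using hv i) (by simp) κ η₁ (by
        rw [hd']
        refine (min_le_left _ _).trans (le_of_eq ?_)
        simp only [Option.elim_none, abs_one]
        push_cast; ring_nf) 0
    rw [Nat.zero_add] at h2
    have h3 : S ⊆ (Ico 0 N).filter (fun h : ℕ => Nr η₁ (κ + ∑ o : Option ι, (o.elim 1 v : ℝ) *
        Int.fract ((h : ℝ) * (o.elim α x : ℝ)))) := by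
      intro h hh
      rw [mem_filter] at hh ⊢
      refine ⟨hh.1, ?_⟩
      obtain ⟨a, ha⟩ := hh.2
      refine ⟨a - ⌊(h : ℝ) * α⌋, ?_⟩
      rw [Fintype.sum_option]
      simp only [Option.elim_none, Option.elim_some, one_mul]
      convert ha using 2
      rw [← Int.self_sub_floor]
      push_cast
      ring
    have h4 : (#S : ℝ) ≤ c / 2 * N := le_trans (by exact_mod_cast card_le_card h3) h2
    nlinarith
  -- positive coefficient of `α`
  obtain ⟨l, k', hl1, hl2, hk'2, a, ha⟩ : ∃ (l : ℕ) (k' : ι → ℤ), 1 ≤ l ∧ l ≤ M₁ ∧ (∀ i, |k' i| ≤ M₁) ∧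
      ∃ a : ℤ, |l * α + dt k' x - a| ≤ η₂ := by
    have h0 : ∀ k : Option ι → ℤ, dt k (fun o => o.elim α x) = k none * α + dt (fun i => k (some i)) x := by
      intro k; unfold dt; rw [Fintype.sum_option]; rfl
    rcases lt_trichotomy (k none) 0 with h1 | h1 | h1
    · obtain ⟨a, ha⟩ := hkx.neg
      refine ⟨(k none).natAbs, fun i => -k (some i), by omega, ?_, fun i => ?_, a, ?_⟩
      · have := abs_le.1 (hk.2 none); omega
      · rw [abs_neg]; exact hk.2 (some i)
      · have h2 : (((k none).natAbs : ℕ) : ℝ) = -(k none : ℝ) := by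
          have : ((k none).natAbs : ℤ) = -k none := by omega
          rw [← Int.cast_natCast, this]; push_cast; ring
        rw [h2]
        have h3 : dt (fun i => -k (some i)) x = -dt (fun i => k (some i)) x := dt_neg _ _
        rw [h3]
        rw [h0] at ha
        convert ha using 2
        ring
    · exfalso
      apply hx (fun i => k (some i))
      · refine ⟨fun h2 => hk.1 ?_, fun i => (hk.2 (some i)).trans (by push_cast; omega)⟩
        funext o
        cases o with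
        | none => exact h1
        | some i => exact congrFun h2 i
      · rw [h0, h1] at hkx
        simp only [Int.cast_zero, zero_mul, zero_add] at hkx
        exact hkx.mono (min_le_left _ _)
    · obtain ⟨a, ha⟩ := hkx
      refine ⟨(k none).toNat, fun i => k (some i), by omega, ?_, fun i => hk.2 (some i), a, ?_⟩
      · have := abs_le.1 (hk.2 none); omega
      · have h2 : (((k none).toNat : ℕ) : ℝ) = (k none : ℝ) := by
          rw [← Int.cast_natCast, Int.toNat_of_nonneg h1.le]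
        rw [h2]
        rw [h0] at ha
        exact ha
  set τ : ℝ := l * α + dt k' x - a with hτ
  set w : ι → ℝ := fun i => l * v i - k' i with hw
  have hlr : (1 : ℝ) ≤ l := by exact_mod_cast hl1
  have hlr2 : (l : ℝ) ≤ M₁ := by exact_mod_cast hl2
  have hwb : ∀ i, |w i| ≤ 2 * M₁ := by
    intro i
    have h1 : |(k' i : ℝ)| ≤ M₁ := by exact_mod_cast hk'2 i
    have h2 : |(l : ℝ) * v i| ≤ M₁ := by
      rw [abs_mul, abs_of_nonneg (by linarith)]
      calc (l : ℝ) * |v i| ≤ M₁ * 1 := mul_le_mul hlr2 (hv i) (abs_nonneg _) (by linarith)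
        _ = M₁ := mul_one _
    calc |w i| ≤ |(l : ℝ) * v i| + |(k' i : ℝ)| := abs_sub _ _
      _ ≤ _ := by linarith
  obtain ⟨i₁, hi₁⟩ := hlv l hl1 (by omega)
  have hw1 : η < |w i₁| := by
    by_contra h1
    exact hi₁ ⟨k' i₁, not_lt.1 h1⟩
  obtain ⟨i₀, _, hi₀⟩ := exists_max_image (univ : Finset ι) (fun i => |w i|) ⟨i₁, mem_univ _⟩
  have hw0 : η < |w i₀| := hw1.trans_le (hi₀ i₁ (mem_univ _))
  -- blocks
  have hblock : ∀ b : ℕ, (#(S.filter (fun h => h / L = b)) : ℝ) ≤ c / 4 * L := by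
    intro b
    have h1 := hs₂ L le_rfl x (fun k hk => hx k (hk.mono (by omega))) w hwb i₀ (fun i => hi₀ i (mem_univ _))
      (hη.trans hw0) (l * κ + τ * (b * L : ℕ)) ρ (by
        rw [hρ]
        exact div_le_div_of_nonneg_right hw0.le (by positivity)) (b * L)
    refine le_trans ?_ h1
    have h2 : S.filter (fun h => h / L = b) ⊆ (Ico (b * L) (b * L + L)).filter (fun h : ℕ => Nr ρ
        (l * κ + τ * (b * L : ℕ) + ∑ i, w i * Int.fract ((h : ℝ) * x i))) := by
      intro h hh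
      rw [mem_filter, mem_filter] at hh
      obtain ⟨⟨_, n, hn⟩, hb⟩ := hh
      have h3 : b * L ≤ h := by rw [← hb]; exact Nat.div_mul_le_self _ _
      have h4 : h < b * L + L := by
        rw [← hb]
        exact Nat.lt_div_mul_add (by omega)
      rw [mem_filter, mem_Ico]
      refine ⟨⟨h3, h4⟩, l * n - h * a + ∑ i, k' i * ⌊(h : ℝ) * x i⌋, ?_⟩
      have h5 : l * κ + τ * (b * L : ℕ) + ∑ i, w i * Int.fract ((h : ℝ) * x i) -
          ((l * n - h * a + ∑ i, k' i * ⌊(h : ℝ) * x i⌋ : ℤ) : ℝ) =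
          l * (κ + α * h + ∑ i, v i * Int.fract ((h : ℝ) * x i) - n) - τ * ((h : ℝ) - (b * L : ℕ)) := by
        have h6 : ∑ i, w i * Int.fract ((h : ℝ) * x i) = l * ∑ i, v i * Int.fract ((h : ℝ) * x i) -
            ∑ i, (k' i : ℝ) * Int.fract ((h : ℝ) * x i) := by
          rw [mul_sum, ← sum_sub_distrib]
          refine sum_congr rfl fun i _ => ?_
          simp only [hw]; ring
        have h7 : ∑ i, (k' i : ℝ) * Int.fract ((h : ℝ) * x i) = h * dt k' x -
            ∑ i, (k' i : ℝ) * (⌊(h : ℝ) * x i⌋ : ℝ) := by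
          unfold dt
          rw [mul_sum, ← sum_sub_distrib]
          refine sum_congr rfl fun i _ => ?_
          rw [← Int.self_sub_floor]; ring
        rw [h6, h7, hτ]
        push_cast
        ring
      rw [h5]
      have h8 : |(h : ℝ) - (b * L : ℕ)| ≤ L := by
        have h9 : ((b * L : ℕ) : ℝ) ≤ h := by exact_mod_cast h3
        have h10 : (h : ℝ) ≤ (b * L : ℕ) + L := by exact_mod_cast h4.le
        rw [abs_le]; constructor <;> linarith
      have h9 : |(l : ℝ) * (κ + α * h + ∑ i, v i * Int.fract ((h : ℝ) * x i) - n)| ≤ ρ / 2 := by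
        rw [abs_mul, abs_of_nonneg (by linarith)]
        calc (l : ℝ) * _ ≤ M₁ * (ρ / (2 * M₁)) :=
              mul_le_mul hlr2 (hn.trans (min_le_right _ _)) (abs_nonneg _) (by linarith)
          _ = ρ / 2 := by field_simp
      have h10 : |τ * ((h : ℝ) - (b * L : ℕ))| ≤ ρ / 2 := by
        rw [abs_mul]
        calc |τ| * _ ≤ (ρ / (2 * L)) * L :=
              mul_le_mul (ha.trans (min_le_right _ _)) h8 (abs_nonneg _) (by positivity)
          _ = ρ / 2 := by field_simp
      refine (abs_sub _ _).trans ?_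
      linarith
    exact_mod_cast card_le_card h2
  have hsum : (#S : ℝ) = ∑ b ∈ range (N / L + 1), (#(S.filter (fun h => h / L = b)) : ℝ) := by
    rw [← Nat.cast_sum]
    refine congrArg _ (card_eq_sum_card_fiberwise fun h hh => ?_)
    have h1 : h < N := (mem_Ico.1 (mem_filter.1 hh).1).2
    rw [coe_range, Set.mem_Iio]
    exact Nat.lt_succ_of_le (Nat.div_le_div_right h1.le)
  have h1 : (#S : ℝ) ≤ ((N / L + 1 : ℕ) : ℝ) * (c / 4 * L) := by
    rw [hsum]
    refine (sum_le_sum fun b _ => hblock b).trans ?_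
    rw [sum_const, card_range, nsmul_eq_mul]
  have h2 : ((N / L + 1 : ℕ) : ℝ) * L ≤ N + L := by
    have : (N / L + 1) * L ≤ N + L := by
      rw [add_mul, one_mul]
      exact Nat.add_le_add_right (Nat.div_mul_le_self _ _) _
    exact_mod_cast this
  have h3 : (L : ℝ) ≤ N := by
    have : L ≤ N := by omega
    exact_mod_cast this
  have h4 : (#S : ℝ) ≤ c / 4 * (2 * N) := by
    refine h1.trans ?_
    calc ((N / L + 1 : ℕ) : ℝ) * (c / 4 * L) = c / 4 * (((N / L + 1 : ℕ) : ℝ) * L) := by ring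
      _ ≤ c / 4 * (2 * N) := mul_le_mul_of_nonneg_left (by linarith) (by positivity)
  nlinarith

end Pool.Agent.Helper16.NL
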