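import Pool.Graph.R_pool_sql_team_seeded_1e53cb71.Helper44K9.FN.Vdc

/-! Points of a line in a torus: boxes and slabs. -/

set_option autoImplicit false

namespace Pool.Agent.Helper16.NL

open Finset
open Pool.Agent.H807R2.Dav (ee ee_add norm_ee ee_zero dd dd_ge dd_le dd_add_int geo_bound KK_le' KK ee_int ee_add_int)

variable {ι : Type} [Fintype ι]

/-- integral linear form -/
noncomputable def dt (k : ι → ℤ) (x : ι → ℝ) : ℝ := ∑ i, (k i : ℝ) * x i

/-- the number `x` is within `η` of an integer -/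
def Nr (η x : ℝ) : Prop := ∃ a : ℤ, |x - a| ≤ η

/-- nonzero integer vectors bounded by `K` -/
def Bd (K : ℕ) (k : ι → ℤ) : Prop := k ≠ 0 ∧ ∀ i, |k i| ≤ K

lemma dd_far {η θ : ℝ} (h : ¬ Nr η θ) : 4 * η ≤ dd θ := by
  set t := Int.fract θ with ht
  have ht0 : 0 ≤ t := Int.fract_nonneg _
  have ht1 : t < 1 := Int.fract_lt_one _
  have h3 : θ = t + (⌊θ⌋ : ℤ) := by rw [ht]; exact (Int.fract_add_floor _).symm
  have h4 : dd θ = dd t := by conv_lhs => rw [h3, dd_add_int]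
  have h5 : η < t := by
    by_contra h6
    apply h
    refine ⟨⌊θ⌋, ?_⟩
    have : θ - (⌊θ⌋ : ℤ) = t := by rw [ht]; rfl
    rw [this, abs_of_nonneg ht0]
    exact not_lt.1 h6
  have h6 : η < 1 - t := by
    by_contra h6
    apply h
    refine ⟨⌊θ⌋ + 1, ?_⟩
    have : θ - ((⌊θ⌋ + 1 : ℤ) : ℝ) = -(1 - t) := by rw [ht]; push_cast; rw [← Int.self_sub_floor]; ring
    rw [this, abs_neg, abs_of_nonneg (by linarith)]
    exact not_lt.1 h6
  rw [h4]
  refine le_trans ?_ (dd_ge ht0 ht1.le)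
  have : η ≤ min t (1 - t) := le_min h5.le h6.le
  linarith

lemma far {η θ : ℝ} (hη : 0 < η) (h : ¬ Nr η θ) (a b : ℕ) (hab : a ≤ b) :
    ‖∑ m ∈ Ico a b, ee (m * θ)‖ ≤ 1 / η := by
  have h2 := geo_bound a b hab (M := (b : ℝ) - a) le_rfl θ
  refine h2.trans ?_
  have hM : (0 : ℝ) ≤ (b : ℝ) - a := by
    have : (a : ℝ) ≤ b := by exact_mod_cast hab
    linarith
  refine (KK_le' hM (by positivity) (dd_far h)).trans ?_
  rw [div_le_div_iff₀ (by positivity) hη]
  linarith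

lemma ee_sum {κ : Type} (s : Finset κ) (f : κ → ℝ) : ee (∑ i ∈ s, f i) = ∏ i ∈ s, ee (f i) := by
  classical
  induction s using Finset.induction_on with
  | empty => simp [ee_zero]
  | insert a s ha ih => rw [sum_insert ha, prod_insert ha, ee_add, ih]

lemma near_big {M : ℕ} {t : ℝ} (h : Nr (1 / (16 * M)) t) : (M : ℝ) / 2 ≤ ‖∑ m ∈ range M, ee (m * t)‖ := by
  rcases Nat.eq_zero_or_pos M with h0 | h0
  · subst h0; simp
  obtain ⟨a, ha⟩ := h
  set s := t - a with hs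
  have hM : (0 : ℝ) < M := by exact_mod_cast h0
  have h1 : ∀ m : ℕ, ee (m * t) = ee (m * s) := by
    intro m
    have : (m : ℝ) * t = m * s + ((m * a : ℤ) : ℝ) := by rw [hs]; push_cast; ring
    rw [this, ee_add_int]
  simp only [h1]
  have h2 : ‖(M : ℂ) - ∑ m ∈ range M, ee (m * s)‖ ≤ M / 2 := by
    have h3 : (M : ℂ) - ∑ m ∈ range M, ee (m * s) = ∑ m ∈ range M, (1 - ee (m * s)) := by
      rw [sum_sub_distrib]; simp
    rw [h3]
    refine (norm_sum_le _ _).trans ?_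
    calc ∑ m ∈ range M, ‖1 - ee (m * s)‖ ≤ ∑ m ∈ range M, (1 / 2 : ℝ) := by
          refine sum_le_sum fun m hm => ?_
          have h4 := dd_le (m * s)
          have h5 : (m : ℝ) ≤ M := by exact_mod_cast (mem_range.1 hm).le
          have h6 : |(m : ℝ) * s| ≤ 1 / 16 := by
            rw [abs_mul, abs_of_nonneg (Nat.cast_nonneg m)]
            calc (m : ℝ) * |s| ≤ M * (1 / (16 * M)) := mul_le_mul h5 ha (abs_nonneg _) hM.le
              _ = 1 / 16 := by field_simp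
          have h7 : dd (m * s) = ‖1 - ee (m * s)‖ := rfl
          rw [← h7]
          refine h4.trans ?_
          have := Real.pi_lt_d2
          have := Real.pi_pos
          nlinarith
      _ = M / 2 := by simp; ring
  have h3 : ‖(M : ℂ)‖ = M := by simp
  have h4 := norm_sub_norm_le (M : ℂ) (∑ m ∈ range M, ee (m * s))
  rw [h3] at h4
  linarith

lemma conj_ee (x : ℝ) : (starRingEnd ℂ) (ee x) = ee (-x) := Pool.Agent.Helper44K9.FN.VdcL.conj_ee x

open Classical in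
/-- boxes -/
theorem box (M : ℕ) (hM : 1 ≤ M) {η : ℝ} (hη : 0 < η) (x : ι → ℝ) (hx : ∀ k : ι → ℤ, Bd M k → ¬ Nr η (dt k x))
    (c : ι → ℝ) (a L : ℕ) :
    (#((Ico a (a + L)).filter (fun h : ℕ => ∀ i, Nr (1 / (16 * M)) ((h : ℝ) * x i - c i))) : ℝ) ≤
      4 ^ Fintype.card ι * (L / (M : ℝ) ^ Fintype.card ι + 1 / η) := by
  set d := Fintype.card ι with hd
  set S := (Ico a (a + L)).filter (fun h : ℕ => ∀ i, Nr (1 / (16 * M)) ((h : ℝ) * x i - c i)) with hS
  have hM0 : (0 : ℝ) < M := by exact_mod_cast hM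
  set D : ℕ → ℂ := fun h => ∏ i, ∑ m ∈ range M, ee (m * ((h : ℝ) * x i - c i)) with hD
  set PI : Finset (ι → ℕ) := Fintype.piFinset fun _ => range M with hPI
  have hcard : #PI = M ^ d := by rw [hPI, Fintype.card_piFinset]; simp [hd]
  have hD' : ∀ h, D h = ∑ m ∈ PI, ee (∑ i, (m i : ℝ) * ((h : ℝ) * x i - c i)) := by
    intro h
    rw [hD, hPI]
    simp only
    rw [prod_univ_sum]
    refine sum_congr rfl fun m _ => ?_
    rw [ee_sum]
  have h1 : ∀ h ∈ S, ((M : ℝ) ^ 2 / 4) ^ d ≤ ‖D h‖ ^ 2 := by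
    intro h hh
    rw [hD]
    simp only
    rw [norm_prod, ← prod_pow, hd, ← Finset.card_univ, ← prod_const]
    refine prod_le_prod (fun i _ => by positivity) fun i _ => ?_
    have h2 := near_big ((mem_filter.1 hh).2 i)
    calc (M : ℝ) ^ 2 / 4 = (M / 2) ^ 2 := by ring
      _ ≤ _ := pow_le_pow_left₀ (by positivity) h2 2
  have h2 : ∀ h : ℕ, ((‖D h‖ ^ 2 : ℝ) : ℂ) = ∑ m ∈ PI, ∑ m' ∈ PI,
      ee (-∑ i, ((m i : ℝ) - m' i) * c i) * ee (h * dt (fun i => (m i : ℤ) - m' i) x) := by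
    intro h
    have h3 : ((‖D h‖ ^ 2 : ℝ) : ℂ) = D h * (starRingEnd ℂ) (D h) := by
      rw [Complex.mul_conj']; push_cast; rfl
    rw [h3, hD' h, map_sum, sum_mul_sum]
    refine sum_congr rfl fun m _ => sum_congr rfl fun m' _ => ?_
    rw [conj_ee, ← ee_add, ← ee_add]
    congr 1
    unfold dt
    push_cast
    rw [mul_sum, ← sub_eq_add_neg, ← sum_sub_distrib, neg_add_eq_sub, ← sum_sub_distrib]
    exact sum_congr rfl fun i _ => by ring
  have h3 : ((∑ h ∈ Ico a (a + L), ‖D h‖ ^ 2 : ℝ) : ℂ) = ∑ m ∈ PI, ∑ m' ∈ PI,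
      ee (-∑ i, ((m i : ℝ) - m' i) * c i) * ∑ h ∈ Ico a (a + L), ee (h * dt (fun i => (m i : ℤ) - m' i) x) := by
    push_cast
    have : ∀ h ∈ Ico a (a + L), (‖D h‖ : ℂ) ^ 2 = ∑ m ∈ PI, ∑ m' ∈ PI,
      ee (-∑ i, ((m i : ℝ) - m' i) * c i) * ee (h * dt (fun i => (m i : ℤ) - m' i) x) := by
      intro h _
      rw [← h2]; push_cast; rfl
    rw [sum_congr rfl this, sum_comm]
    refine sum_congr rfl fun m _ => ?_
    rw [sum_comm]
    refine sum_congr rfl fun m' _ => ?_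
    rw [mul_sum]
  have h4 : ∑ h ∈ Ico a (a + L), ‖D h‖ ^ 2 ≤ ∑ m ∈ PI, (L + (M : ℝ) ^ d / η) := by
    have h5 : ∑ h ∈ Ico a (a + L), ‖D h‖ ^ 2 = ‖((∑ h ∈ Ico a (a + L), ‖D h‖ ^ 2 : ℝ) : ℂ)‖ := by
      rw [Complex.norm_real, Real.norm_of_nonneg (sum_nonneg fun h _ => by positivity)]
    rw [h5, h3]
    refine (norm_sum_le _ _).trans (sum_le_sum fun m hm => ?_)
    refine (norm_sum_le _ _).trans ?_
    rw [← add_sum_erase PI _ hm]
    refine add_le_add ?_ ?_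
    · rw [norm_mul, norm_ee, one_mul]
      refine (norm_sum_le _ _).trans ?_
      simp [norm_ee]
    · calc ∑ m' ∈ PI.erase m, ‖ee (-∑ i, ((m i : ℝ) - m' i) * c i) *
            ∑ h ∈ Ico a (a + L), ee (h * dt (fun i => (m i : ℤ) - m' i) x)‖ ≤ ∑ m' ∈ PI.erase m, 1 / η := by
            refine sum_le_sum fun m' hm' => ?_
            rw [norm_mul, norm_ee, one_mul]
            refine far hη (hx _ ⟨?_, fun i => ?_⟩) _ _ (by omega)
            · intro h6
              apply (mem_erase.1 hm').1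
              funext i
              have := congrFun h6 i
              simp only [Pi.zero_apply] at this
              omega
            · have h7 := mem_range.1 ((Fintype.mem_piFinset.1 hm) i)
              have h8 := mem_range.1 ((Fintype.mem_piFinset.1 (mem_erase.1 hm').2) i)
              rw [abs_le]; constructor <;> omega
        _ ≤ (M : ℝ) ^ d / η := by
            rw [sum_const, nsmul_eq_mul, div_eq_mul_one_div ((M : ℝ) ^ d)]
            have : #(PI.erase m) ≤ M ^ d := (card_erase_le).trans hcard.le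
            have h9 : (0 : ℝ) ≤ 1 / η := by positivity
            refine mul_le_mul_of_nonneg_right ?_ h9
            exact_mod_cast this
  rw [sum_const, hcard, nsmul_eq_mul] at h4
  have h5 : (#S : ℝ) * ((M : ℝ) ^ 2 / 4) ^ d ≤ ∑ h ∈ Ico a (a + L), ‖D h‖ ^ 2 := by
    calc (#S : ℝ) * ((M : ℝ) ^ 2 / 4) ^ d = ∑ h ∈ S, ((M : ℝ) ^ 2 / 4) ^ d := by rw [sum_const, nsmul_eq_mul]
      _ ≤ ∑ h ∈ S, ‖D h‖ ^ 2 := sum_le_sum h1
      _ ≤ _ := sum_le_sum_of_subset_of_nonneg (filter_subset _ _) fun _ _ _ => sq_nonneg _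
  have h6 : ((M : ℝ) ^ 2 / 4) ^ d * (4 ^ d * (L / (M : ℝ) ^ d + 1 / η)) = ((M ^ d : ℕ) : ℝ) * (L + (M : ℝ) ^ d / η) := by
    have h7 : ((M : ℝ) ^ 2 / 4) ^ d * 4 ^ d = (M : ℝ) ^ d * (M : ℝ) ^ d := by
      rw [← mul_pow, ← mul_pow]; congr 1; ring
    rw [← mul_assoc, h7]
    push_cast
    field_simp
  have h7 : (#S : ℝ) * ((M : ℝ) ^ 2 / 4) ^ d ≤ (4 ^ d * (L / (M : ℝ) ^ d + 1 / η)) * ((M : ℝ) ^ 2 / 4) ^ d := by
    rw [mul_comm (4 ^ d * _), h6]
    exact h5.trans h4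
  exact le_of_mul_le_mul_right h7 (by positivity)

end Pool.Agent.Helper16.NL
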