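import Pool.Agent.Helper16.NL.Exact

/-! Many exact relations `q z_p = p w_q` come from one frequency. -/

set_option autoImplicit false

namespace Pool.Agent.Helper16.NL

open Finset Topology

lemma alg1 {A : Type} [AddCommGroup A] {p q : ℕ} (h : p.Coprime q) {z w : A} (hzw : q • z = p • w) :
    ∃ β : A, p • β = z ∧ q • β = w := by
  have hb := Nat.gcd_eq_gcd_ab p q
  rw [h.gcd_eq_one] at hb
  push_cast at hb
  set v := p.gcdA q
  set u := p.gcdB q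
  refine ⟨u • w + v • z, ?_, ?_⟩
  · have h1 : p • (u • w + v • z) = u • (p • w) + (p * v : ℤ) • z := by
      rw [smul_add, mul_smul, natCast_zsmul, smul_comm p u w]
    rw [h1, ← hzw]
    have h2 : u • q • z = ((q : ℤ) * u) • z := by rw [mul_comm, mul_smul, natCast_zsmul]
    rw [h2, ← add_smul]
    have h3 : (q : ℤ) * u + p * v = 1 := by linarith
    rw [h3, one_smul]
  · have h1 : q • (u • w + v • z) = v • (q • z) + (q * u : ℤ) • w := by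
      rw [smul_add, mul_smul, natCast_zsmul, smul_comm q v z, add_comm]
    rw [h1, hzw]
    have h2 : v • p • w = ((p : ℤ) * v) • w := by rw [mul_comm, mul_smul, natCast_zsmul]
    rw [h2, ← add_smul]
    have h3 : (p : ℤ) * v + q * u = 1 := by linarith
    rw [h3, one_smul]

lemma alg2 {A : Type} [AddCommGroup A] {q r : ℕ} (h : q.Coprime r) {ε : A} (h1 : q • ε = 0) (h2 : r • ε = 0) :
    ε = 0 := by
  have h3 : addOrderOf ε ∣ q := addOrderOf_dvd_of_nsmul_eq_zero h1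
  have h4 : addOrderOf ε ∣ r := addOrderOf_dvd_of_nsmul_eq_zero h2
  have h5 : addOrderOf ε = 1 := Nat.eq_one_of_dvd_coprimes h h3 h4
  exact AddMonoid.addOrderOf_eq_one_iff.1 h5

/-- the relation of a third point -/
lemma alg3 {A : Type} [AddCommGroup A] {p₀ p q q' : ℕ} (hc : q.Coprime (p₀ * q')) {β z z₀ w w' : A} (h1 : p₀ • β = z₀)
    (h2 : q • β = w) (h3 : q • z = p • w) (h4 : q' • z = p • w') (h5 : q' • z₀ = p₀ • w') : p • β = z := by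
  have h6 : q • (z - p • β) = 0 := by
    rw [smul_sub, h3, smul_comm q p β, h2, sub_self]
  have h7 : (p₀ * q') • (z - p • β) = 0 := by
    rw [mul_smul, smul_sub q', h4, smul_sub, smul_comm p₀ p w', ← h5, smul_comm q' p β, smul_comm p₀ p (q' • β),
      smul_comm p₀ q' β, h1, sub_self]
  have h8 := alg2 hc h6 h7
  exact (sub_eq_zero.1 h8).symm

open Classical in
/-- two neighbours -/
lemma twoq {P : Finset ℕ} (hP : ∀ p ∈ P, 2 ≤ p) {Q : Finset (ℕ × ℕ)} (hQ : Q ⊆ P ×ˢ P) {c X : ℝ} (hc : 0 < c)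
    (hX : X = ∑ p ∈ P, 1 / (p : ℝ)) (hX1 : 1 < c ^ 2 * X) (h : c * X ^ 2 ≤ ∑ e ∈ Q, 1 / ((e.1 : ℝ) * e.2)) :
    ∃ q ∈ P, ∃ q' ∈ P, q ≠ q' ∧ c ^ 2 / 2 * X ≤ ∑ p ∈ P.filter (fun p => (p, q) ∈ Q ∧ (p, q') ∈ Q), 1 / (p : ℝ) := by
  by_contra hcon
  push Not at hcon
  have hX0 : 0 < X := by
    by_contra h0
    have : c ^ 2 * X ≤ 0 := mul_nonpos_of_nonneg_of_nonpos (by positivity) (not_lt.1 h0)
    linarith
  set e : ℕ → ℕ → ℝ := fun p q => if (p, q) ∈ Q then 1 else 0 with he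
  set t : ℕ → ℝ := fun p => ∑ q ∈ P, e p q / q with ht
  have h1 : ∑ e ∈ Q, 1 / ((e.1 : ℝ) * e.2) = ∑ p ∈ P, 1 / (p : ℝ) * t p := by
    have h2 : ∑ p ∈ P, 1 / (p : ℝ) * t p = ∑ x ∈ P ×ˢ P, if x ∈ Q then 1 / ((x.1 : ℝ) * x.2) else 0 := by
      rw [sum_product]
      refine sum_congr rfl fun p _ => ?_
      rw [ht]
      simp only
      rw [mul_sum]
      refine sum_congr rfl fun q _ => ?_
      simp only [he]
      split_ifs
      · rw [one_div_mul_one_div]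
      · simp
    rw [h2, ← sum_filter]
    refine sum_congr ?_ fun _ _ => rfl
    ext x
    rw [mem_filter]
    exact ⟨fun hx => ⟨hQ hx, hx⟩, fun hx => hx.2⟩
  have h2 : c ^ 2 * X ^ 3 ≤ ∑ p ∈ P, 1 / (p : ℝ) * t p ^ 2 := by
    have h3 : 0 ≤ ∑ p ∈ P, 1 / (p : ℝ) * (t p - c * X) ^ 2 := sum_nonneg fun p _ => by positivity
    have h4 : ∑ p ∈ P, 1 / (p : ℝ) * (t p - c * X) ^ 2 =
        ∑ p ∈ P, 1 / (p : ℝ) * t p ^ 2 - 2 * (c * X) * ∑ p ∈ P, 1 / (p : ℝ) * t p + (c * X) ^ 2 * ∑ p ∈ P, 1 / (p : ℝ) := by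
      rw [mul_sum, mul_sum, ← sum_sub_distrib, ← sum_add_distrib]
      exact sum_congr rfl fun p _ => by ring
    rw [h4, ← h1, ← hX] at h3
    have h5 : c * X * (c * X ^ 2) ≤ c * X * ∑ e ∈ Q, 1 / ((e.1 : ℝ) * e.2) :=
      mul_le_mul_of_nonneg_left h (by positivity)
    nlinarith
  have h3 : ∑ p ∈ P, 1 / (p : ℝ) * t p ^ 2 = ∑ q ∈ P, ∑ q' ∈ P, 1 / ((q : ℝ) * q') *
      ∑ p ∈ P.filter (fun p => (p, q) ∈ Q ∧ (p, q') ∈ Q), 1 / (p : ℝ) := by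
    have h4 : ∀ p, t p ^ 2 = ∑ q ∈ P, ∑ q' ∈ P, e p q / q * (e p q' / q') := by
      intro p
      rw [sq, ht]
      simp only
      rw [sum_mul_sum]
    calc ∑ p ∈ P, 1 / (p : ℝ) * t p ^ 2 = ∑ p ∈ P, ∑ q ∈ P, ∑ q' ∈ P, 1 / (p : ℝ) * (e p q / q * (e p q' / q')) := by
          refine sum_congr rfl fun p _ => ?_
          rw [h4, mul_sum]
          exact sum_congr rfl fun q _ => by rw [mul_sum]
      _ = ∑ q ∈ P, ∑ q' ∈ P, ∑ p ∈ P, 1 / (p : ℝ) * (e p q / q * (e p q' / q')) := by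
          rw [sum_comm]
          exact sum_congr rfl fun q _ => sum_comm
      _ = _ := by
          refine sum_congr rfl fun q _ => sum_congr rfl fun q' _ => ?_
          rw [sum_filter, mul_sum]
          refine sum_congr rfl fun p _ => ?_
          simp only [he]
          by_cases ha : (p, q) ∈ Q <;> by_cases hb : (p, q') ∈ Q <;> simp [ha, hb]
          ring
  have h4 : ∀ q ∈ P, ∑ q' ∈ P, 1 / ((q : ℝ) * q') *
      ∑ p ∈ P.filter (fun p => (p, q) ∈ Q ∧ (p, q') ∈ Q), 1 / (p : ℝ) ≤ (1 / (q : ℝ)) * (c ^ 2 / 2 * X ^ 2 + X / 2) := by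
    intro q hq
    have hq2 : (2 : ℝ) ≤ q := by exact_mod_cast hP q hq
    rw [← add_sum_erase P _ hq, add_comm]
    have h5 : ∑ q' ∈ P.erase q, 1 / ((q : ℝ) * q') *
        ∑ p ∈ P.filter (fun p => (p, q) ∈ Q ∧ (p, q') ∈ Q), 1 / (p : ℝ) ≤ (1 / (q : ℝ)) * (c ^ 2 / 2 * X ^ 2) := by
      calc _ ≤ ∑ q' ∈ P.erase q, 1 / ((q : ℝ) * q') * (c ^ 2 / 2 * X) := by
            refine sum_le_sum fun q' hq' => ?_
            rw [mem_erase] at hq'
            exact mul_le_mul_of_nonneg_left (hcon q hq q' hq'.2 (fun h => hq'.1 h.symm)).le (by positivity)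
        _ = (1 / (q : ℝ)) * (c ^ 2 / 2 * X) * ∑ q' ∈ P.erase q, 1 / (q' : ℝ) := by
            rw [mul_sum]
            refine sum_congr rfl fun q' _ => ?_
            rw [← one_div_mul_one_div]; ring
        _ ≤ (1 / (q : ℝ)) * (c ^ 2 / 2 * X) * X := by
            refine mul_le_mul_of_nonneg_left ?_ (by positivity)
            rw [hX]
            exact sum_le_sum_of_subset_of_nonneg (erase_subset _ _) fun _ _ _ => by positivity
        _ = _ := by ring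
    have h6 : 1 / ((q : ℝ) * q) * ∑ p ∈ P.filter (fun p => (p, q) ∈ Q ∧ (p, q) ∈ Q), 1 / (p : ℝ) ≤ (1 / (q : ℝ)) * (X / 2) := by
      have h7 : ∑ p ∈ P.filter (fun p => (p, q) ∈ Q ∧ (p, q) ∈ Q), 1 / (p : ℝ) ≤ X := by
        rw [hX]
        exact sum_le_sum_of_subset_of_nonneg (filter_subset _ _) fun _ _ _ => by positivity
      rw [← one_div_mul_one_div, mul_assoc]
      refine mul_le_mul_of_nonneg_left ?_ (by positivity)
      have h8 : 1 / (q : ℝ) ≤ 1 / 2 := one_div_le_one_div_of_le (by norm_num) hq2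
      calc 1 / (q : ℝ) * _ ≤ 1 / 2 * X := mul_le_mul h8 h7 (sum_nonneg fun _ _ => by positivity) (by norm_num)
        _ = X / 2 := by ring
    rw [mul_add]
    exact add_le_add h5 h6
  have h5 : ∑ p ∈ P, 1 / (p : ℝ) * t p ^ 2 ≤ X * (c ^ 2 / 2 * X ^ 2 + X / 2) := by
    rw [h3]
    refine (sum_le_sum h4).trans ?_
    rw [← sum_mul, ← hX]
  have h6 : c ^ 2 * X ^ 3 ≤ X * (c ^ 2 / 2 * X ^ 2 + X / 2) := h2.trans h5
  have h7 : 0 < (c ^ 2 * X - 1) * X ^ 2 := by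
    have : 0 < c ^ 2 * X - 1 := by linarith
    positivity
  nlinarith

variable {ι : Type} [Fintype ι]

open Classical in
/-- many exact relations come from one frequency -/
theorem comb (K : ℕ) {c₁ : ℝ} (hc₁ : 0 < c₁) : ∃ c₂ X₀ : ℝ, 0 < c₂ ∧ ∀ E : Set (ι → UnitAddCircle),
    (∀ k : ι → ℤ, k ≠ 0 → ∀ x ∈ E, addOrderOf (lf k x) = 0) → ∀ P : Finset ℕ, (∀ p ∈ P, p.Prime) →
    X₀ ≤ ∑ p ∈ P, 1 / (p : ℝ) → ∀ x : ℕ → ι → UnitAddCircle, (∀ p ∈ P, x p ∈ E) → ∀ Q ⊆ P ×ˢ P,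
    c₁ * (∑ p ∈ P, 1 / (p : ℝ)) ^ 2 ≤ ∑ e ∈ Q, 1 / ((e.1 : ℝ) * e.2) →
    (∀ e ∈ Q, e.1 ≠ e.2 ∧ ∃ m m' : ι → ℤ, (m ≠ 0 ∨ m' ≠ 0) ∧ (∀ i, |m i| ≤ K) ∧ (∀ i, |m' i| ≤ K) ∧
      e.2 • lf m (x e.1) + e.1 • lf m' (x e.2) = 0) →
    ∃ (β : UnitAddCircle), ∃ Z ⊆ P, c₂ * (∑ p ∈ P, 1 / (p : ℝ)) ≤ ∑ p ∈ Z, 1 / (p : ℝ) ∧
      ∀ p ∈ Z, ∃ m : ι → ℤ, Bd K m ∧ p • β = lf m (x p) := by
  set BX : Finset (ι → ℤ) := Fintype.piFinset fun _ => Icc (-(K : ℤ)) K with hBX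
  set c₃ : ℝ := c₁ / (#(BX ×ˢ BX) + 1) with hc₃
  have hc₃0 : 0 < c₃ := by positivity
  refine ⟨c₃ ^ 2 / 2, 2 / c₃ ^ 2, by positivity, ?_⟩
  intro E hE P hP hX x hx Q hQP hQ hrel
  set X : ℝ := ∑ p ∈ P, 1 / (p : ℝ) with hXd
  have hX1 : 1 < c₃ ^ 2 * X := by
    rw [div_le_iff₀ (by positivity)] at hX
    linarith
  have hX0 : 0 < X := by
    by_contra h0
    have : c₃ ^ 2 * X ≤ 0 := mul_nonpos_of_nonneg_of_nonpos (by positivity) (not_lt.1 h0)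
    linarith
  choose! hne m m' hm0 hmK hm'K hmrel using hrel
  have hmem : ∀ k : ι → ℤ, (∀ i, |k i| ≤ K) → k ∈ BX := by
    intro k hk
    rw [hBX, Fintype.mem_piFinset]
    intro i
    rw [mem_Icc, ← abs_le]
    exact hk i
  -- pigeonhole
  obtain ⟨⟨k, k'⟩, hpig⟩ : ∃ kk : (ι → ℤ) × (ι → ℤ), c₃ * X ^ 2 ≤
      ∑ e ∈ Q.filter (fun e => (m e, m' e) = kk), 1 / ((e.1 : ℝ) * e.2) := by
    by_contra hcon
    push Not at hcon
    have h1 : ∑ e ∈ Q, 1 / ((e.1 : ℝ) * e.2) = ∑ kk ∈ BX ×ˢ BX, ∑ e ∈ Q.filter (fun e => (m e, m' e) = kk),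
        1 / ((e.1 : ℝ) * e.2) :=
      (sum_fiberwise_of_maps_to (fun e he => mem_product.2 ⟨hmem _ (hmK e he), hmem _ (hm'K e he)⟩) _).symm
    rw [h1] at hQ
    have h2 : ∑ kk ∈ BX ×ˢ BX, ∑ e ∈ Q.filter (fun e => (m e, m' e) = kk), 1 / ((e.1 : ℝ) * e.2) ≤
        #(BX ×ˢ BX) * (c₃ * X ^ 2) := by
      rw [← nsmul_eq_mul, ← sum_const]
      exact sum_le_sum fun kk _ => (hcon kk).le
    have h3 : ((#(BX ×ˢ BX) : ℝ) + 1) * (c₃ * X ^ 2) = c₁ * X ^ 2 := by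
      rw [hc₃]; field_simp
    have h4 : 0 < c₃ * X ^ 2 := by positivity
    linarith
  set Q₁ := Q.filter (fun e => (m e, m' e) = (k, k')) with hQ₁
  obtain ⟨q, hq, q', hq', hqq, hZ⟩ := twoq (fun p hp => (hP p hp).two_le) ((filter_subset _ _).trans hQP) hc₃0 hXd hX1 hpig
  -- relations
  have hR : ∀ p r : ℕ, (p, r) ∈ Q₁ → p ≠ r ∧ k ≠ 0 ∧ (∀ i, |k i| ≤ K) ∧ r • lf k (x p) = p • (-lf k' (x r)) := by
    intro p r h
    rw [hQ₁, mem_filter] at h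
    obtain ⟨h1, h2⟩ := h
    have hk : m (p, r) = k := congrArg Prod.fst h2
    have hk' : m' (p, r) = k' := congrArg Prod.snd h2
    have h3 := hmrel _ h1
    rw [hk, hk'] at h3
    simp only at h3
    have h4 := hm0 _ h1
    rw [hk, hk'] at h4
    refine ⟨hne _ h1, ?_, fun i => by rw [← hk]; exact hmK _ h1 i, ?_⟩
    · intro hk0
      have hk'0 : k' ≠ 0 := by
        rcases h4 with h | h
        · exact absurd hk0 h
        · exact h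
      have hmemr := (mem_product.1 (hQP h1))
      have h5 := hE k' hk'0 (x r) (hx r hmemr.2)
      have h6 : lf k (x p) = 0 := by rw [hk0]; unfold lf; simp
      rw [h6, smul_zero, zero_add] at h3
      have h7 := addOrderOf_dvd_of_nsmul_eq_zero h3
      rw [h5, zero_dvd_iff] at h7
      exact (hP p hmemr.1).ne_zero h7
    · rw [smul_neg]
      exact eq_neg_of_add_eq_zero_left h3
  have hZne : (P.filter (fun p => (p, q) ∈ Q₁ ∧ (p, q') ∈ Q₁)).Nonempty := by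
    by_contra h0
    rw [not_nonempty_iff_eq_empty] at h0
    rw [h0, sum_empty] at hZ
    have : 0 < c₃ ^ 2 / 2 * X := by positivity
    linarith
  obtain ⟨p₀, hp₀⟩ := hZne
  rw [mem_filter] at hp₀
  obtain ⟨hp₀P, h1, h2⟩ := hp₀
  have hcop : p₀.Coprime q := (Nat.coprime_primes (hP _ hp₀P) (hP _ hq)).2 (hR _ _ h1).1
  obtain ⟨β, hβ1, hβ2⟩ := alg1 hcop (hR _ _ h1).2.2.2
  refine ⟨β, P.filter (fun p => (p, q) ∈ Q₁ ∧ (p, q') ∈ Q₁), filter_subset _ _, hZ, fun p hp => ?_⟩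
  rw [mem_filter] at hp
  obtain ⟨hpP, h3, h4⟩ := hp
  refine ⟨k, ⟨(hR _ _ h3).2.1, (hR _ _ h3).2.2.1⟩, ?_⟩
  have hcop2 : q.Coprime (p₀ * q') :=
    Nat.Coprime.mul_right hcop.symm ((Nat.coprime_primes (hP _ hq) (hP _ hq')).2 hqq)
  exact alg3 hcop2 hβ1 hβ2 (hR _ _ h3).2.2.2 (hR _ _ h4).2.2.2 (hR _ _ h2).2.2.2

end Pool.Agent.Helper16.NL
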