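import Pool.Agent.Helper16.NL.Comb
import Pool.Graph.R_pool_sql_team_seeded_1e53cb71.Helper44K9.FU.Ls

/-! The duality step: sequences correlating with the dilations of one sequence correlate with each other. -/

set_option autoImplicit false

namespace Pool.Agent.Helper16.NL

open Finset Topology
open Pool.Agent.Helper44K9.FN (pw cw)
open Pool.Agent.Helper44K9.FU.LsL (dual)

/-- the window of the pair -/
def hi (n H p q : ℕ) : ℕ := min ((n / p + H / p) / q) ((n / q + H / q) / p)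

/-- the correlation of `φ p (q m)` and `φ q (p m)` -/
noncomputable def Sw (φ : ℕ → ℕ → ℂ) (n H p q : ℕ) : ℝ :=
  ‖∑ m ∈ Ioc (n / (p * q)) (hi n H p q), φ p (q * m) * (starRingEnd ℂ) (φ q (p * m))‖

lemma hi_le (n H p q : ℕ) (hp : 0 < p) (hq : 0 < q) (h : p * q ≤ H) :
    ((hi n H p q - n / (p * q) : ℕ) : ℝ) ≤ 2 * (H / ((p : ℝ) * q)) := by
  have hpr : (0 : ℝ) < p := by exact_mod_cast hp
  have hqr : (0 : ℝ) < q := by exact_mod_cast hq
  have h1 : (hi n H p q : ℝ) ≤ (n + H) / ((p : ℝ) * q) := by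
    have h2 : hi n H p q ≤ (n / p + H / p) / q := min_le_left _ _
    have h3 : (n / p + H / p) / q * q ≤ n / p + H / p := Nat.div_mul_le_self _ _
    have h4 : n / p * p ≤ n := Nat.div_mul_le_self _ _
    have h5 : H / p * p ≤ H := Nat.div_mul_le_self _ _
    have h6 : hi n H p q * (p * q) ≤ n + H := by
      calc hi n H p q * (p * q) ≤ (n / p + H / p) / q * (p * q) := Nat.mul_le_mul_right _ h2
        _ = (n / p + H / p) / q * q * p := by ring
        _ ≤ (n / p + H / p) * p := Nat.mul_le_mul_right _ h3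
        _ ≤ n + H := by rw [add_mul]; omega
    rw [le_div_iff₀ (by positivity)]
    exact_mod_cast h6
  have h2 : (n : ℝ) / ((p : ℝ) * q) - 1 ≤ ((n / (p * q) : ℕ) : ℝ) := by
    have h3 : n < n / (p * q) * (p * q) + p * q := Nat.lt_div_mul_add (Nat.mul_pos hp hq)
    have h4 : (n : ℝ) < ((n / (p * q) : ℕ) : ℝ) * (p * q) + p * q := by exact_mod_cast h3
    rw [sub_le_iff_le_add, div_le_iff₀ (by positivity)]
    linarith
  have h3 : 1 ≤ (H : ℝ) / ((p : ℝ) * q) := by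
    rw [le_div_iff₀ (by positivity), one_mul]
    exact_mod_cast h
  rcases le_total (n / (p * q)) (hi n H p q) with h4 | h4
  · rw [Nat.cast_sub h4]
    have h5 : ((n : ℝ) + H) / (p * q) = n / (p * q) + H / (p * q) := add_div _ _ _
    linarith
  · rw [Nat.sub_eq_zero_of_le h4]
    push_cast
    positivity

lemma mem_win {n H p q m : ℕ} (hp : 0 < p) (hq : 0 < q) :
    m ∈ Ioc (n / (p * q)) (hi n H p q) ↔ q * m ∈ Ioc (n / p) (n / p + H / p) ∧ p * m ∈ Ioc (n / q) (n / q + H / q) := by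
  have h1 : n / (p * q) < m ↔ n / p < q * m := by
    rw [← Nat.div_div_eq_div_mul, Nat.div_lt_iff_lt_mul hq, mul_comm]
  have h2 : n / (p * q) < m ↔ n / q < p * m := by
    rw [mul_comm p q, ← Nat.div_div_eq_div_mul, Nat.div_lt_iff_lt_mul hp, mul_comm]
  have h3 : m ≤ hi n H p q ↔ q * m ≤ n / p + H / p ∧ p * m ≤ n / q + H / q := by
    unfold hi
    rw [le_min_iff, Nat.le_div_iff_mul_le hq, Nat.le_div_iff_mul_le hp, mul_comm m q, mul_comm m p]
  rw [mem_Ioc, mem_Ioc, mem_Ioc, h3]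
  constructor
  · rintro ⟨a, b, c⟩
    exact ⟨⟨h1.1 a, b⟩, ⟨h2.1 a, c⟩⟩
  · rintro ⟨⟨a, b⟩, c, d⟩
    exact ⟨h1.2 a, b, d⟩

open Classical in
/-- duality -/
theorem dual2 {P : Finset ℕ} (hP : ∀ p ∈ P, p.Prime) {δ : ℝ} (hδ : 0 < δ) {B : ℕ} (hB : ∀ p ∈ P, p ≤ B)
    (hX : 8 / δ ^ 2 ≤ ∑ p ∈ P, 1 / (p : ℝ)) {H : ℕ} (hH : 2 * B ≤ H) (hH2 : B * B ≤ H) (n : ℕ) {ψ : ℕ → ℂ}
    (hψ : ∀ m, ‖ψ m‖ ≤ 1) {φ : ℕ → ℕ → ℂ} (hφ : ∀ p m, ‖φ p m‖ ≤ 1)
    (h : ∀ p ∈ P, δ * ((H / p : ℕ) : ℝ) ≤ pw (φ p) (fun m => ψ (p * m)) (n / p) (H / p)) :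
    δ ^ 2 / 32 * (∑ p ∈ P, 1 / (p : ℝ)) ^ 2 ≤
      ∑ e ∈ (P ×ˢ P).filter (fun e => e.1 ≠ e.2 ∧ δ ^ 2 / 16 * (H / ((e.1 : ℝ) * e.2)) ≤ Sw φ n H e.1 e.2),
        1 / ((e.1 : ℝ) * e.2) := by
  set X : ℝ := ∑ p ∈ P, 1 / (p : ℝ) with hXd
  have hX0 : 0 < X := lt_of_lt_of_le (by positivity) hX
  have hpos : ∀ p ∈ P, (0 : ℝ) < p := fun p hp => by exact_mod_cast (hP p hp).pos
  -- the data
  set g : ℕ → ℕ → ℂ := fun p N => if p ∣ N ∧ N / p ∈ Ioc (n / p) (n / p + H / p) then φ p (N / p) else 0 with hg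
  set S : Finset ℕ := Ioc n (n + H) with hS
  set f : ℕ → ℂ := fun N => (starRingEnd ℂ) (ψ N) with hf
  have hf1 : ∀ N, ‖f N‖ ≤ 1 := fun N => by rw [hf]; simp only; rw [RCLike.norm_conj]; exact hψ N
  have hin : ∀ p ∈ P, ∀ m ∈ Ioc (n / p) (n / p + H / p), p * m ∈ S := by
    intro p hp m hm
    have hp0 := (hP p hp).pos
    rw [mem_Ioc] at hm
    rw [hS, mem_Ioc]
    refine ⟨?_, ?_⟩
    · have := (Nat.div_lt_iff_lt_mul hp0).1 hm.1
      rw [mul_comm]; exact this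
    · have h1 : p * m ≤ p * (n / p + H / p) := Nat.mul_le_mul_left _ hm.2
      have h2 : p * (n / p) ≤ n := Nat.mul_div_le _ _
      have h3 : p * (H / p) ≤ H := Nat.mul_div_le _ _
      rw [mul_add] at h1
      omega
  have hW : ∀ p ∈ P, ∑ N ∈ S, f N * g p N = ∑ m ∈ Ioc (n / p) (n / p + H / p), φ p m * (starRingEnd ℂ) (ψ (p * m)) := by
    intro p hp
    have hp0 := (hP p hp).pos
    rw [← sum_filter_add_sum_filter_not S (fun N => p ∣ N ∧ N / p ∈ Ioc (n / p) (n / p + H / p))]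
    have h0 : ∑ N ∈ S.filter (fun N => ¬ (p ∣ N ∧ N / p ∈ Ioc (n / p) (n / p + H / p))), f N * g p N = 0 := by
      refine sum_eq_zero fun N hN => ?_
      simp only [hg]
      rw [if_neg (mem_filter.1 hN).2, mul_zero]
    rw [h0, add_zero]
    symm
    refine sum_bij (fun m _ => p * m) ?_ ?_ ?_ ?_
    · intro m hm
      rw [mem_filter]
      refine ⟨hin p hp m hm, Dvd.intro _ rfl, ?_⟩
      rw [Nat.mul_div_cancel_left _ hp0]
      exact hm
    · intro m _ m' _ h1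
      exact Nat.eq_of_mul_eq_mul_left hp0 h1
    · intro N hN
      rw [mem_filter] at hN
      exact ⟨N / p, hN.2.2, Nat.mul_div_cancel' hN.2.1⟩
    · intro m hm
      simp only [hg, hf]
      rw [if_pos ⟨Dvd.intro _ rfl, by rw [Nat.mul_div_cancel_left _ hp0]; exact hm⟩, Nat.mul_div_cancel_left _ hp0,
        mul_comm]
  -- the coefficients
  have hc : ∀ p : ℕ, ∃ c : ℂ, ‖c‖ ≤ 1 ∧ c * ∑ m ∈ Ioc (n / p) (n / p + H / p), φ p m * (starRingEnd ℂ) (ψ (p * m)) =
      (pw (φ p) (fun m => ψ (p * m)) (n / p) (H / p) : ℝ) := by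
    intro p
    set w := ∑ m ∈ Ioc (n / p) (n / p + H / p), φ p m * (starRingEnd ℂ) (ψ (p * m)) with hw
    have h1 : pw (φ p) (fun m => ψ (p * m)) (n / p) (H / p) = ‖w‖ := rfl
    rw [h1]
    by_cases h0 : w = 0
    · exact ⟨0, by simp, by rw [h0]; simp⟩
    · have h2 : ‖w‖ ≠ 0 := norm_ne_zero_iff.2 h0
      refine ⟨(starRingEnd ℂ) w / ‖w‖, ?_, ?_⟩
      · rw [norm_div, RCLike.norm_conj, Complex.norm_real, norm_norm, div_self h2]
      · rw [div_mul_eq_mul_div, mul_comm ((starRingEnd ℂ) w), Complex.mul_conj', sq, mul_div_assoc,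
          div_self (by exact_mod_cast h2), mul_one]
  choose c hc1 hc2 using hc
  have h1 := dual P S g f c hf1
  have h2 : ∑ p ∈ P, c p * ∑ m ∈ S, f m * g p m = ((∑ p ∈ P, pw (φ p) (fun m => ψ (p * m)) (n / p) (H / p) : ℝ) : ℂ) := by
    push_cast
    refine sum_congr rfl fun p hp => ?_
    rw [hW p hp, hc2]
  have h3 : δ * H * X / 2 ≤ ∑ p ∈ P, pw (φ p) (fun m => ψ (p * m)) (n / p) (H / p) := by
    have h4 : δ * H * X / 2 = ∑ p ∈ P, δ * (H / p / 2) := by
      rw [hXd, mul_sum, sum_div]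
      exact sum_congr rfl fun p _ => by ring
    rw [h4]
    refine sum_le_sum fun p hp => ?_
    refine le_trans ?_ (h p hp)
    refine mul_le_mul_of_nonneg_left ?_ hδ.le
    have h5 : H < H / p * p + p := Nat.lt_div_mul_add (hP p hp).pos
    have h6 : (H : ℝ) < ((H / p : ℕ) : ℝ) * p + p := by exact_mod_cast h5
    have h7 : 2 * (p : ℝ) ≤ H := by
      have : 2 * p ≤ H := (Nat.mul_le_mul_left 2 (hB p hp)).trans hH
      exact_mod_cast this
    have hp0 := hpos p hp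
    rw [div_div, div_le_iff₀ (by positivity)]
    nlinarith
  have hnn : 0 ≤ ∑ p ∈ P, pw (φ p) (fun m => ψ (p * m)) (n / p) (H / p) := sum_nonneg fun p _ => norm_nonneg _
  have hcard : #S = H := by rw [hS, Nat.card_Ioc]; omega
  rw [h2, Complex.norm_real, Real.norm_of_nonneg hnn, hcard] at h1
  -- the diagonal and the other terms
  have hdiag : ∀ p ∈ P, ‖∑ m ∈ S, g p m * (starRingEnd ℂ) (g p m)‖ ≤ H / p := by
    intro p hp
    have hp0 := (hP p hp).pos
    have hnat : ((H / p : ℕ) : ℝ) ≤ (H : ℝ) / p := Nat.cast_div_le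
    refine le_trans ?_ hnat
    have h4 : ∑ N ∈ S, g p N * (starRingEnd ℂ) (g p N) =
        ∑ m ∈ Ioc (n / p) (n / p + H / p), φ p m * (starRingEnd ℂ) (φ p m) := by
      rw [← sum_filter_add_sum_filter_not S (fun N => p ∣ N ∧ N / p ∈ Ioc (n / p) (n / p + H / p))]
      have h0 : ∑ N ∈ S.filter (fun N => ¬ (p ∣ N ∧ N / p ∈ Ioc (n / p) (n / p + H / p))), g p N * (starRingEnd ℂ) (g p N) = 0 := by
        refine sum_eq_zero fun N hN => ?_
        simp only [hg]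
        rw [if_neg (mem_filter.1 hN).2, zero_mul]
      rw [h0, add_zero]
      symm
      refine sum_bij (fun m _ => p * m) ?_ ?_ ?_ ?_
      · intro m hm
        rw [mem_filter]
        refine ⟨hin p hp m hm, Dvd.intro _ rfl, ?_⟩
        rw [Nat.mul_div_cancel_left _ hp0]
        exact hm
      · intro m _ m' _ h1
        exact Nat.eq_of_mul_eq_mul_left hp0 h1
      · intro N hN
        rw [mem_filter] at hN
        exact ⟨N / p, hN.2.2, Nat.mul_div_cancel' hN.2.1⟩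
      · intro m hm
        simp only [hg]
        rw [if_pos ⟨Dvd.intro _ rfl, by rw [Nat.mul_div_cancel_left _ hp0]; exact hm⟩, Nat.mul_div_cancel_left _ hp0]
    rw [h4]
    refine (norm_sum_le _ _).trans ?_
    calc ∑ m ∈ Ioc (n / p) (n / p + H / p), ‖φ p m * (starRingEnd ℂ) (φ p m)‖ ≤
        ∑ m ∈ Ioc (n / p) (n / p + H / p), (1 : ℝ) := by
          refine sum_le_sum fun m _ => ?_
          rw [norm_mul, RCLike.norm_conj]
          exact mul_le_one₀ (hφ _ _) (norm_nonneg _) (hφ _ _)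
      _ = ((H / p : ℕ) : ℝ) := by simp
  have hoff : ∀ p ∈ P, ∀ q ∈ P, p ≠ q → ‖∑ m ∈ S, g p m * (starRingEnd ℂ) (g q m)‖ = Sw φ n H p q := by
    intro p hp q hq hpq
    have hp0 := (hP p hp).pos
    have hq0 := (hP q hq).pos
    have hcop : p.Coprime q := (Nat.coprime_primes (hP _ hp) (hP _ hq)).2 hpq
    unfold Sw
    congr 1
    rw [← sum_filter_add_sum_filter_not S (fun N => (p ∣ N ∧ N / p ∈ Ioc (n / p) (n / p + H / p)) ∧
      (q ∣ N ∧ N / q ∈ Ioc (n / q) (n / q + H / q)))]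
    have h0 : ∑ N ∈ S.filter (fun N => ¬ ((p ∣ N ∧ N / p ∈ Ioc (n / p) (n / p + H / p)) ∧
        (q ∣ N ∧ N / q ∈ Ioc (n / q) (n / q + H / q)))), g p N * (starRingEnd ℂ) (g q N) = 0 := by
      refine sum_eq_zero fun N hN => ?_
      have h4 := (mem_filter.1 hN).2
      rw [not_and_or] at h4
      simp only [hg]
      rcases h4 with h4 | h4
      · rw [if_neg h4, zero_mul]
      · rw [if_neg h4, map_zero, mul_zero]
    rw [h0, add_zero]
    symm
    refine sum_bij (fun m _ => p * q * m) ?_ ?_ ?_ ?_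
    · intro m hm
      rw [mem_win hp0 hq0] at hm
      rw [mem_filter]
      have e1 : p * q * m = p * (q * m) := by ring
      have e2 : p * q * m = q * (p * m) := by ring
      refine ⟨by rw [e1]; exact hin p hp _ hm.1, ⟨by rw [e1]; exact Dvd.intro _ rfl, ?_⟩, by rw [e2]; exact Dvd.intro _ rfl, ?_⟩
      · rw [e1, Nat.mul_div_cancel_left _ hp0]; exact hm.1
      · rw [e2, Nat.mul_div_cancel_left _ hq0]; exact hm.2
    · intro m _ m' _ h1
      exact Nat.eq_of_mul_eq_mul_left (Nat.mul_pos hp0 hq0) h1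
    · intro N hN
      rw [mem_filter] at hN
      obtain ⟨_, ⟨h5, h6⟩, h7, h8⟩ := hN
      have h9 : p * q ∣ N := hcop.mul_dvd_of_dvd_of_dvd h5 h7
      obtain ⟨m, rfl⟩ := h9
      refine ⟨m, ?_, rfl⟩
      rw [mem_win hp0 hq0]
      have e1 : p * q * m = p * (q * m) := by ring
      have e2 : p * q * m = q * (p * m) := by ring
      rw [e1, Nat.mul_div_cancel_left _ hp0] at h6
      rw [e2, Nat.mul_div_cancel_left _ hq0] at h8
      exact ⟨h6, h8⟩
    · intro m hm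
      rw [mem_win hp0 hq0] at hm
      have e1 : p * q * m = p * (q * m) := by ring
      have e2 : p * q * m = q * (p * m) := by ring
      have e3 : p * q * m / p = q * m := by rw [e1, Nat.mul_div_cancel_left _ hp0]
      have e4 : p * q * m / q = p * m := by rw [e2, Nat.mul_div_cancel_left _ hq0]
      simp only [hg]
      rw [e3, e4, if_pos ⟨by rw [e1]; exact Dvd.intro _ rfl, hm.1⟩, if_pos ⟨by rw [e2]; exact Dvd.intro _ rfl, hm.2⟩]
  have hSle : ∀ p ∈ P, ∀ q ∈ P, Sw φ n H p q ≤ 2 * (H / ((p : ℝ) * q)) := by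
    intro p hp q hq
    have hp0 := (hP p hp).pos
    have hq0 := (hP q hq).pos
    refine le_trans ?_ (hi_le n H p q hp0 hq0 ((Nat.mul_le_mul (hB p hp) (hB q hq)).trans hH2))
    unfold Sw
    refine (norm_sum_le _ _).trans ?_
    calc ∑ m ∈ Ioc (n / (p * q)) (hi n H p q), ‖φ p (q * m) * (starRingEnd ℂ) (φ q (p * m))‖ ≤
        ∑ m ∈ Ioc (n / (p * q)) (hi n H p q), (1 : ℝ) := by
          refine sum_le_sum fun m _ => ?_
          rw [norm_mul, RCLike.norm_conj]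
          exact mul_le_one₀ (hφ _ _) (norm_nonneg _) (hφ _ _)
      _ = _ := by simp
  have h4 : ∑ p ∈ P, ∑ q ∈ P, ‖c p‖ * ‖c q‖ * ‖∑ m ∈ S, g p m * (starRingEnd ℂ) (g q m)‖ ≤
      ∑ p ∈ P, ((H : ℝ) / p + ∑ q ∈ P.filter (fun q => p ≠ q), Sw φ n H p q) := by
    refine sum_le_sum fun p hp => ?_
    have h5 : ∀ q ∈ P, ‖c p‖ * ‖c q‖ * ‖∑ m ∈ S, g p m * (starRingEnd ℂ) (g q m)‖ ≤
        ‖∑ m ∈ S, g p m * (starRingEnd ℂ) (g q m)‖ := by
      intro q _
      exact mul_le_of_le_one_left (norm_nonneg _) (mul_le_one₀ (hc1 p) (norm_nonneg _) (hc1 q))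
    refine (sum_le_sum h5).trans ?_
    rw [← add_sum_erase P _ hp]
    refine add_le_add (hdiag p hp) ?_
    rw [show P.erase p = P.filter (fun q => p ≠ q) by ext q; rw [mem_erase, mem_filter]; tauto]
    refine le_of_eq (sum_congr rfl fun q hq => ?_)
    rw [mem_filter] at hq
    exact hoff p hp q hq.1 hq.2
  set Q := (P ×ˢ P).filter (fun e => e.1 ≠ e.2 ∧ δ ^ 2 / 16 * (H / ((e.1 : ℝ) * e.2)) ≤ Sw φ n H e.1 e.2) with hQ
  have h5 : ∑ p ∈ P, ∑ q ∈ P.filter (fun q => p ≠ q), Sw φ n H p q ≤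
      2 * H * ∑ e ∈ Q, 1 / ((e.1 : ℝ) * e.2) + δ ^ 2 / 16 * H * X ^ 2 := by
    have h6 : ∑ p ∈ P, ∑ q ∈ P.filter (fun q => p ≠ q), Sw φ n H p q =
        ∑ e ∈ (P ×ˢ P).filter (fun e => e.1 ≠ e.2), Sw φ n H e.1 e.2 := by
      rw [sum_filter, sum_product]
      exact sum_congr rfl fun p _ => by rw [sum_filter]
    have h7 : Q = ((P ×ˢ P).filter (fun e => e.1 ≠ e.2)).filter
        (fun e => δ ^ 2 / 16 * (H / ((e.1 : ℝ) * e.2)) ≤ Sw φ n H e.1 e.2) := by
      rw [hQ, filter_filter]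
    rw [h6, ← sum_filter_add_sum_filter_not _ (fun e => δ ^ 2 / 16 * (H / ((e.1 : ℝ) * e.2)) ≤ Sw φ n H e.1 e.2), ← h7]
    refine add_le_add ?_ ?_
    · rw [mul_sum]
      refine sum_le_sum fun e he => ?_
      rw [hQ, mem_filter, mem_product] at he
      refine (hSle _ he.1.1 _ he.1.2).trans (le_of_eq ?_)
      ring
    · calc _ ≤ ∑ e ∈ ((P ×ˢ P).filter (fun e => e.1 ≠ e.2)).filter
            (fun e => ¬ δ ^ 2 / 16 * (H / ((e.1 : ℝ) * e.2)) ≤ Sw φ n H e.1 e.2), δ ^ 2 / 16 * (H / ((e.1 : ℝ) * e.2)) :=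
            sum_le_sum fun e he => (not_le.1 (mem_filter.1 he).2).le
        _ ≤ ∑ e ∈ P ×ˢ P, δ ^ 2 / 16 * (H / ((e.1 : ℝ) * e.2)) :=
            sum_le_sum_of_subset_of_nonneg ((filter_subset _ _).trans (filter_subset _ _)) fun _ _ _ => by positivity
        _ = δ ^ 2 / 16 * H * X ^ 2 := by
            rw [sum_product, sq X, hXd, sum_mul_sum, mul_sum]
            refine sum_congr rfl fun p _ => ?_
            rw [mul_sum]
            refine sum_congr rfl fun q _ => ?_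
            rw [one_div_mul_one_div]
            ring
  have h6 : ∑ p ∈ P, (H : ℝ) / p = H * X := by
    rw [hXd, mul_sum]
    exact sum_congr rfl fun p _ => by ring
  rw [sum_add_distrib, h6] at h4
  have h7 : (δ * H * X / 2) ^ 2 ≤ H * (H * X + (2 * H * ∑ e ∈ Q, 1 / ((e.1 : ℝ) * e.2) + δ ^ 2 / 16 * H * X ^ 2)) := by
    calc (δ * H * X / 2) ^ 2 ≤ (∑ p ∈ P, pw (φ p) (fun m => ψ (p * m)) (n / p) (H / p)) ^ 2 :=
          pow_le_pow_left₀ (by positivity) h3 2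
      _ ≤ _ := h1
      _ ≤ _ := mul_le_mul_of_nonneg_left (h4.trans (by linarith)) (Nat.cast_nonneg _)
  have hHpos : (0 : ℝ) < H := by
    have hPne : P.Nonempty := by
      by_contra h0
      rw [not_nonempty_iff_eq_empty] at h0
      rw [hXd, h0, sum_empty] at hX0
      exact lt_irrefl _ hX0
    obtain ⟨p, hp⟩ := hPne
    have h8 := (hP p hp).pos
    have h9 := hB p hp
    have : 0 < H := by omega
    exact_mod_cast this
  have h8 : 8 ≤ δ ^ 2 * X := by
    rw [div_le_iff₀ (by positivity)] at hX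
    linarith
  have h9 : H ^ 2 * (δ ^ 2 / 32 * X ^ 2) ≤ (H : ℝ) ^ 2 * ∑ e ∈ Q, 1 / ((e.1 : ℝ) * e.2) := by
    have h10 : (0 : ℝ) ≤ H ^ 2 * X * (δ ^ 2 * X - 8) := by
      have : 0 ≤ δ ^ 2 * X - 8 := by linarith
      positivity
    nlinarith
  exact le_of_mul_le_mul_left h9 (by positivity)

end Pool.Agent.Helper16.NL
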