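import Pool.Graph.R_pool_sql_team_seeded_1e53cb71.Helper44K9.FN.Abs
import Pool.Graph.R_pool_sql_team_seeded_1e53cb71.Helper44K9.FN.Besa
import Pool.Graph.R_pool_sql_team_seeded_1e53cb71.Helper44K9.FN.Fina
import Pool.Graph.R_pool_sql_team_seeded_1e53cb71.Helper44K9.FN.Kata
import Pool.Graph.R_pool_sql_team_seeded_1e53cb71.Helper44K9.FU.Dil
import Pool.Graph.R_pool_sql_team_seeded_1e53cb71.Helper44K9.FU.Pig
import Pool.Graph.R_pool_sql_team_seeded_1e53cb71.Helper44K9.FU.Sub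
import Pool.Graph.R_pool_sql_team_seeded_1e53cb71.Helper44K9.FU.Tk

/-! The list method for abstract classes of sequences, with explicit parameters (the proofs are those of the modules
Abs and Fina of the library, which state the result for classes which satisfy the condition for all parameters). -/

set_option autoImplicit false

namespace Pool.Agent.Helper16.NL

open Finset MeasureTheory Polynomial
open Pool.Agent.H807R2.Dav (ee)
open Pool.Agent.Helper44K9.FU (Mul1 MM S_TK S_EQ S_DIL S_PIG S_SUB)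
open Pool.Agent.Helper44K9.FU.ML
open Pool.Agent.Helper44K9.FN

open Classical in
/-- the condition on the target `T` and the class `C`, for fixed parameters -/
def EQ1 (δ c : ℝ) (C T : Set (ℕ → ℂ)) : Prop := ∀ (z : ℕ) (A : ℝ), ∃ I : Finset ℕ,
  (∀ p ∈ I, p.Prime ∧ z < p) ∧ A ≤ ∑ p ∈ I, 1 / (p : ℝ) ∧ ∃ H₀ : ℕ, ∀ H ≥ H₀, ∀ (n : ℕ), ∀ ψ ∈ C,
    ∑ p ∈ I.filter (fun p : ℕ => ∃ φ ∈ T, δ * ((H / p : ℕ) : ℝ) ≤ pw φ (fun m => ψ (p * m)) (n / p) (H / p)),
      1 / (p : ℝ) ≤ c * ∑ p ∈ I, 1 / (p : ℝ)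

open Classical in
/-- the list method with explicit parameters -/
theorem abs1 (hBES : S_BESA) (hPUSH : S_PUSHA) (hPAIR : S_PAIRP) (hDIL : S_DIL) (hPIG : S_PIG) :
    ∀ ε : ℝ, 0 < ε → ∃ c : ℝ, 0 < c ∧ ∀ C T : Set (ℕ → ℂ), Clos C → T ⊆ C → EQ1 (ε ^ 2 / 32) c C T →
    ∃ H₁ H₂ N₀ : ℕ, 1 ≤ H₁ ∧
    ∀ N ≥ N₀, ∀ f : ℕ → ℂ, Mul1 f → ∃ H ∈ Ico H₁ H₂, ∑ n ∈ Icc 1 N, (1 / (n : ℝ)) *
    (if ∃ φ ∈ T, ε * H ≤ cw f φ n H then 1 else 0) ≤ ε * ∑ n ∈ Icc 1 N, 1 / (n : ℝ) := by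
  intro ε hε
  obtain ⟨R, hB⟩ := hBES (ε / 2) (by positivity)
  -- the number of levels
  obtain ⟨J, hJ1, hJ⟩ : ∃ J : ℕ, 1 ≤ J ∧ (R : ℝ) / J ≤ ε / 8 := by
    obtain ⟨J, hJ⟩ := exists_nat_ge (8 * R / ε)
    refine ⟨J + 1, by omega, ?_⟩
    have h1 : (0 : ℝ) < ((J + 1 : ℕ) : ℝ) := by positivity
    rw [div_le_iff₀ h1]
    rw [div_le_iff₀ hε] at hJ
    push_cast
    nlinarith
  have hJr : (0 : ℝ) < J := by exact_mod_cast hJ1
  set η : ℝ := ε / (2 * J) with hη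
  have hη0 : 0 < η := by positivity
  set η₂ : ℝ := ε ^ 2 / (32 * J) with hη₂
  have hη₂0 : 0 < η₂ := by positivity
  set t : ℕ → ℝ := fun j => ε - j * η with ht
  have ht_le : ∀ j ≤ J, ε / 2 ≤ t j := by
    intro j hj
    have h1 : (j : ℝ) * η ≤ J * η := mul_le_mul_of_nonneg_right (by exact_mod_cast hj) hη0.le
    have h2 : (J : ℝ) * η = ε / 2 := by rw [hη]; field_simp
    simp only [ht]
    linarith
  have ht_step : ∀ j, t j - η = t (j + 1) := by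
    intro j; simp only [ht]; push_cast; ring
  have ht_mono : ∀ j, t j ≤ ε := by
    intro j
    have : 0 ≤ (j : ℝ) * η := by positivity
    simp only [ht]; linarith
  set D : ℕ → ℝ := fun j => ε ^ 2 / 32 + j * η₂ with hD
  have hD_step : ∀ j, D j + η₂ = D (j + 1) := by
    intro j; simp only [hD]; push_cast; ring
  have hD_ge : ∀ j, ε ^ 2 / 32 ≤ D j := by
    intro j
    have : 0 ≤ (j : ℝ) * η₂ := by positivity
    simp only [hD]; linarith
  have hD_le : ∀ j ≤ J, D j ≤ (ε / 2) ^ 2 / 4 := by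
    intro j hj
    have h1 : (j : ℝ) * η₂ ≤ J * η₂ := mul_le_mul_of_nonneg_right (by exact_mod_cast hj) hη₂0.le
    have h2 : (J : ℝ) * η₂ = ε ^ 2 / 32 := by rw [hη₂]; field_simp
    simp only [hD]
    linarith
  set δ₀ : ℝ := ε ^ 2 / 32 with hδ₀
  have hδ₀0 : 0 < δ₀ := by positivity
  set c : ℝ := ε / (8 * (R + 1)) with hc
  have hc0 : 0 < c := by positivity
  refine ⟨c, hc0, fun C T hC hTC hEQ => ?_⟩
  -- the primes
  set κ₀ : ℝ := R * (100 / η ^ 2) + (R : ℝ) ^ 2 * (100 / η₂ ^ 2) with hκ₀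
  have hκ₀0 : 0 ≤ κ₀ := by positivity
  obtain ⟨I, hIp, hIA, HE, hEQ'⟩ := hEQ (⌈8 / η⌉₊ + ⌈8 / η₂⌉₊) (8 * (R + 2) * κ₀ / ε + 1)
  set L : ℝ := ∑ p ∈ I, 1 / (p : ℝ) with hL
  have hL0 : 0 < L := by
    have : 0 ≤ 8 * (R + 2) * κ₀ / ε := by positivity
    linarith
  set w : ℕ → ℝ := fun p => (1 / (p : ℝ)) / L with hw
  have hw0 : ∀ p ∈ I, 0 ≤ w p := fun p _ => by simp only [hw]; positivity
  have hw1 : ∑ p ∈ I, w p = 1 := by
    simp only [hw]
    rw [← sum_div, ← hL, div_self hL0.ne']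
  have hwsum : ∀ (s : Finset ℕ) (x : ℝ), ∑ p ∈ s, 1 / (p : ℝ) ≤ x → ∑ p ∈ s, w p ≤ x / L := by
    intro s x hx
    simp only [hw]
    rw [← sum_div]
    exact div_le_div_of_nonneg_right hx hL0.le
  set κ : ℝ := κ₀ / L with hκ
  have hκ0 : 0 ≤ κ := by positivity
  have hκ1 : (R + 2) * κ ≤ ε / 8 := by
    have h1 : 8 * (R + 2) * κ₀ / ε ≤ L := by linarith
    rw [div_le_iff₀ hε] at h1
    rw [hκ, mul_div_assoc', div_le_iff₀ hL0]
    linarith
  obtain ⟨B, hB'⟩ : ∃ B : ℕ, ∀ p ∈ I, p ≤ B := ⟨I.sup id, fun p hp => le_sup (f := id) hp⟩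
  have hIprime : ∀ p ∈ I, p.Prime := fun p hp => (hIp p hp).1
  obtain ⟨HP, hHP⟩ := hPUSH I η hη0 (fun p hp => ⟨hIprime p hp, by
    have h1 := (hIp p hp).2
    have h2 : ⌈8 / η⌉₊ ≤ p := by omega
    exact (Nat.le_ceil _).trans (by exact_mod_cast h2)⟩)
  obtain ⟨HQ, hHQ⟩ := hPAIR I η₂ hη₂0 (fun p hp => ⟨hIprime p hp, by
    have h1 := (hIp p hp).2
    have h2 : ⌈8 / η₂⌉₊ ≤ p := by omega
    exact (Nat.le_ceil _).trans (by exact_mod_cast h2)⟩)
  -- the scales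
  set H₁ : ℕ := HP + HQ + HE + 2 * B + 1 with hH₁
  set Er : ℝ := (R + 1) * (4 + 2 * Real.log (B + 1)) with hEr
  have hlogB : 0 ≤ Real.log ((B : ℝ) + 1) := Real.log_nonneg (by
    have : (0 : ℝ) ≤ B := Nat.cast_nonneg _
    linarith)
  have hEr0 : 0 < Er := by positivity
  set Λ : ℝ := 32 * Er / ε with hΛ
  have hΛ0 : 0 < Λ := by positivity
  have hdiv := Real.tendsto_sum_range_one_div_nat_succ_atTop
  obtain ⟨H₂, hH₂, hH₂Λ⟩ : ∃ H₂ : ℕ, H₁ ≤ H₂ ∧ Λ ≤ ∑ H ∈ Ico H₁ H₂, 1 / (H : ℝ) := by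
    obtain ⟨M', hM'⟩ := (hdiv.eventually_ge_atTop (Λ + ∑ k ∈ range H₁, 1 / ((k : ℝ)))).exists
    refine ⟨max H₁ (M' + 1), le_max_left _ _, ?_⟩
    have h2 : ∑ i ∈ range M', 1 / ((i : ℝ) + 1) = ∑ k ∈ range (M' + 1), 1 / (k : ℝ) := by
      rw [sum_range_succ' (fun k : ℕ => 1 / (k : ℝ)) M']
      push_cast; simp
    rw [h2] at hM'
    have h3 : ∑ k ∈ range (M' + 1), 1 / (k : ℝ) ≤ ∑ k ∈ range (max H₁ (M' + 1)), 1 / (k : ℝ) :=
      sum_le_sum_of_subset_of_nonneg (range_subset_range.2 (le_max_right _ _)) fun _ _ _ => by positivity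
    rw [sum_Ico_eq_sub _ (le_max_left _ _)]
    linarith
  obtain ⟨N₀, hN₀⟩ : ∃ N₀ : ℕ, ∀ N ≥ N₀, Λ ≤ ∑ n ∈ Icc 1 N, 1 / (n : ℝ) := by
    obtain ⟨N₀, hN₀⟩ := Filter.eventually_atTop.1 (hdiv.eventually_ge_atTop Λ)
    refine ⟨N₀, fun N hN => ?_⟩
    have h1 := hN₀ N hN
    have h2 : ∑ n ∈ Icc 1 N, 1 / (n : ℝ) = ∑ i ∈ range N, 1 / ((i : ℝ) + 1) := by
      rw [← Finset.Ico_succ_right_eq_Icc, sum_Ico_eq_sum_range]
      refine sum_congr (by simp) fun i _ => ?_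
      push_cast; rw [add_comm (1 : ℝ)]
    rw [h2]; exact h1
  refine ⟨H₁, H₂, N₀, by omega, fun N hN f hf => ?_⟩
  have hhN := hN₀ N hN
  set hn : ℝ := ∑ n ∈ Icc 1 N, 1 / (n : ℝ) with hhn
  set ℓ : ℝ := ∑ H ∈ Ico H₁ H₂, 1 / (H : ℝ) with hℓ
  set er : ℝ := Er * (ℓ + hn) with her
  have hmass : MM H₁ H₂ N (fun _ _ => 1) = ℓ * hn := MM_one H₁ H₂ N
  have hℓ0 : 0 < ℓ := lt_of_lt_of_le hΛ0 hH₂Λ
  have hhn0 : 0 < hn := lt_of_lt_of_le hΛ0 hhN
  have hm0 : 0 < ℓ * hn := by positivity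
  have herm : er ≤ ε / 16 * (ℓ * hn) := by
    have h1 : Er * ℓ ≤ ε / 32 * (ℓ * hn) := by
      have h2 : 32 * Er ≤ hn * ε := by rw [hΛ, div_le_iff₀ hε] at hhN; exact hhN
      exact br1 hℓ0.le h2
    have h1' : Er * hn ≤ ε / 32 * (ℓ * hn) := by
      have h2 : 32 * Er ≤ ℓ * ε := by rw [hΛ, div_le_iff₀ hε] at hH₂Λ; exact hH₂Λ
      exact br2 hhn0.le h2
    rw [her, mul_add]; linarith
  -- bounds for primes and scales
  have hscale : ∀ p ∈ I, ∀ H ∈ Ico H₁ H₂, 1 ≤ H / p := by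
    intro p hp H hH
    have hpB := hB' p hp
    have hp0 := (hIprime p hp).pos
    rw [mem_Ico] at hH
    rw [Nat.le_div_iff_mul_le hp0]
    omega
  -- the ranks
  set r : ℕ → ℕ → ℕ → ℕ := fun j n H => if j ≤ J then rk C f (D j) (t j) n H else 0 with hr
  have hLR : ∀ j ≤ J, ∀ n H, 1 ≤ H → ∀ s, Lt C f (D j) (t j) n H s → s ≤ R := by
    rintro j hj n H hH s ⟨ψ, h1, h2, h3⟩
    refine hB f hf.1 n H s ψ hH (fun i => hC.1 _ (h1 i)) (fun i => ?_) fun i i' hi => ?_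
    · exact (mul_le_mul_of_nonneg_right (ht_le j hj) (Nat.cast_nonneg _)).trans (h2 i)
    · exact (h3 i i' hi).le.trans (mul_le_mul_of_nonneg_right (hD_le j hj) (Nat.cast_nonneg _))
  have hrR : ∀ j n H, r j n H ≤ R := by
    intro j n H
    simp only [hr]
    split_ifs with hj
    · exact rk_le (hLR j hj n H)
    · exact Nat.zero_le _
  have hDILr : ∀ (F : ℕ → ℕ → ℝ), (∀ n H, 0 ≤ F n H ∧ F n H ≤ R + 1) → ∀ p ∈ I,
      MM H₁ H₂ N (fun n H => F (n / p) (H / p)) ≤ MM H₁ H₂ N F + er := by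
    intro F hF p hp
    have hpB := hB' p hp
    have hp1 := (hIprime p hp).one_le
    refine (hDIL p H₁ H₂ N (R + 1) F hp1 (by omega) hH₂ hF).trans ?_
    have h1 : Real.log p ≤ Real.log (B + 1) := Real.log_le_log (by exact_mod_cast hp1) (by
      have : (p : ℝ) ≤ B := by exact_mod_cast hpB
      linarith)
    have h2 : ((R : ℝ) + 1) * (4 + 2 * Real.log p) * (ℓ + hn) ≤ er := by
      rw [her, hEr]
      gcongr
    linarith
  -- the data at (n, H)
  have hdata : ∀ j < J, ∀ H ∈ Ico H₁ H₂, ∀ n : ℕ, ∃ ψ : Fin (r j n H) → ℕ → ℂ, (∀ i, ψ i ∈ C) ∧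
      ∑ p ∈ I.filter (fun p => ¬ ((∀ i, t (j + 1) * ((H / p : ℕ) : ℝ) ≤ cw f (dl p (ψ i)) (n / p) (H / p)) ∧
        ∀ i i', i ≠ i' → pw (dl p (ψ i)) (dl p (ψ i')) (n / p) (H / p) < D (j + 1) * ((H / p : ℕ) : ℝ))),
        1 / (p : ℝ) ≤ κ₀ := by
    intro j hj H hH n
    have hH' := mem_Ico.1 hH
    have hH1 : 1 ≤ H := by omega
    have h1 := (rk_spec hH1 (hLR j hj.le n H hH1)).1
    have h2 : r j n H = rk C f (D j) (t j) n H := by simp only [hr]; rw [if_pos hj.le]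
    rw [← h2] at h1
    obtain ⟨ψ, hψC, hψt, hψr⟩ := h1
    refine ⟨ψ, hψC, ?_⟩
    have h3 := exc_bound (R := R) (I := I) (η := η) (η₂ := η₂) (t := t j) (δ := D j) (f := f) (n := n) (H := H)
      (ψ := ψ) (hrR j n H) (by omega) (fun p hp => hscale p hp H hH) hψt hψr
      (fun i => hHP H (by omega) f hf (ψ i) (hC.1 _ (hψC i)) n)
      (fun i i' => hHQ H (by omega) (ψ i) (ψ i') (hC.1 _ (hψC i)) (hC.1 _ (hψC i')) n)
    rw [ht_step, hD_step] at h3
    exact h3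
  -- saturation
  have hsat : ∀ j < J, ∀ H ∈ Ico H₁ H₂, ∀ n : ℕ, ∀ p ∈ I, ∀ ψ : Fin (r j n H) → ℕ → ℂ,
      (∀ i, ψ i ∈ C) →
      ((∀ i, t (j + 1) * ((H / p : ℕ) : ℝ) ≤ cw f (dl p (ψ i)) (n / p) (H / p)) ∧
        ∀ i i', i ≠ i' → pw (dl p (ψ i)) (dl p (ψ i')) (n / p) (H / p) < D (j + 1) * ((H / p : ℕ) : ℝ)) →
      r j n H ≤ r (j + 1) (n / p) (H / p) ∧ (r (j + 1) (n / p) (H / p) = r j n H → ∀ φ ∈ C,
        t (j + 1) * ((H / p : ℕ) : ℝ) ≤ cw f φ (n / p) (H / p) →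
        ∃ i, D (j + 1) * ((H / p : ℕ) : ℝ) ≤ pw φ (dl p (ψ i)) (n / p) (H / p)) := by
    intro j hj H hH n p hp ψ hψC hg
    have h1 := hscale p hp H hH
    have h2 : r (j + 1) (n / p) (H / p) = rk C f (D (j + 1)) (t (j + 1)) (n / p) (H / p) := by
      simp only [hr]; rw [if_pos (by omega : j + 1 ≤ J)]
    rw [h2]
    exact saturated hC h1 (hLR (j + 1) (by omega) (n / p) (H / p) h1) hψC hg.1 hg.2
  -- pigeonhole
  obtain ⟨j, hj, hpig⟩ := hPIG I w hw0 hw1 J R H₁ H₂ N κ er r hJ1 hrR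
    (fun j _ p hp => hDILr (fun n H => (r (j + 1) n H : ℝ)) (fun n H => ⟨Nat.cast_nonneg _, by
      have : (r (j + 1) n H : ℝ) ≤ R := by exact_mod_cast hrR (j + 1) n H
      linarith⟩) p hp)
    (fun j hj H hH n _ => by
      obtain ⟨ψ, hψC, hexc⟩ := hdata j hj H hH n
      refine le_trans (sum_le_sum_of_subset_of_nonneg ?_ fun p hp _ => hw0 p (mem_filter.1 hp).1) (hwsum _ κ₀ hexc)
      intro p hp
      rw [mem_filter] at hp ⊢
      refine ⟨hp.1, fun hg => ?_⟩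
      have := (hsat j hj H hH n p hp.1 ψ hψC hg).1
      omega)
  -- the indicator of the windows with a large sum at level j
  set g : ℕ → ℕ → ℕ → ℝ := fun j n H => if ∃ φ ∈ T, t j * H ≤ cw f φ n H then 1 else 0 with hg
  have hg01 : ∀ j n H, 0 ≤ g j n H ∧ g j n H ≤ 1 := by
    intro j n H
    simp only [hg]
    split_ifs <;> norm_num
  -- pointwise estimate
  have hpt : ∀ H ∈ Ico H₁ H₂, ∀ n ∈ Icc 1 N, ∑ p ∈ I, w p * g (j + 1) (n / p) (H / p) ≤
      ∑ p ∈ I, w p * (if r (j + 1) (n / p) (H / p) ≠ r j n H then 1 else 0) + (κ + R * c) := by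
    intro H hH n _
    obtain ⟨ψ, hψC, hexc⟩ := hdata j hj H hH n
    set G : ℕ → Prop := fun p => (∀ i, t (j + 1) * ((H / p : ℕ) : ℝ) ≤ cw f (dl p (ψ i)) (n / p) (H / p)) ∧
        ∀ i i', i ≠ i' → pw (dl p (ψ i)) (dl p (ψ i')) (n / p) (H / p) < D (j + 1) * ((H / p : ℕ) : ℝ) with hG
    set Bd : Fin (r j n H) → ℕ → Prop := fun i p => ∃ φ ∈ T, δ₀ * ((H / p : ℕ) : ℝ) ≤
      pw φ (fun m => ψ i (p * m)) (n / p) (H / p) with hBd
    have hn3 : ∀ (p : ℕ), p ∈ I → ∀ i : Fin (r j n H), 0 ≤ (if Bd i p then w p else 0) := by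
      intro p hp i
      have := hw0 p hp
      split_ifs <;> simp [this]
    have h1 : ∀ p ∈ I, w p * g (j + 1) (n / p) (H / p) ≤
        w p * (if r (j + 1) (n / p) (H / p) ≠ r j n H then 1 else 0) + ((if ¬ G p then w p else 0) +
          ∑ i, if Bd i p then w p else 0) := by
      intro p hp
      have hwp := hw0 p hp
      have hn1 : 0 ≤ w p * (if r (j + 1) (n / p) (H / p) ≠ r j n H then (1 : ℝ) else 0) := by
        split_ifs <;> simp [hwp]
      have hn2 : 0 ≤ (if ¬ G p then w p else 0) := by split_ifs <;> simp [hwp]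
      have hn4 : 0 ≤ ∑ i, if Bd i p then w p else 0 := sum_nonneg fun i _ => hn3 p hp i
      by_cases hgp : ∃ φ ∈ T, t (j + 1) * ((H / p : ℕ) : ℝ) ≤ cw f φ (n / p) (H / p)
      · have e1 : g (j + 1) (n / p) (H / p) = 1 := by
          simp only [hg]
          rw [if_pos hgp]
        rw [e1, mul_one]
        by_cases hne : r (j + 1) (n / p) (H / p) = r j n H
        · by_cases hGp : G p
          · obtain ⟨φ, hφT, hφt⟩ := hgp
            obtain ⟨i, hi⟩ := (hsat j hj H hH n p hp ψ hψC hGp).2 hne φ (hTC hφT) hφt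
            have h2 : Bd i p := by
              refine ⟨φ, hφT, le_trans ?_ hi⟩
              exact mul_le_mul_of_nonneg_right (hD_ge (j + 1)) (Nat.cast_nonneg _)
            have h3 := single_le_sum (f := fun i => if Bd i p then w p else 0) (fun i _ => hn3 p hp i) (mem_univ i)
            simp only [if_pos h2] at h3
            linarith
          · rw [if_pos hGp]
            linarith
        · rw [if_pos hne, mul_one]
          linarith
      · have e1 : g (j + 1) (n / p) (H / p) = 0 := by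
          simp only [hg]
          rw [if_neg hgp]
        rw [e1, mul_zero]
        linarith
    refine (sum_le_sum h1).trans ?_
    rw [sum_add_distrib, sum_add_distrib]
    have h2 : ∑ p ∈ I, (if ¬ G p then w p else 0) ≤ κ := by
      rw [← sum_filter]
      exact hwsum _ κ₀ hexc
    have h3 : ∑ p ∈ I, ∑ i, (if Bd i p then w p else 0) ≤ R * c := by
      rw [sum_comm]
      calc ∑ i, ∑ p ∈ I, (if Bd i p then w p else 0) ≤ ∑ i : Fin (r j n H), c := by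
            refine sum_le_sum fun i _ => ?_
            rw [← sum_filter]
            have h4 := hwsum _ _ (hEQ' H (by have := (mem_Ico.1 hH).1; omega) n (ψ i) (hψC i))
            rw [mul_div_assoc, div_self hL0.ne', mul_one] at h4
            exact h4
        _ = r j n H * c := by simp
        _ ≤ R * c := mul_le_mul_of_nonneg_right (by exact_mod_cast hrR j n H) hc0.le
    linarith
  -- assembly
  have hs1 : MM H₁ H₂ N (g (j + 1)) ≤ ∑ p ∈ I, w p * MM H₁ H₂ N (fun n H => g (j + 1) (n / p) (H / p)) + er := by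
    refine le_of_MM hw1 hw0 fun p hp => hDILr (fun n H => 1 - g (j + 1) n H) (fun n H => ?_) p hp
    have := hg01 (j + 1) n H
    have hR0 : (0 : ℝ) ≤ R := Nat.cast_nonneg _
    constructor <;> linarith [this.1, this.2]
  have hs2 : ∑ p ∈ I, w p * MM H₁ H₂ N (fun n H => g (j + 1) (n / p) (H / p)) ≤
      ∑ p ∈ I, w p * MM H₁ H₂ N (fun n H => if r (j + 1) (n / p) (H / p) ≠ r j n H then 1 else 0) +
        (κ + R * c) * MM H₁ H₂ N (fun _ _ => 1) := by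
    have h1 := MM_mono (H₁ := H₁) (H₂ := H₂) (N := N) (F := fun n H => ∑ p ∈ I, w p * g (j + 1) (n / p) (H / p))
      (G := fun n H => ∑ p ∈ I, w p * (if r (j + 1) (n / p) (H / p) ≠ r j n H then 1 else 0) + (κ + R * c)) hpt
    rw [MM_add, MM_const] at h1
    rw [MM_sum I H₁ H₂ N (fun p n H => w p * g (j + 1) (n / p) (H / p)),
      MM_sum I H₁ H₂ N (fun p n H => w p * (if r (j + 1) (n / p) (H / p) ≠ r j n H then 1 else 0))] at h1
    simp only [MM_smul] at h1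
    exact h1
  have hs3 : MM H₁ H₂ N (g 0) ≤ MM H₁ H₂ N (g (j + 1)) := by
    refine MM_mono fun H _ n _ => ?_
    simp only [hg]
    by_cases h : ∃ φ ∈ T, t 0 * H ≤ cw f φ n H
    · rw [if_pos h, if_pos]
      obtain ⟨φ, h2, h3⟩ := h
      refine ⟨φ, h2, le_trans (mul_le_mul_of_nonneg_right ?_ (Nat.cast_nonneg _)) h3⟩
      have e1 : t 0 = ε := by simp [ht]
      rw [e1]
      exact ht_mono _
    · rw [if_neg h]
      split_ifs <;> norm_num
  have hRc : (R : ℝ) * c ≤ ε / 8 := by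
    rw [hc, mul_div_assoc', div_le_div_iff₀ (by positivity) (by norm_num)]
    have hR0 : (0 : ℝ) ≤ R := Nat.cast_nonneg _
    nlinarith
  have hfin : MM H₁ H₂ N (g 0) ≤ ε * (ℓ * hn) := by
    rw [hmass] at hpig hs2
    have h1 : (R / J + (R + 1) * κ) * (ℓ * hn) + (κ + R * c) * (ℓ * hn) ≤ (3 * ε / 8) * (ℓ * hn) := by
      have h2 : (R : ℝ) / J + (R + 1) * κ + (κ + R * c) ≤ 3 * ε / 8 := by
        have h3 : ((R : ℝ) + 1) * κ + κ = (R + 2) * κ := by ring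
        linarith
      rw [← add_mul]
      exact mul_le_mul_of_nonneg_right h2 hm0.le
    have h4 : 0 < ε * (ℓ * hn) := by positivity
    linarith
  -- some H
  by_contra hcon
  push Not at hcon
  have h1 : ε * (ℓ * hn) < MM H₁ H₂ N (g 0) := by
    unfold MM
    rw [hℓ, sum_mul, mul_sum]
    have hne : (Ico H₁ H₂).Nonempty := by
      rw [nonempty_Ico]
      by_contra h
      have h2 : Ico H₁ H₂ = ∅ := Ico_eq_empty_of_le (by omega)
      rw [hℓ, h2, sum_empty] at hℓ0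
      exact lt_irrefl _ hℓ0
    refine sum_lt_sum_of_nonempty hne fun H hH => ?_
    have h2 := hcon H hH
    have hH0 : (0 : ℝ) < H := by
      have := (mem_Ico.1 hH).1
      exact_mod_cast (by omega : 0 < H)
    have e1 : t 0 = ε := by simp [ht]
    have h3 : ε * (1 / (H : ℝ) * hn) = 1 / (H : ℝ) * (ε * hn) := by ring
    rw [h3]
    refine mul_lt_mul_of_pos_left ?_ (by positivity)
    simp only [hg, e1]
    exact h2
  linarith



open Pool.Agent.Helper44K9.FN.FinaL in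
/-- from the doubly logarithmic averages to all scales, with explicit parameters -/
theorem fina1 : ∀ ε : ℝ, 0 < ε → ∃ δ c : ℝ, 0 < δ ∧ 0 < c ∧ ∀ C T : Set (ℕ → ℂ), Clos C → T ⊆ C → EQ1 δ c C T →
    (∀ ε : ℝ, 0 < ε → ∃ X₀ : ℕ, ∀ X ≥ X₀, ∀ f : ℕ → ℂ, Mul1 f → ∀ ψ ∈ T, cw f ψ 0 X ≤ ε * X) →
    ∃ H₀ : ℕ, ∀ f : ℕ → ℂ, Mul1 f → ∀ N H : ℕ, H₀ ≤ H → H ≤ N →
    ∑ n ∈ Icc 1 N, (1 / (n : ℝ)) * sT T f n H ≤ ε * H * Real.log N := by
  classical
  have hSUB : S_SUB := Pool.Agent.Helper44K9.FU.sub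
  intro ε hε
  obtain ⟨ε₁, hε₁⟩ : ∃ ε₁ : ℝ, ε₁ = ε / 16 := ⟨_, rfl⟩
  have hε₁0 : 0 < ε₁ := by rw [hε₁]; positivity
  obtain ⟨c, hc, hABS⟩ := abs1 Pool.Agent.Helper44K9.FN.besa (Pool.Agent.Helper44K9.FN.pusha Pool.Agent.Helper44K9.FU.tk)
    (Pool.Agent.Helper44K9.FN.pairp Pool.Agent.Helper44K9.FU.tk) Pool.Agent.Helper44K9.FU.dil_
    Pool.Agent.Helper44K9.FU.pig ε₁ hε₁0
  refine ⟨ε₁ ^ 2 / 32, c, by positivity, hc, fun C T hC hTC hEQ hLS => ?_⟩
  have hT : ∀ ψ ∈ T, ∀ m, ‖ψ m‖ ≤ 1 := fun ψ hψ => hC.1 ψ (hTC hψ)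
  obtain ⟨H₁, H₂, N₁, hH₁, hmain⟩ := hABS C T hC hTC hEQ
  set ε₂ : ℝ := ε / 32 with hε₂
  have hε₂0 : 0 < ε₂ := by positivity
  obtain ⟨X₀, hX₀⟩ := hLS ε₂ hε₂0
  obtain ⟨A, hA⟩ := exists_nat_ge (16 * (H₂ : ℝ) / ε)
  obtain ⟨A', hA'⟩ := exists_nat_ge ((X₀ : ℝ) / ε₂)
  obtain ⟨A'', hA''⟩ := exists_nat_ge (Real.exp (1 + 4 / ε))
  refine ⟨N₁ + X₀ + A + A' + A'' + H₂ + 1, fun f hf N H hH hN => ?_⟩
  have hH0 : (0 : ℝ) < H := by exact_mod_cast (by omega : 0 < H)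
  have hHA : 16 * (H₂ : ℝ) / ε ≤ H := hA.trans (by exact_mod_cast (by omega : A ≤ H))
  have hHA' : (X₀ : ℝ) / ε₂ ≤ H := hA'.trans (by exact_mod_cast (by omega : A' ≤ H))
  have hHA'' : Real.exp (1 + 4 / ε) ≤ N := hA''.trans (by exact_mod_cast (by omega : A'' ≤ N))
  obtain ⟨H', hH', hsmall⟩ := hmain N (by omega) f hf
  rw [mem_Ico] at hH'
  have hH'0 : (0 : ℝ) < H' := by exact_mod_cast (by omega : 0 < H')
  set hn : ℝ := ∑ n ∈ Icc 1 N, 1 / (n : ℝ) with hhn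
  have hn0 : 0 ≤ hn := sum_nonneg fun _ _ => by positivity
  have hlog : hn ≤ 1 + Real.log N := by
    have h1 := harmonic_le_one_add_log N
    refine le_trans (le_of_eq ?_) h1
    rw [harmonic_eq_sum_Icc]
    push_cast
    exact sum_congr rfl fun x _ => one_div _
  have hlogN : 1 + 4 / ε ≤ Real.log N := by
    rw [Real.le_log_iff_exp_le (lt_of_lt_of_le (Real.exp_pos _) hHA'')]
    exact hHA''
  -- normalized suprema
  set s : ℕ → ℕ → ℝ := fun H n => sT T f n H / H with hs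
  have hs01 : ∀ H n, 0 ≤ s H n ∧ s H n ≤ 1 := by
    intro H n
    simp only [hs]
    refine ⟨div_nonneg (sT_nonneg n H) (Nat.cast_nonneg _), ?_⟩
    refine div_le_one_of_le₀ (sT_le (Nat.cast_nonneg _) fun ψ hψ => cw_le hf.1 (hT ψ hψ) n H)
      (Nat.cast_nonneg _)
  -- small scale
  have hsm : ∑ n ∈ Icc 1 N, (1 / (n : ℝ)) * s H' n ≤ 2 * ε₁ * hn := by
    have h1 : ∀ n, s H' n ≤ (if ∃ φ ∈ T, ε₁ * H' ≤ cw f φ n H' then 1 else 0) + ε₁ := by
      intro n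
      split_ifs with h
      · linarith [(hs01 H' n).2]
      · push Not at h
        rw [zero_add]
        simp only [hs]
        rw [div_le_iff₀ hH'0]
        exact sT_le (by positivity) fun ψ hψ => (h ψ hψ).le
    calc ∑ n ∈ Icc 1 N, (1 / (n : ℝ)) * s H' n ≤ ∑ n ∈ Icc 1 N, (1 / (n : ℝ)) *
        ((if ∃ φ ∈ T, ε₁ * H' ≤ cw f φ n H' then 1 else 0) + ε₁) :=
          sum_le_sum fun n _ => mul_le_mul_of_nonneg_left (h1 n) (by positivity)
      _ = ∑ n ∈ Icc 1 N, (1 / (n : ℝ)) *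
        (if ∃ φ ∈ T, ε₁ * H' ≤ cw f φ n H' then 1 else 0) + hn * ε₁ := by
          simp only [mul_add]
          rw [sum_add_distrib, hhn, sum_mul]
      _ ≤ 2 * ε₁ * hn := by linarith
  -- large n
  have hlarge : ∑ n ∈ Ioc (1 * H) N, (1 / (n : ℝ)) * s H n ≤
      (1 + 1 / ((1 : ℕ) : ℝ)) * (∑ n ∈ Icc 1 N, (1 / (n : ℝ)) * s H' n + 1) + ε / 8 * hn := by
    refine hSUB (s H) (s H') 1 H N (ε / 8) (fun n => hs01 H' n) le_rfl (by omega) (by omega)
      (by positivity) fun n => ?_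
    have h2 : ∀ ψ ∈ T, cw f ψ n H ≤ ∑ i ∈ range H, s H' (n + i) + 2 * H' := by
      intro ψ hψ
      have hg : ∀ m, ‖f m * ψ m‖ ≤ 1 := fun m => by
        rw [norm_mul]
        exact mul_le_one₀ (hf.1 m) (norm_nonneg _) (hT ψ hψ m)
      have h3 := sub_window (g := fun m => f m * ψ m) hg n H H'
      have h4 : ∑ i ∈ range H, ‖WW (fun m => f m * ψ m) (n + i) H'‖ ≤
          H' * ∑ i ∈ range H, s H' (n + i) := by
        rw [mul_sum]
        refine sum_le_sum fun i _ => ?_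
        simp only [hs]
        rw [mul_div_cancel₀ _ hH'0.ne']
        exact le_sT hT hf.1 (n + i) H' hψ
      have h5 : (H' : ℝ) * cw f ψ n H ≤ H' * (∑ i ∈ range H, s H' (n + i) + 2 * H') := by
        refine h3.trans ?_
        rw [mul_add]
        nlinarith
      exact le_of_mul_le_mul_left h5 hH'0
    have h6 : sT T f n H ≤ ∑ i ∈ range H, s H' (n + i) + 2 * H' :=
      sT_le (add_nonneg (sum_nonneg fun i _ => (hs01 H' (n + i)).1) (by positivity)) h2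
    show sT T f n H / H ≤ _
    rw [div_le_iff₀ hH0, add_mul, mul_comm (1 / (H : ℝ)), mul_assoc, one_div_mul_cancel hH0.ne',
      mul_one]
    refine h6.trans (add_le_add le_rfl ?_)
    have h7 : (H' : ℝ) ≤ H₂ := by exact_mod_cast hH'.2.le
    rw [div_le_iff₀ hε] at hHA
    linarith
  -- small n
  have hsmalln : ∑ n ∈ Icc 1 H, (1 / (n : ℝ)) * s H n ≤ ε / 8 * hn := by
    have h1 : ∀ n ∈ Icc 1 H, s H n ≤ ε / 8 := by
      intro n hn'
      rw [mem_Icc] at hn'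
      simp only [hs]
      rw [div_le_iff₀ hH0]
      refine sT_le (by positivity) fun ψ hψ => ?_
      obtain ⟨w, hw⟩ : ∃ w : ℕ → ℕ → ℂ, w = fun n H => ∑ m ∈ Ioc n (n + H), f m * ψ m := ⟨_, rfl⟩
      have hcw : ∀ n H, cw f ψ n H = ‖w n H‖ := fun n H => by rw [hw]; rfl
      have h2 : w n H = w 0 (n + H) - w 0 n := by
        rw [hw]
        simp only
        rw [Nat.zero_add, Nat.zero_add, eq_sub_iff_add_eq, add_comm]
        rw [← sum_union]
        · congr 1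
          ext m; simp only [mem_union, mem_Ioc]; omega
        · rw [Finset.disjoint_left]
          intro m hm hm'
          rw [mem_Ioc] at hm hm'
          omega
      have h3 : ‖w 0 (n + H)‖ ≤ ε₂ * ((n + H : ℕ) : ℝ) := by
        rw [← hcw]
        exact hX₀ (n + H) (by omega) f hf ψ hψ
      have h4 : ‖w 0 n‖ ≤ ε₂ * H := by
        rw [← hcw]
        by_cases hn2 : X₀ ≤ n
        · refine (hX₀ n hn2 f hf ψ hψ).trans ?_
          have : (n : ℝ) ≤ H := by exact_mod_cast hn'.2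
          exact mul_le_mul_of_nonneg_left this hε₂0.le
        · push Not at hn2
          refine (cw_le hf.1 (hT ψ hψ) 0 n).trans ?_
          rw [div_le_iff₀ hε₂0] at hHA'
          have : (n : ℝ) ≤ X₀ := by exact_mod_cast hn2.le
          linarith
      rw [hcw, h2]
      refine (norm_sub_le _ _).trans ?_
      push_cast at h3
      have h5 : (n : ℝ) ≤ H := by exact_mod_cast hn'.2
      have h6 : ε₂ * ((n : ℝ) + H) ≤ ε₂ * (2 * H) := mul_le_mul_of_nonneg_left (by linarith) hε₂0.le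
      rw [hε₂] at h3 h4 h6
      nlinarith
    calc ∑ n ∈ Icc 1 H, (1 / (n : ℝ)) * s H n ≤ ∑ n ∈ Icc 1 H, (1 / (n : ℝ)) * (ε / 8) :=
          sum_le_sum fun n hn' => mul_le_mul_of_nonneg_left (h1 n hn') (by positivity)
      _ = ε / 8 * ∑ n ∈ Icc 1 H, 1 / (n : ℝ) := by rw [← sum_mul]; ring
      _ ≤ ε / 8 * hn := by
          refine mul_le_mul_of_nonneg_left ?_ (by positivity)
          exact sum_le_sum_of_subset_of_nonneg (Icc_subset_Icc_right hN) fun _ _ _ => by positivity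
  -- total
  have htot : ∑ n ∈ Icc 1 N, (1 / (n : ℝ)) * sT T f n H = H * (∑ n ∈ Icc 1 H, (1 / (n : ℝ)) * s H n +
      ∑ n ∈ Ioc (1 * H) N, (1 / (n : ℝ)) * s H n) := by
    rw [one_mul, ← sum_union]
    · rw [mul_sum]
      have h1 : Icc 1 H ∪ Ioc H N = Icc 1 N := by
        ext m; simp only [mem_union, mem_Icc, mem_Ioc]; omega
      rw [h1]
      refine sum_congr rfl fun n _ => ?_
      simp only [hs]
      field_simp
    · rw [Finset.disjoint_left]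
      intro m hm hm'
      rw [mem_Icc] at hm
      rw [mem_Ioc] at hm'
      omega
  rw [htot]
  have h9 : ∑ n ∈ Icc 1 H, (1 / (n : ℝ)) * s H n + ∑ n ∈ Ioc (1 * H) N, (1 / (n : ℝ)) * s H n ≤
      ε * Real.log N := by
    have h10 : (1 + 1 / ((1 : ℕ) : ℝ)) * (∑ n ∈ Icc 1 N, (1 / (n : ℝ)) * s H' n + 1) ≤ 4 * ε₁ * hn + 2 := by
      rw [show (1 + 1 / ((1 : ℕ) : ℝ)) = 2 by norm_num]
      linarith
    have h11 : 4 * ε₁ * hn + 2 + ε / 8 * hn + ε / 8 * hn ≤ ε * Real.log N := by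
      have h12 : 4 * ε₁ * hn + 2 + ε / 8 * hn + ε / 8 * hn = ε / 2 * hn + 2 := by rw [hε₁]; ring
      rw [h12]
      have h13 : ε / 2 * hn ≤ ε / 2 * (1 + Real.log N) := mul_le_mul_of_nonneg_left hlog (by positivity)
      have h14 : ε / 2 * (1 + 4 / ε) ≤ ε / 2 * Real.log N := mul_le_mul_of_nonneg_left hlogN (by positivity)
      have h15 : ε / 2 * (1 + 4 / ε) = ε / 2 + 2 := by field_simp; ring
      linarith
    linarith
  calc (H : ℝ) * _ ≤ H * (ε * Real.log N) := mul_le_mul_of_nonneg_left h9 hH0.le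
    _ = ε * H * Real.log N := by ring



end Pool.Agent.Helper16.NL
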