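import Pool.Agent.Helper16.NL.Pair
import Pool.Agent.Helper16.NL.Dual
import Pool.Agent.Helper16.NL.Par
import Pool.Graph.R_pool_sql_team_seeded_1e53cb71.Helper44K9.FU.Eq
import Pool.Graph.R_pool_sql_team_seeded_1e53cb71.Helper44K9.FU.Chb
import Pool.Graph.R_pool_sql_team_seeded_1e53cb71.Helper44K9.FU.Kap
import Pool.Graph.R_pool_sql_team_seeded_1e53cb71.Helper44K9.FU.Pw
import Pool.Graph.R_pool_sql_team_seeded_1e53cb71.Helper44K9.FU.Trig

/-! The condition `EQA` for the nilsequences with a nontrivial vertical character. -/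

set_option autoImplicit false

namespace Pool.Agent.Helper16.NL

open Finset Topology MeasureTheory
open Pool.Agent.Helper44K9.FN (pw cw Clos EQA)
open Pool.Agent.Helper44K9.FU (S_EQ)

variable {G : Type} [Group G] [TopologicalSpace G] [IsTopologicalGroup G] {Γ : Subgroup G} (D : NilData G Γ)

/-- the sequences `F(a^m y)` with the horizontal part of `a` in `E` -/
def Cn (F : G → ℂ) (E : Set (D.ι 0 → UnitAddCircle)) : Set (ℕ → ℂ) :=
  {ψ | ∃ a y : G, md (D.π 0 a) ∈ E ∧ ∀ m : ℕ, ψ m = F (a ^ m * y)}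

lemma Cn_bdd {F : G → ℂ} (hF1 : ∀ g, ‖F g‖ ≤ 1) {E : Set (D.ι 0 → UnitAddCircle)} {ψ : ℕ → ℂ} (h : ψ ∈ Cn D F E) (m : ℕ) :
    ‖ψ m‖ ≤ 1 := by
  obtain ⟨a, y, _, h⟩ := h
  rw [h]
  exact hF1 _

lemma Cn_clos {F : G → ℂ} (hF1 : ∀ g, ‖F g‖ ≤ 1) : Clos (Cn D F Set.univ) := by
  refine ⟨fun ψ h m => Cn_bdd D hF1 h m, ?_⟩
  rintro ψ ⟨a, y, _, h⟩ p
  exact ⟨a ^ p, y, trivial, fun m => by show ψ (p * m) = _; rw [h, pow_mul]⟩

lemma dt_smul {ι : Type} [Fintype ι] (k : ι → ℤ) (c : ℝ) (x : ι → ℝ) : dt k (c • x) = c * dt k x := by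
  unfold dt
  rw [mul_sum]
  exact sum_congr rfl fun i _ => by rw [Pi.smul_apply, smul_eq_mul]; ring

/-- the frequencies with bounded coefficients -/
def Est {ι : Type} [Fintype ι] (K : ℕ) (E : Set (ι → UnitAddCircle)) : Set UnitAddCircle :=
  ⋃ k ∈ {k : ι → ℤ | Bd K k}, lf k '' E

lemma bd_fin {ι : Type} [Fintype ι] (K : ℕ) : {k : ι → ℤ | Bd K k}.Finite := by
  classical
  refine Set.Finite.subset (Fintype.piFinset fun _ : ι => Icc (-(K : ℤ)) K).finite_toSet ?_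
  intro k hk
  rw [mem_coe, Fintype.mem_piFinset]
  intro i
  rw [mem_Icc, ← abs_le]
  exact hk.2 i

lemma Est_cpt {ι : Type} [Fintype ι] (K : ℕ) {E : Set (ι → UnitAddCircle)} (hE : IsCompact E) : IsCompact (Est K E) :=
  (bd_fin K).isCompact_biUnion fun k _ => hE.image (lf_cont k)

lemma Est_small {ι : Type} [Fintype ι] (K : ℕ) {δ : ℝ} (hδ : 0 < δ) : ∃ δ' : ℝ, 0 < δ' ∧
    ∀ E : Set (ι → UnitAddCircle), (∀ k : ι → ℤ, Bd K k → volume (lf k '' E) ≤ ENNReal.ofReal δ') →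
    volume (Est K E) ≤ ENNReal.ofReal δ := by
  classical
  set S := (bd_fin (ι := ι) K).toFinset with hS
  refine ⟨δ / (#S + 1), by positivity, fun E h => ?_⟩
  have h1 : Est K E = ⋃ k ∈ S, lf k '' E := by
    unfold Est
    ext x
    simp only [Set.mem_iUnion, hS, Set.Finite.mem_toFinset]
  rw [h1]
  refine (measure_biUnion_finset_le S _).trans ?_
  calc ∑ k ∈ S, volume (lf k '' E) ≤ ∑ k ∈ S, ENNReal.ofReal (δ / (#S + 1)) :=
        sum_le_sum fun k hk => h k ((bd_fin (ι := ι) K).mem_toFinset.1 hk)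
    _ = ENNReal.ofReal (#S * (δ / (#S + 1))) := by
        rw [sum_const, nsmul_eq_mul, ENNReal.ofReal_mul (Nat.cast_nonneg _), ENNReal.ofReal_natCast]
    _ ≤ ENNReal.ofReal δ := by
        apply ENNReal.ofReal_le_ofReal
        rw [mul_div_assoc', div_le_iff₀ (by positivity)]
        nlinarith

lemma Est_irr {ι : Type} [Fintype ι] (K : ℕ) {E : Set (ι → UnitAddCircle)}
    (h : ∀ k : ι → ℤ, k ≠ 0 → ∀ x ∈ E, addOrderOf (lf k x) = 0) : ∀ x ∈ Est K E, addOrderOf x = 0 := by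
  intro x hx
  rw [Est, Set.mem_iUnion₂] at hx
  obtain ⟨k, hk, y, hy, rfl⟩ := hx
  exact h k hk.1 y hy

theorem s_eq : S_EQ := Pool.Agent.Helper44K9.FU.eq Pool.Agent.Helper44K9.FU.pw Pool.Agent.Helper44K9.FU.trig
  Pool.Agent.Helper44K9.FU.kap Pool.Agent.Helper44K9.FU.chb

/-- small sets of directions -/
def Sm {ι : Type} [Fintype ι] (δ : ℝ) (K : ℕ) (E : Set (ι → UnitAddCircle)) : Prop :=
  IsCompact E ∧ (∀ k : ι → ℤ, k ≠ 0 → ∀ x ∈ E, addOrderOf (lf k x) = 0) ∧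
    ∀ k : ι → ℤ, Bd K k → volume (lf k '' E) ≤ ENNReal.ofReal δ

lemma Sm.mono {ι : Type} [Fintype ι] {δ δ' : ℝ} {K K' : ℕ} {E : Set (ι → UnitAddCircle)} (h : Sm δ K E) (hδ : δ ≤ δ')
    (hK : K' ≤ K) : Sm δ' K' E :=
  ⟨h.1, h.2.1, fun k hk => (h.2.2 k (hk.mono hK)).trans (ENNReal.ofReal_le_ofReal hδ)⟩

open Classical in
/-- **EQA** -/
theorem eqa {j : ℕ} {k : D.ι j → ℤ} (hk : k ≠ 0) {F : G → ℂ} (hF : VC D j k F) (hF1 : ∀ g, ‖F g‖ ≤ 1)
    {δ c : ℝ} (hδ : 0 < δ) (hc : 0 < c) : ∃ δ' : ℝ, 0 < δ' ∧ ∃ K : ℕ, ∀ E : Set (D.ι 0 → UnitAddCircle), Sm δ' K E →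
    EQ1 δ c (Cn D F Set.univ) (Cn D F E) := by
  have hδ₁ : 0 < δ ^ 2 / 32 := by positivity
  obtain ⟨K, hK⟩ := pair D hk hF hδ₁
  obtain ⟨c₂, X₀, hc₂, hcomb⟩ := comb (ι := D.ι 0) K hδ₁
  obtain ⟨δ₀, hδ₀, hEQ⟩ := s_eq 1 1 le_rfl le_rfl (c * c₂ / 2) (by positivity)
  obtain ⟨δ', hδ', hsmall⟩ := Est_small (ι := D.ι 0) K hδ₀
  refine ⟨δ', hδ', K, fun E hSm => ?_⟩
  obtain ⟨hE, hirr, hvol⟩ := hSm
  intro z A
  set A' : ℝ := max A (max ((|X₀| + 8 / δ ^ 2) / c) 1) with hA'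
  obtain ⟨I, hI, hIA, τ, hτ, hIα⟩ := hEQ (Est K E) (Est_cpt K hE) (hsmall E hvol) (Est_irr K hirr) z A'
  obtain ⟨η, hη, hex⟩ := exactify hE I K
  obtain ⟨N₁, hN₁⟩ := hK η hη
  refine ⟨I, hI, (le_max_left _ _).trans hIA, ?_⟩
  obtain ⟨B, hB⟩ : ∃ B : ℕ, ∀ p ∈ I, p ≤ B := ⟨I.sup id, fun p hp => le_sup (f := id) hp⟩
  obtain ⟨H₁, hH₁⟩ := exists_nat_ge ((N₁ : ℝ) * B * B / (δ ^ 2 / 16))
  refine ⟨2 * B + B * B + H₁ + 1, fun H hH n ψ hψ => ?_⟩
  set P := I.filter (fun p : ℕ => ∃ φ ∈ Cn D F E, δ * ((H / p : ℕ) : ℝ) ≤ pw φ (fun m => ψ (p * m)) (n / p) (H / p)) with hP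
  set X : ℝ := ∑ p ∈ P, 1 / (p : ℝ) with hX
  by_contra hcon
  rw [not_le] at hcon
  have hIP : ∀ p ∈ P, p.Prime := fun p hp => (hI p (mem_filter.1 hp).1).1
  have hXbig : |X₀| + 8 / δ ^ 2 ≤ X := by
    have h1 : (|X₀| + 8 / δ ^ 2) / c ≤ ∑ p ∈ I, 1 / (p : ℝ) :=
      ((le_max_left _ _).trans (le_max_right _ _)).trans hIA
    rw [div_le_iff₀ hc] at h1
    linarith
  have hX8 : 8 / δ ^ 2 ≤ X := by have := abs_nonneg X₀; linarith
  have hXX₀ : X₀ ≤ X := by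
    have := le_abs_self X₀
    have : 0 < 8 / δ ^ 2 := by positivity
    linarith
  have hX0 : 0 < X := lt_of_lt_of_le (by positivity) hX8
  have hPne : P.Nonempty := by
    by_contra h0
    rw [not_nonempty_iff_eq_empty] at h0
    rw [hX, h0, sum_empty] at hX0
    exact lt_irrefl _ hX0
  obtain ⟨p₀, hp₀⟩ := hPne
  -- the sequences
  have hsel : ∀ p : ℕ, ∃ (a y : G), p ∈ P → md (D.π 0 a) ∈ E ∧
      δ * ((H / p : ℕ) : ℝ) ≤ pw (fun m => F (a ^ m * y)) (fun m => ψ (p * m)) (n / p) (H / p) := by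
    intro p
    by_cases hp : p ∈ P
    · obtain ⟨φ, ⟨a, y, ha, hφ⟩, h1⟩ := (mem_filter.1 hp).2
      refine ⟨a, y, fun _ => ⟨ha, ?_⟩⟩
      have : φ = fun m => F (a ^ m * y) := funext hφ
      rw [← this]
      exact h1
    · exact ⟨1, 1, fun h => absurd h hp⟩
  choose a y hay using hsel
  obtain ⟨aψ, yψ, _, hψe⟩ := hψ
  have hψ1 : ∀ m, ‖ψ m‖ ≤ 1 := fun m => by rw [hψe]; exact hF1 _
  have hBP : ∀ p ∈ P, p ≤ B := fun p hp => hB p (mem_filter.1 hp).1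
  have hdual := dual2 hIP hδ hBP hX8 (H := H) (by omega) (by nlinarith) n hψ1
    (φ := fun p m => F (a p ^ m * y p)) (fun p m => hF1 _) (fun p hp => (hay p hp).2)
  set φ : ℕ → ℕ → ℂ := fun p m => F (a p ^ m * y p) with hφ
  set Q := (P ×ˢ P).filter (fun e => e.1 ≠ e.2 ∧ δ ^ 2 / 16 * (H / ((e.1 : ℝ) * e.2)) ≤ Sw φ n H e.1 e.2) with hQ
  -- the frequencies
  set x : ℕ → D.ι 0 → ℝ := fun p => if p ∈ P then D.π 0 (a p) else D.π 0 (a p₀) with hx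
  have hxE : ∀ p ∈ I, md (x p) ∈ E := by
    intro p _
    simp only [hx]
    split_ifs with h
    · exact (hay p h).1
    · exact (hay p₀ hp₀).1
  obtain ⟨x', hx'E, hx'⟩ := hex x hxE
  have hPI : P ⊆ I := filter_subset _ _
  obtain ⟨β, Z, hZP, hZ, hβ⟩ := hcomb E hirr P hIP hXX₀ x' (fun p hp => hx'E p (hPI hp)) Q (filter_subset _ _) hdual (by
    rintro ⟨p, q⟩ he
    rw [hQ, mem_filter, mem_product] at he
    obtain ⟨⟨hp, hq⟩, hpq, hS⟩ := he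
    simp only at hp hq hpq hS ⊢
    refine ⟨hpq, ?_⟩
    have hp0 := (hIP p hp).pos
    have hq0 := (hIP q hq).pos
    have hpr : (0 : ℝ) < p := by exact_mod_cast hp0
    have hqr : (0 : ℝ) < q := by exact_mod_cast hq0
    have hpqH : p * q ≤ H := (Nat.mul_le_mul (hBP p hp) (hBP q hq)).trans (by omega)
    set lo := n / (p * q) with hlo
    set len := hi n H p q - lo with hlen
    have hlenle := hi_le n H p q hp0 hq0 hpqH
    have hSsum : Sw φ n H p q = ‖∑ i ∈ range len, F ((a p ^ q) ^ i * ((a p ^ q) ^ (lo + 1) * y p)) *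
        (starRingEnd ℂ) (F ((a q ^ p) ^ i * ((a q ^ p) ^ (lo + 1) * y q)))‖ := by
      unfold Sw
      have h1 : Ioc (n / (p * q)) (hi n H p q) = Ioc lo (lo + len) := by
        ext m
        rw [mem_Ioc, mem_Ioc]
        omega
      rw [h1, Pool.Agent.Helper44K9.FN.VdcL.Ioc_range (fun m => φ p (q * m) * (starRingEnd ℂ) (φ q (p * m))) lo len]
      congr 1
      refine sum_congr rfl fun i _ => ?_
      simp only [hφ]
      have h2 : ∀ (g w : G) (r : ℕ), g ^ (r * (lo + 1 + i)) * w = (g ^ r) ^ i * ((g ^ r) ^ (lo + 1) * w) := by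
        intro g w r
        rw [← mul_assoc, ← pow_add, pow_mul, add_comm i]
      rw [h2, h2]
    have hSlen : Sw φ n H p q ≤ len := by
      rw [hSsum]
      refine (norm_sum_le _ _).trans ?_
      calc _ ≤ ∑ i ∈ range len, (1 : ℝ) := by
            refine sum_le_sum fun i _ => ?_
            rw [norm_mul, RCLike.norm_conj]
            exact mul_le_one₀ (hF1 _) (norm_nonneg _) (hF1 _)
        _ = len := by simp
    have hBr : (p : ℝ) * q ≤ B * B := by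
      exact_mod_cast Nat.mul_le_mul (hBP p hp) (hBP q hq)
    have hN₁len : N₁ ≤ len := by
      have h1 : (N₁ : ℝ) ≤ len := by
        refine le_trans ?_ (hS.trans hSlen)
        rw [div_le_iff₀ (by positivity)] at hH₁
        have h2 : (H₁ : ℝ) ≤ H := by
          have : H₁ ≤ H := by omega
          exact_mod_cast this
        rw [mul_div_assoc', le_div_iff₀ (by positivity)]
        calc (N₁ : ℝ) * (p * q) ≤ N₁ * (B * B) := mul_le_mul_of_nonneg_left hBr (Nat.cast_nonneg _)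
          _ = N₁ * B * B := by ring
          _ ≤ H₁ * (δ ^ 2 / 16) := hH₁
          _ ≤ H * (δ ^ 2 / 16) := mul_le_mul_of_nonneg_right h2 (by positivity)
          _ = δ ^ 2 / 16 * H := mul_comm _ _
      exact_mod_cast h1
    obtain ⟨m, m', h0, hm, hm', hNr⟩ := hN₁ len hN₁len (a p ^ q) (a q ^ p) ((a p ^ q) ^ (lo + 1) * y p)
      ((a q ^ p) ^ (lo + 1) * y q) (by
        rw [← hSsum]
        refine le_trans ?_ hS
        calc δ ^ 2 / 32 * (len : ℝ) ≤ δ ^ 2 / 32 * (2 * (H / ((p : ℝ) * q))) :=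
              mul_le_mul_of_nonneg_left hlenle (by positivity)
          _ = _ := by ring)
    refine ⟨m, m', h0, hm, hm', ?_⟩
    apply hx' p (hPI hp) q (hPI hq) m m' hm hm'
    rw [D.π_pow0, D.π_pow0, dt_smul, dt_smul] at hNr
    have h3 : x p = D.π 0 (a p) := by simp only [hx, hp, if_true]
    have h4 : x q = D.π 0 (a q) := by simp only [hx, hq, if_true]
    rw [h3, h4]
    exact hNr)
  -- the contradiction
  obtain ⟨α, hα⟩ := QuotientAddGroup.mk_surjective β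
  have hZsub : Z ⊆ I.filter (fun p : ℕ => ∃ β : ℝ, (β : UnitAddCircle) ∈ Est K E ∧ ∃ m : ℕ, 1 ≤ m ∧ m ≤ 1 ∧ ∃ a : ℤ,
      |m * (β - (p : ℝ) ^ 1 * α) - a| ≤ τ) := by
    intro p hp
    rw [mem_filter]
    refine ⟨hPI (hZP hp), (p : ℝ) * α, ?_, 1, le_rfl, le_rfl, 0, ?_⟩
    · obtain ⟨m, hm, hmβ⟩ := hβ p hp
      have h1 : (((p : ℝ) * α : ℝ) : UnitAddCircle) = p • β := by
        rw [← hα, ← nsmul_eq_mul, AddCircle.coe_nsmul]
      rw [h1, hmβ, Est, Set.mem_iUnion₂]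
      exact ⟨m, hm, x' p, hx'E p (hPI (hZP hp)), rfl⟩
    · rw [pow_one, sub_self, mul_zero, Int.cast_zero, sub_zero, abs_zero]
      exact hτ.le
  have h1 := hIα α
  have h2 : ∑ p ∈ Z, 1 / (p : ℝ) ≤ c * c₂ / 2 * ∑ p ∈ I, 1 / (p : ℝ) :=
    (sum_le_sum_of_subset_of_nonneg hZsub fun _ _ _ => by positivity).trans h1
  have h3 : c₂ * (c * ∑ p ∈ I, 1 / (p : ℝ)) ≤ c₂ * X := mul_le_mul_of_nonneg_left hcon.le hc₂.le
  have h4 : 0 < c * c₂ * ∑ p ∈ I, 1 / (p : ℝ) := by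
    have : 1 ≤ ∑ p ∈ I, 1 / (p : ℝ) := ((le_max_right _ _).trans (le_max_right _ _)).trans hIA
    positivity
  nlinarith

end Pool.Agent.Helper16.NL
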