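import Pool.Agent.Helper16.NL.Torus

/-! Approximate relations between points of a compact set are exact relations between other points. -/

set_option autoImplicit false

namespace Pool.Agent.Helper16.NL

open Finset Topology

variable {ι : Type} [Fintype ι]

lemma norm_of_nr {η t : ℝ} (h : Nr η t) : ‖(t : UnitAddCircle)‖ ≤ η := by
  rw [UnitAddCircle.norm_eq]
  exact nr_round h

lemma nr_of_norm {η t : ℝ} (h : ‖(t : UnitAddCircle)‖ ≤ η) : Nr η t := by
  rw [UnitAddCircle.norm_eq] at h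
  exact ⟨round t, h⟩

lemma lf_cont (k : ι → ℤ) : Continuous (lf k) := by
  unfold lf
  exact continuous_finsetSum _ fun i _ => (continuous_apply i).zsmul (k i)

lemma rel_cast (p q : ℕ) (m m' : ι → ℤ) (x y : ι → ℝ) :
    (((q : ℝ) * dt m x + (p : ℝ) * dt m' y : ℝ) : UnitAddCircle) = q • lf m (md x) + p • lf m' (md y) := by
  rw [lf_md, lf_md, AddCircle.coe_add, ← AddCircle.coe_nsmul, ← AddCircle.coe_nsmul, nsmul_eq_mul, nsmul_eq_mul]

open Classical in
theorem exactify {E : Set (ι → UnitAddCircle)} (hE : IsCompact E) (I : Finset ℕ) (K : ℕ) :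
    ∃ η : ℝ, 0 < η ∧ ∀ x : ℕ → ι → ℝ, (∀ p ∈ I, md (x p) ∈ E) → ∃ x' : ℕ → ι → UnitAddCircle, (∀ p ∈ I, x' p ∈ E) ∧
      ∀ p ∈ I, ∀ q ∈ I, ∀ m m' : ι → ℤ, (∀ i, |m i| ≤ K) → (∀ i, |m' i| ≤ K) →
        Nr η ((q : ℝ) * dt m (x p) + (p : ℝ) * dt m' (x q)) → q • lf m (x' p) + p • lf m' (x' q) = 0 := by
  by_contra hcon
  push Not at hcon
  have h1 := fun n : ℕ => hcon (1 / ((n : ℝ) + 1)) (by positivity)
  choose x hxE hx using h1
  -- the compact set
  set Z : Set (I → ι → UnitAddCircle) := Set.pi Set.univ fun _ => E with hZ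
  have hZc : IsCompact Z := isCompact_univ_pi fun _ => hE
  obtain ⟨z, hz, φ, hφ, hlim⟩ := hZc.tendsto_subseq (x := fun n (p : I) => md (x n p)) (fun n p _ => hxE n p p.2)
  set x' : ℕ → ι → UnitAddCircle := fun p => if h : p ∈ I then z ⟨p, h⟩ else 0 with hx'
  have hx'E : ∀ p ∈ I, x' p ∈ E := by
    intro p hp
    simp only [hx', hp, dif_pos]
    exact hz ⟨p, hp⟩ trivial
  have hlimp : ∀ p ∈ I, Filter.Tendsto (fun n => md (x (φ n) p)) Filter.atTop (𝓝 (x' p)) := by
    intro p hp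
    simp only [hx', hp, dif_pos]
    exact (tendsto_pi_nhds.1 hlim) ⟨p, hp⟩
  set BX : Finset (ι → ℤ) := Fintype.piFinset fun _ => Icc (-(K : ℤ)) K with hBX
  have hev : ∀ᶠ n in Filter.atTop, ∀ p ∈ I, ∀ q ∈ I, ∀ m ∈ BX, ∀ m' ∈ BX,
      q • lf m (x' p) + p • lf m' (x' q) ≠ 0 →
      ¬ Nr (1 / (((φ n : ℕ) : ℝ) + 1)) ((q : ℝ) * dt m (x (φ n) p) + (p : ℝ) * dt m' (x (φ n) q)) := by
    rw [Filter.eventually_all_finset]; intro p hp
    rw [Filter.eventually_all_finset]; intro q hq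
    rw [Filter.eventually_all_finset]; intro m _
    rw [Filter.eventually_all_finset]; intro m' _
    by_cases h0 : q • lf m (x' p) + p • lf m' (x' q) = 0
    · exact Filter.Eventually.of_forall fun n h => absurd h0 h
    · have h2 : Filter.Tendsto (fun n => ‖q • lf m (md (x (φ n) p)) + p • lf m' (md (x (φ n) q))‖) Filter.atTop
          (𝓝 ‖q • lf m (x' p) + p • lf m' (x' q)‖) := by
        refine Filter.Tendsto.norm (Filter.Tendsto.add ?_ ?_)
        · exact (((lf_cont m).tendsto _).comp (hlimp p hp)).nsmul q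
        · exact (((lf_cont m').tendsto _).comp (hlimp q hq)).nsmul p
      have h3 : Filter.Tendsto (fun n => 1 / (((φ n : ℕ) : ℝ) + 1)) Filter.atTop (𝓝 0) :=
        tendsto_one_div_add_atTop_nhds_zero_nat.comp hφ.tendsto_atTop
      have h4 : 0 < ‖q • lf m (x' p) + p • lf m' (x' q)‖ := norm_pos_iff.2 h0
      filter_upwards [h3.eventually_lt h2 h4] with n hn _ hNr
      have h5 := norm_of_nr hNr
      rw [rel_cast] at h5
      exact absurd hn (not_lt.2 h5)
  obtain ⟨n, hn⟩ := hev.exists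
  obtain ⟨p, hp, q, hq, m, m', hm, hm', h5, h6⟩ := hx (φ n) x' hx'E
  have hmem : ∀ k : ι → ℤ, (∀ i, |k i| ≤ K) → k ∈ BX := by
    intro k hk
    rw [hBX, Fintype.mem_piFinset]
    intro i
    rw [mem_Icc, ← abs_le]
    exact hk i
  exact hn p hp q hq m (hmem m hm) m' (hmem m' hm') h6 h5

end Pool.Agent.Helper16.NL
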