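import Pool.Agent.Helper16.NL.Mean
import Pool.Graph.R_pool_sql_team_seeded_1e53cb71.Helper44K9.FS.FurB

/-! Furstenberg systems of aperiodic multiplicative functions: families of nilrotations of every step. -/

set_option autoImplicit false

namespace Pool.Agent.Helper16.NL

open Finset MeasureTheory Filter Topology
open Pool.Agent.H807R2.Dav (ee ee_zero)
open Pool.Agent.Helper44K9.FU (Mul1)
open Pool.Agent.Helper42K9.AC (Val Sq IsFurstenbergSystem IsMult Aperiodic Ext S_PER Cls)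
open Pool.Agent.Helper44K9.FS (fur_sup sup_cont cf0 cf0_mult val_le)

/-- `Y` is the quotient by `Γ` -/
def IsQ {G Y : Type} [Group G] [TopologicalSpace G] [TopologicalSpace Y] (Γ : Subgroup G) (p : G → Y) : Prop :=
  Continuous p ∧ Function.Surjective p ∧ ∀ g h, p g = p h ↔ g⁻¹ * h ∈ Γ

open Classical in
/-- the function on the quotient -/
noncomputable def dn {G Y : Type} (p : G → Y) (F : G → ℂ) (y : Y) : ℂ := if h : ∃ g, p g = y then F h.choose else 0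

section

variable {G : Type} [Group G] [TopologicalSpace G] [IsTopologicalGroup G] {Γ : Subgroup G} (D : NilData G Γ)
  {Y : Type} [MetricSpace Y] {p : G → Y}

omit [IsTopologicalGroup G] in
lemma dn_p (hp : IsQ Γ p) {F : G → ℂ} (hΓ : ∀ g γ, γ ∈ Γ → F (g * γ) = F g) (g : G) : dn p F (p g) = F g := by
  have h : ∃ g', p g' = p g := ⟨g, rfl⟩
  unfold dn
  rw [dif_pos h]
  have h2 := (hp.2.2 _ _).1 h.choose_spec
  have h3 := hΓ h.choose _ h2
  rw [mul_inv_cancel_left] at h3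
  exact h3.symm

include D in
lemma dn_cont (hp : IsQ Γ p) {F : G → ℂ} (hF : Continuous F) (hΓ : ∀ g γ, γ ∈ Γ → F (g * γ) = F g) :
    Continuous (dn p F) := by
  obtain ⟨C, hC, hCΓ⟩ := D.cpt0
  have : CompactSpace C := isCompact_iff_compactSpace.1 hC
  have hfc : Continuous fun c : C => p c.1 := hp.1.comp continuous_subtype_val
  have hs : Function.Surjective fun c : C => p c.1 := by
    intro y
    obtain ⟨g, rfl⟩ := hp.2.1 y
    obtain ⟨c, hc, γ, hγ, rfl⟩ := hCΓ g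
    refine ⟨⟨c, hc⟩, ?_⟩
    show p c = p (c * γ)
    rw [hp.2.2, inv_mul_cancel_left]
    exact hγ
  have hq : IsQuotientMap fun c : C => p c.1 := hfc.isClosedMap.isQuotientMap hfc hs
  rw [hq.continuous_iff]
  have : dn p F ∘ (fun c : C => p c.1) = fun c : C => F c.1 := by
    funext c
    exact dn_p hp hΓ c.1
  rw [this]
  exact hF.comp continuous_subtype_val

omit [IsTopologicalGroup G] in
lemma dn_bd (hp : IsQ Γ p) {F : G → ℂ} (hΓ : ∀ g γ, γ ∈ Γ → F (g * γ) = F g) {B : ℝ} (hB : ∀ g, ‖F g‖ ≤ B) (y : Y) :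
    ‖dn p F y‖ ≤ B := by
  obtain ⟨g, rfl⟩ := hp.2.1 y
  rw [dn_p hp hΓ]
  exact hB g

end

/-- functions along orbits in an extension of a Furstenberg system, orthogonality up to `ε` -/
def QQ {G : Type} [Group G] [TopologicalSpace G] [IsTopologicalGroup G] {Γ : Subgroup G} (D : NilData G Γ)
    {Y : Type} [MetricSpace Y] [MeasurableSpace Y] (p : G → Y) (F : G → ℂ)
    (E : Set (D.ι 0 → UnitAddCircle)) (ε : ℝ) : Prop :=
  ∀ f : ℕ → Val, IsMult f → Aperiodic f → ∀ μ : Measure Sq, IsFurstenbergSystem f μ →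
  ∀ (Z : Type) [MeasurableSpace Z] (ρ : Measure Z) [IsProbabilityMeasure ρ] (S : Z → Z) (π : Z → Sq), Ext ρ S π μ →
  ∀ (g : Z → G) (φ : Z → Y), Measurable φ → (∀ᵐ z ∂ρ, ∀ (n : ℕ) (h : G), p h = φ z → φ (S^[n] z) = p (g z ^ n * h)) →
  ∀ w : Z → ℂ, Measurable w → (∀ z, ‖w z‖ ≤ 1) → (∀ᵐ z ∂ρ, ∀ n : ℕ, w (S^[n] z) = w z) →
  (∀ᵐ z ∂ρ, w z ≠ 0 → md (D.π 0 (g z)) ∈ E) →
  ‖∫ z, ((π z 0 : ℝ) : ℂ) * (w z * dn p F (φ z)) ∂ρ‖ ≤ ε

/-- the good functions -/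
def Qd {G : Type} [Group G] [TopologicalSpace G] [IsTopologicalGroup G] {Γ : Subgroup G} (D : NilData G Γ)
    {Y : Type} [MetricSpace Y] [MeasurableSpace Y] (p : G → Y) (F : G → ℂ) : Prop :=
  ∀ ε : ℝ, 0 < ε → ∃ δ : ℝ, 0 < δ ∧ ∃ K : ℕ, ∀ E : Set (D.ι 0 → UnitAddCircle), Sm δ K E → QQ D p F E ε

section basic

variable {f : ℕ → Val} {μ : Measure Sq} {Z : Type} [MeasurableSpace Z] {ρ : Measure Z} [IsProbabilityMeasure ρ]
  {S : Z → Z} {π : Z → Sq}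

omit [IsProbabilityMeasure ρ] in
lemma xm (hext : Ext ρ S π μ) : Measurable fun z => ((π z 0 : ℝ) : ℂ) :=
  Complex.measurable_ofReal.comp (measurable_subtype_coe.comp ((measurable_pi_apply 0).comp hext.fac.measurable))

/-- invariant functions -/
lemma inv_fun (hf : IsMult f) (ha : Aperiodic f) (hμ : IsFurstenbergSystem f μ) (hext : Ext ρ S π μ) (hPER : S_PER)
    {w : Z → ℂ} (hw : Measurable w) (hw1 : ∀ z, ‖w z‖ ≤ 1) (hwS : ∀ᵐ z ∂ρ, ∀ n : ℕ, w (S^[n] z) = w z) :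
    ∫ z, ((π z 0 : ℝ) : ℂ) * w z ∂ρ = 0 := by
  rw [← norm_le_zero_iff]
  refine le_of_forall_pos_le_add fun ε hε => ?_
  rw [zero_add]
  obtain ⟨H, G, hH, hGi, hG0, hGC, hGint⟩ := hPER f hf ha μ hμ 1 le_rfl ε hε
  have h1 := Pool.Agent.Helper42K9.AC.abs_ Z ρ S π μ hext (Cls 0 1 Set.univ) H G hH hGi hG0 hGC w hw hw1 (by
      filter_upwards [hwS] with z hz
      by_cases hz0 : w z = 0
      · left
        intro n
        rw [hz, hz0]
      · right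
        have hn : ‖w z‖ ≠ 0 := norm_ne_zero_iff.2 hz0
        refine ⟨‖w z‖, norm_nonneg _, hw1 z, fun _ => w z / ‖w z‖, ⟨fun _ => w z / ‖w z‖, 0, fun _ => rfl, fun _ => ?_,
          by simp, trivial, fun n => ?_⟩, fun n => ?_⟩
        · rw [norm_div, Complex.norm_real, norm_norm, div_self hn]
        · unfold Pool.Agent.Helper42K9.AC.e
          simp
        · rw [hz]
          have : ((‖w z‖ : ℝ) : ℂ) ≠ 0 := by exact_mod_cast hn
          field_simp)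
  have hHr : (0 : ℝ) < H := by exact_mod_cast hH
  have h2 : (H : ℝ) * ‖∫ z, ((π z 0 : ℝ) : ℂ) * w z ∂ρ‖ ≤ H * ε := (h1.trans hGint).trans (le_of_eq (mul_comm _ _))
  exact le_of_mul_le_mul_left h2 hHr

end basic

section good

variable {G : Type} [Group G] [TopologicalSpace G] [IsTopologicalGroup G] {Γ : Subgroup G} (D : NilData G Γ)
  {Y : Type} [MetricSpace Y] [MeasurableSpace Y] [BorelSpace Y] {p : G → Y}

omit [BorelSpace Y] in
/-- constants -/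
lemma qd_const (hPER : S_PER) (hp : IsQ Γ p) (c : ℂ) : Qd D p (fun _ => c) := by
  intro ε hε
  refine ⟨1, one_pos, 0, fun E _ => ?_⟩
  intro f hf ha μ hμ Z _ ρ _ S π hext g φ hφ hφS w hw hw1 hwS hwE
  have h1 : ∀ z, ((π z 0 : ℝ) : ℂ) * (w z * dn p (fun _ => c) (φ z)) = c * (((π z 0 : ℝ) : ℂ) * w z) := by
    intro z
    obtain ⟨h, hh⟩ := hp.2.1 (φ z)
    rw [← hh, dn_p hp (fun _ _ _ => rfl)]
    ring
  simp only [h1]
  rw [integral_const_mul, inv_fun hf ha hμ hext hPER hw hw1 hwS]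
  simpa using hε.le

omit [MetricSpace Y] [BorelSpace Y] in
/-- the integrand is integrable -/
lemma q_int {μ : Measure Sq} {Z : Type} [MeasurableSpace Z] {ρ : Measure Z} [IsProbabilityMeasure ρ] {S : Z → Z}
    {π : Z → Sq} (hext : Ext ρ S π μ) {w : Z → ℂ} (hw : Measurable w) (hw1 : ∀ z, ‖w z‖ ≤ 1) {φ : Z → Y}
    (hφ : Measurable φ) {u : Y → ℂ} (hu : Measurable u) {B : ℝ} (hB : ∀ y, ‖u y‖ ≤ B) :
    Integrable (fun z => ((π z 0 : ℝ) : ℂ) * (w z * u (φ z))) ρ := by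
  refine Integrable.of_bound ((xm hext).mul (hw.mul (hu.comp hφ))).aestronglyMeasurable B (ae_of_all _ fun z => ?_)
  rw [norm_mul, norm_mul]
  have hB0 : 0 ≤ B := (norm_nonneg _).trans (hB (φ z))
  calc _ ≤ 1 * (1 * B) := mul_le_mul (val_le _ _) (mul_le_mul (hw1 z) (hB _) (norm_nonneg _) zero_le_one)
        (by positivity) zero_le_one
    _ = B := by ring

/-- sums -/
lemma qd_add (hp : IsQ Γ p) {F F' : G → ℂ} (hF : Continuous F) (hΓ : ∀ g γ, γ ∈ Γ → F (g * γ) = F g)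
    (hF' : Continuous F') (hΓ' : ∀ g γ, γ ∈ Γ → F' (g * γ) = F' g) (h : Qd D p F) (h' : Qd D p F') :
    Qd D p (fun g => F g + F' g) := by
  intro ε hε
  obtain ⟨δ, hδ, K, h⟩ := h (ε / 2) (by positivity)
  obtain ⟨δ', hδ', K', h'⟩ := h' (ε / 2) (by positivity)
  refine ⟨min δ δ', lt_min hδ hδ', max K K', fun E hE => ?_⟩
  intro f hf ha μ hμ Z _ ρ _ S π hext g φ hφ hφS w hw hw1 hwS hwE
  have h1 := h E (hE.mono (min_le_left _ _) (le_max_left _ _)) f hf ha μ hμ Z ρ S π hext g φ hφ hφS w hw hw1 hwS hwE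
  have h2 := h' E (hE.mono (min_le_right _ _) (le_max_right _ _)) f hf ha μ hμ Z ρ S π hext g φ hφ hφS w hw hw1 hwS hwE
  obtain ⟨B, _, hB⟩ := D.bdd hF hΓ
  obtain ⟨B', _, hB'⟩ := D.bdd hF' hΓ'
  have e : ∀ z, ((π z 0 : ℝ) : ℂ) * (w z * dn p (fun g => F g + F' g) (φ z)) =
      ((π z 0 : ℝ) : ℂ) * (w z * dn p F (φ z)) + ((π z 0 : ℝ) : ℂ) * (w z * dn p F' (φ z)) := by
    intro z
    obtain ⟨h, hh⟩ := hp.2.1 (φ z)
    rw [← hh, dn_p hp hΓ, dn_p hp hΓ', dn_p hp (fun g γ hγ => by rw [hΓ g γ hγ, hΓ' g γ hγ])]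
    ring
  simp only [e]
  rw [integral_add (q_int hext hw hw1 hφ (dn_cont D hp hF hΓ).measurable (dn_bd hp hΓ hB))
    (q_int hext hw hw1 hφ (dn_cont D hp hF' hΓ').measurable (dn_bd hp hΓ' hB'))]
  refine (norm_add_le _ _).trans ?_
  linarith

lemma qd_sum (hPER : S_PER) (hp : IsQ Γ p) {κ : Type} (T : Finset κ) (F : κ → G → ℂ) (hF : ∀ k, Continuous (F k))
    (hΓ : ∀ k g γ, γ ∈ Γ → F k (g * γ) = F k g) (h : ∀ k ∈ T, Qd D p (F k)) : Qd D p (fun g => ∑ k ∈ T, F k g) := by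
  classical
  induction T using Finset.induction_on with
  | empty => simpa using qd_const D hPER hp 0
  | insert a T ha ih =>
    simp only [sum_insert ha]
    exact qd_add D hp (hF a) (hΓ a) (continuous_finsetSum _ fun k _ => hF k)
      (fun g γ hγ => sum_congr rfl fun k _ => hΓ k g γ hγ) (h a (mem_insert_self _ _))
      (ih fun k hk => h k (mem_insert_of_mem hk))

/-- approximation -/
lemma qd_approx (hp : IsQ Γ p) {F : G → ℂ} (hF : Continuous F) (hΓ : ∀ g γ, γ ∈ Γ → F (g * γ) = F g)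
    (h : ∀ ε : ℝ, 0 < ε → ∃ F' : G → ℂ, Continuous F' ∧ (∀ g γ, γ ∈ Γ → F' (g * γ) = F' g) ∧ Qd D p F' ∧
      ∀ g, ‖F g - F' g‖ ≤ ε) : Qd D p F := by
  intro ε hε
  obtain ⟨F', hF', hΓ', hQ, happ⟩ := h (ε / 2) (by positivity)
  obtain ⟨δ, hδ, K, hQ⟩ := hQ (ε / 2) (by positivity)
  refine ⟨δ, hδ, K, fun E hE => ?_⟩
  intro f hf ha μ hμ Z _ ρ _ S π hext g φ hφ hφS w hw hw1 hwS hwE
  have h1 := hQ E hE f hf ha μ hμ Z ρ S π hext g φ hφ hφS w hw hw1 hwS hwE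
  obtain ⟨B, _, hB⟩ := D.bdd hF hΓ
  obtain ⟨B', _, hB'⟩ := D.bdd hF' hΓ'
  have i1 := q_int hext hw hw1 hφ (dn_cont D hp hF hΓ).measurable (dn_bd hp hΓ hB)
  have i2 := q_int hext hw hw1 hφ (dn_cont D hp hF' hΓ').measurable (dn_bd hp hΓ' hB')
  have e : ∫ z, ((π z 0 : ℝ) : ℂ) * (w z * dn p F (φ z)) ∂ρ =
      ∫ z, ((π z 0 : ℝ) : ℂ) * (w z * dn p F' (φ z)) ∂ρ +
      ∫ z, (((π z 0 : ℝ) : ℂ) * (w z * dn p F (φ z)) - ((π z 0 : ℝ) : ℂ) * (w z * dn p F' (φ z))) ∂ρ := by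
    rw [integral_sub i1 i2]
    ring
  rw [e]
  have h2 : ‖∫ z, (((π z 0 : ℝ) : ℂ) * (w z * dn p F (φ z)) - ((π z 0 : ℝ) : ℂ) * (w z * dn p F' (φ z))) ∂ρ‖ ≤ ε / 2 := by
    refine (norm_integral_le_of_norm_le_const (C := ε / 2) (ae_of_all _ fun z => ?_)).trans (by simp)
    obtain ⟨h, hh⟩ := hp.2.1 (φ z)
    rw [← hh, dn_p hp hΓ, dn_p hp hΓ', ← mul_sub, ← mul_sub, norm_mul, norm_mul]
    calc _ ≤ 1 * (1 * (ε / 2)) := mul_le_mul (val_le _ _) (mul_le_mul (hw1 z) (happ h) (norm_nonneg _) zero_le_one)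
          (by positivity) zero_le_one
      _ = ε / 2 := by ring
  refine (norm_add_le _ _).trans ?_
  linarith

/-- functions with small averages on short intervals -/
lemma qd_of_gd (hp : IsQ Γ p) {F : G → ℂ} (hF : Continuous F) (hΓ : ∀ g γ, γ ∈ Γ → F (g * γ) = F g)
    (hG : Gd D {f | Mul1 f} F) : Qd D p F := by
  intro ε hε
  obtain ⟨⟨B₀, hB₀⟩, hG⟩ := hG
  set K₀ : ℝ := |B₀| + 1 with hK₀
  have hK₀0 : 0 < K₀ := by positivity
  have hFK₀ : ∀ g, ‖F g‖ ≤ K₀ := fun g => (hB₀ g).trans ((le_abs_self _).trans (by linarith))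
  have hFK : ∀ g, ‖F g / (K₀ : ℂ)‖ ≤ 1 := by
    intro g
    rw [norm_div, Complex.norm_real, Real.norm_of_nonneg hK₀0.le, div_le_one hK₀0]
    exact hFK₀ g
  obtain ⟨δ, hδ, K, hG⟩ := hG ε hε
  refine ⟨δ, hδ, K, fun E hE => ?_⟩
  intro f hf ha μ hμ Z _ ρ _ S π hext g φ hφ hφS w hw hw1 hwS hwE
  obtain ⟨H₀, hmain⟩ := hG E hE
  set ι : Type := {a : G // md (D.π 0 a) ∈ E} × G with hι
  set b : ι → ℕ → ℂ := fun i h => F (i.1.1 ^ h * i.2) / (K₀ : ℂ) with hb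
  have hb1 : ∀ i h, ‖b i h‖ ≤ 1 := fun i h => hFK _
  set H : ℕ := max H₀ 1 with hH
  have hH1 : 1 ≤ H := le_max_right _ _
  have hHr : (0 : ℝ) < H := by exact_mod_cast hH1
  have hcf : Mul1 (cf0 f) := cf0_mult hf
  have hGle := fur_sup hμ b 1 hb1 H (ε / K₀ * H) H (by
    intro N hN
    have h0 := hmain (cf0 f) hcf N H (le_max_left _ _) hN
    have hpt : ∀ n ∈ Icc 1 N, (⨆ i, ‖∑ h ∈ Icc 1 H, ((f (n + h) : ℝ) : ℂ) * b i h‖) ≤ (1 / K₀) * nS D F E (cf0 f) n H := by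
      intro n hn
      have hn1 := (mem_Icc.1 hn).1
      refine Real.iSup_le (fun i => ?_) (mul_nonneg (by positivity) (nS_nonneg D _ _ _ _))
      obtain ⟨⟨a, ha⟩, y⟩ := i
      have e : ∑ h ∈ Icc 1 H, ((f (n + h) : ℝ) : ℂ) * b (⟨a, ha⟩, y) h =
          (∑ h ∈ Icc 1 H, cf0 f (n + h) * F (a ^ (n + h) * ((a ^ n)⁻¹ * y))) / (K₀ : ℂ) := by
        rw [sum_div]
        refine sum_congr rfl fun h _ => ?_
        rw [hb]
        simp only
        have e2 : a ^ (n + h) * ((a ^ n)⁻¹ * y) = a ^ h * y := by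
          rw [add_comm n h, pow_add]
          group
        rw [e2]
        unfold cf0
        rw [if_neg (by omega)]
        ring
      rw [e, norm_div, Complex.norm_real, Real.norm_of_nonneg hK₀0.le, div_eq_mul_inv, mul_comm, ← one_div]
      exact mul_le_mul_of_nonneg_left (le_nS D (F := F) hFK₀ hcf.1 n H (⟨a, ha⟩, (a ^ n)⁻¹ * y)) (by positivity)
    calc ∑ n ∈ Icc 1 N, (1 / (n : ℝ)) * (⨆ i, ‖∑ h ∈ Icc 1 H, ((f (n + h) : ℝ) : ℂ) * b i h‖) ≤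
        ∑ n ∈ Icc 1 N, (1 / (n : ℝ)) * ((1 / K₀) * nS D F E (cf0 f) n H) :=
          sum_le_sum fun n hn => mul_le_mul_of_nonneg_left (hpt n hn) (by positivity)
      _ = (1 / K₀) * ∑ n ∈ Icc 1 N, (1 / (n : ℝ)) * nS D F E (cf0 f) n H := by
          rw [mul_sum]
          exact sum_congr rfl fun n _ => by ring
      _ ≤ (1 / K₀) * (ε * H * Real.log N) := mul_le_mul_of_nonneg_left h0 (by positivity)
      _ = ε / K₀ * H * Real.log N := by ring)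
  set Gf : Sq → ℝ := fun x => ⨆ i, ‖∑ h ∈ Icc 1 H, ((x (h : ℤ) : ℝ) : ℂ) * b i h‖ with hGf
  have hGb : ∀ x : Sq, BddAbove (Set.range fun i => ‖∑ h ∈ Icc 1 H, ((x (h : ℤ) : ℝ) : ℂ) * b i h‖) := by
    intro x
    refine ⟨∑ h ∈ Icc 1 H, 1, ?_⟩
    rintro _ ⟨i, rfl⟩
    refine (norm_sum_le _ _).trans (sum_le_sum fun h _ => ?_)
    rw [norm_mul]
    calc _ ≤ 1 * 1 := mul_le_mul (val_le _ _) (hb1 _ _) (norm_nonneg _) zero_le_one
      _ = 1 := one_mul _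
  have hprob : IsProbabilityMeasure μ := hμ.1
  have hGn : ∀ x, 0 ≤ Gf x := fun x => Real.iSup_nonneg fun _ => norm_nonneg _
  have hGi : Integrable Gf μ := by
    refine Integrable.of_bound (sup_cont b 1 hb1 H).aestronglyMeasurable (∑ h ∈ Icc 1 H, 1) (ae_of_all _ fun x => ?_)
    rw [Real.norm_of_nonneg (hGn x)]
    refine Real.iSup_le (fun i => ?_) (by positivity)
    refine (norm_sum_le _ _).trans (sum_le_sum fun h _ => ?_)
    rw [norm_mul]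
    calc _ ≤ 1 * 1 := mul_le_mul (val_le _ _) (hb1 _ _) (norm_nonneg _) zero_le_one
      _ = 1 := one_mul _
  have h1 := Pool.Agent.Helper42K9.AC.abs_ Z ρ S π μ hext {ψ | ∃ (i : ι) (c : ℂ), ‖c‖ = 1 ∧ ψ = fun h => c * b i h} H Gf hH1
    hGi hGn (by
      rintro x _ ⟨i, c, hc, rfl⟩
      have e : ∑ h ∈ Icc 1 H, ((x (h : ℤ) : ℝ) : ℂ) * (c * b i h) = c * ∑ h ∈ Icc 1 H, ((x (h : ℤ) : ℝ) : ℂ) * b i h := by
        rw [mul_sum]
        exact sum_congr rfl fun h _ => by ring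
      rw [e, norm_mul, hc, one_mul]
      exact le_ciSup (hGb x) i)
    (fun z => w z * (dn p F (φ z) / (K₀ : ℂ)))
    (hw.mul (((dn_cont D hp hF hΓ).measurable.comp hφ).div_const (K₀ : ℂ))) (fun z => by
      rw [norm_mul]
      obtain ⟨h, hh⟩ := hp.2.1 (φ z)
      rw [← hh, dn_p hp hΓ]
      calc _ ≤ 1 * 1 := mul_le_mul (hw1 z) (hFK h) (norm_nonneg _) zero_le_one
        _ = 1 := one_mul _) (by
      filter_upwards [hwS, hφS, hwE] with z hz hzo hzE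
      by_cases hz0 : w z = 0
      · left
        intro n
        rw [hz, hz0, zero_mul]
      · right
        obtain ⟨h₀, hh₀⟩ := hp.2.1 (φ z)
        have hn : ‖w z‖ ≠ 0 := norm_ne_zero_iff.2 hz0
        refine ⟨‖w z‖, norm_nonneg _, hw1 z, _, ⟨(⟨g z, hzE hz0⟩, h₀), w z / ‖w z‖, ?_, rfl⟩, fun n => ?_⟩
        · rw [norm_div, Complex.norm_real, norm_norm, div_self hn]
        · rw [hz, hzo n h₀ hh₀, dn_p hp hΓ]
          have : ((‖w z‖ : ℝ) : ℂ) ≠ 0 := by exact_mod_cast hn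
          show w z * (F (g z ^ n * h₀) / (K₀ : ℂ)) = (‖w z‖ : ℂ) * (w z / ‖w z‖ * (F (g z ^ n * h₀) / (K₀ : ℂ)))
          field_simp)
  have h2 : (H : ℝ) * ‖∫ z, ((π z 0 : ℝ) : ℂ) * (w z * (dn p F (φ z) / (K₀ : ℂ))) ∂ρ‖ ≤ H * (ε / K₀) :=
    (h1.trans hGle).trans (le_of_eq (mul_comm _ _))
  have h3 := le_of_mul_le_mul_left h2 hHr
  have hKc : (K₀ : ℂ) ≠ 0 := by exact_mod_cast hK₀0.ne'
  have e : ∫ z, ((π z 0 : ℝ) : ℂ) * (w z * dn p F (φ z)) ∂ρ =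
      K₀ * ∫ z, ((π z 0 : ℝ) : ℂ) * (w z * (dn p F (φ z) / (K₀ : ℂ))) ∂ρ := by
    rw [← integral_const_mul]
    refine integral_congr_ae (ae_of_all _ fun z => ?_)
    show ((π z 0 : ℝ) : ℂ) * (w z * dn p F (φ z)) = K₀ * (((π z 0 : ℝ) : ℂ) * (w z * (dn p F (φ z) / (K₀ : ℂ))))
    field_simp
  rw [e, norm_mul, Complex.norm_real, Real.norm_of_nonneg hK₀0.le]
  calc K₀ * _ ≤ K₀ * (ε / K₀) := mul_le_mul_of_nonneg_left h3 hK₀0.le
    _ = ε := by field_simp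

/-- **all functions** -/
theorem qd_all (hPER : S_PER) (hp : IsQ Γ p) (n : ℕ) :
    ∀ F : G → ℂ, Continuous F → (∀ g γ, γ ∈ Γ → F (g * γ) = F g) → (∀ z ∈ D.fil n, ∀ g, F (z * g) = F g) →
    Qd D p F := by
  induction n with
  | zero =>
    intro F hF hΓ hinv
    have hc : F = fun _ => F 1 := by
      funext g
      have := hinv g (D.mem0 g) 1
      rwa [mul_one] at this
    rw [hc]
    exact qd_const D hPER hp _
  | succ n ih =>
    intro F hF hΓ hinv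
    classical
    refine qd_approx D hp hF hΓ fun ε hε => ?_
    obtain ⟨T, Φ, h1, _, h3⟩ := D.vert hF hΓ hinv hε
    refine ⟨fun g => ∑ k ∈ T, Φ k g, continuous_finsetSum _ fun k _ => (h1 k).1,
      fun g γ hγ => sum_congr rfl fun k _ => (h1 k).2.1 g γ hγ,
      qd_sum D hPER hp T Φ (fun k => (h1 k).1) (fun k => (h1 k).2.1) fun k _ => ?_, h3⟩
    by_cases hk : k = 0
    · refine ih (Φ k) (h1 k).1 (h1 k).2.1 fun z hz g => ?_
      rw [(h1 k).2.2 z hz g, hk]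
      have : dt (0 : D.ι n → ℤ) (D.π n z) = 0 := by unfold dt; simp
      rw [this, ee_zero, one_mul]
    · exact qd_of_gd D hp (h1 k).1 (h1 k).2.1 (gd_char D hk (h1 k) fun f hf => hf)

end good

end Pool.Agent.Helper16.NL
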