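import Pool.Graph.R_pool_sql_team_seeded_1e53cb71.Helper44K9.FS.Fac

/-! Windows from couplings with families of maps. -/

set_option autoImplicit false

namespace Pool.Agent.Helper16.NL

open Finset MeasureTheory Filter Topology
open Pool.Agent.Helper44K9.FB (lf)
open Pool.Agent.Helper44K9.FS

/-- couplings with families -/
theorem facJ {X : Type*} [MetricSpace X] [CompactSpace X] [MeasurableSpace X] [BorelSpace X] {T : X → X}
    (hT : Continuous T) (f : C(X, ℂ)) (u : ℕ → ℂ)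
    {Ω Y : Type*} [MetricSpace Ω] [CompactSpace Ω] [MeasurableSpace Ω] [BorelSpace Ω]
    [TopologicalSpace Y] [CompactSpace Y] [SecondCountableTopology Y] [MeasurableSpace Y] [BorelSpace Y]
    {d : ℕ} {G : Type*} (act : G → Y → Y) (par : G → Fin d → UnitAddCircle) (K : Set (Fin d → ℤ))
    (hMomo : ∀ E : Set (Fin d → UnitAddCircle), IsCompact E → (∀ k ∈ K, volume (lf k '' E) = 0 ∧ ∀ x ∈ E,
      addOrderOf (lf k x) = 0) → ∀ F : C(Y, ℂ), Momo u (Win act par E F))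
    (g : Ω → G) (hg : Measurable fun ω => par (g ω))
    (ρ : Measure (X × Ω × Y)) [IsFiniteMeasure ρ]
    (hρ : MeasurePreserving (fun z : X × Ω × Y => (T z.1, z.2.1, act (g z.2.1) z.2.2)) ρ ρ)
    (hsing : ∀ k ∈ K, (ρ.map fun z => lf k (par (g z.2.1))) ⟂ₘ (volume : Measure UnitAddCircle))
    (hirr : ∀ k ∈ K, ∀ᵐ z ∂ρ, addOrderOf (lf k (par (g z.2.1))) = 0)
    (F₀ : C(Ω × Y, ℂ)) (ε : ℝ) (hε : 0 < ε) (hF₀ : ∫ z, ‖f z.1 - F₀ z.2‖ ∂ρ ≤ ε ^ 2 / 16) :
    ∃ W : Set (ℕ → ℂ), Momo u W ∧ ∀ H : ℕ, 1 ≤ H →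
      ρ.real Set.univ - ε ≤ (ρ.map Prod.fst).real {y | ∃ w ∈ W, ∑ h ∈ Icc 1 H, ‖f (T^[h] y) - w h‖ < ε * H} := by
  classical
  obtain ⟨E, hEc, hE, hρE⟩ := exists_compact ρ (fun z => par (g z.2.1)) (hg.comp measurable_snd.fst) K hsing hirr
    (ENNReal.ofReal (ε / 4)) (by simp [hε])
  -- the approximation
  have hcov0 := isCompact_univ (X := Ω)
  obtain ⟨t, ht⟩ := hcov0.elim_finite_subcover (fun ω : Ω => {ω' | dist (F₀.curry ω') (F₀.curry ω) < ε / 4})
    (fun ω => isOpen_lt (Continuous.dist F₀.curry.continuous continuous_const) continuous_const)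
    (fun ω _ => Set.mem_iUnion.2 ⟨ω, by
      rw [Set.mem_ofPred_eq, dist_self]; positivity⟩)
  refine ⟨⋃ ω ∈ (t : Set Ω), Win act par E (F₀.curry ω), Momo.biUnion _ t.finite_toSet fun ω _ => hMomo E hEc hE _,
    fun H hH => ?_⟩
  have hHr : (1 : ℝ) ≤ H := by exact_mod_cast hH
  set W : Set (ℕ → ℂ) := ⋃ ω ∈ (t : Set Ω), Win act par E (F₀.curry ω) with hW
  set O : Set X := {y | ∃ w ∈ W, ∑ h ∈ Icc 1 H, ‖f (T^[h] y) - w h‖ < ε * H} with hO
  have hOo : IsOpen O := by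
    have : O = ⋃ w ∈ W, {y | ∑ h ∈ Icc 1 H, ‖f (T^[h] y) - w h‖ < ε * H} := by
      ext y
      rw [hO, Set.mem_ofPred_eq, Set.mem_iUnion₂]
      constructor
      · rintro ⟨w, h1, h2⟩; exact ⟨w, h1, h2⟩
      · rintro ⟨w, h1, h2⟩; exact ⟨w, h1, h2⟩
    rw [this]
    refine isOpen_biUnion fun w _ => isOpen_lt ?_ continuous_const
    exact continuous_finsetSum _ fun h _ => ((f.continuous.comp (hT.iterate h)).sub continuous_const).norm
  rw [map_measureReal_apply measurable_fst hOo.measurableSet]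
  -- iterates
  set R : X × Ω × Y → X × Ω × Y := fun z => (T z.1, z.2.1, act (g z.2.1) z.2.2) with hR
  have hRn : ∀ (n : ℕ) (z : X × Ω × Y), R^[n] z = (T^[n] z.1, z.2.1, (act (g z.2.1))^[n] z.2.2) := by
    intro n z
    induction n with
    | zero => rfl
    | succ n ih =>
      rw [Function.iterate_succ_apply', ih, hR]
      simp only [Function.iterate_succ_apply']
  -- the bad set
  have hFm : Measurable fun z : X × Ω × Y => F₀ z.2 := F₀.continuous.measurable.comp measurable_snd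
  have hfm : Measurable fun z : X × Ω × Y => f z.1 := f.continuous.measurable.comp measurable_fst
  have hdi : Integrable (fun z : X × Ω × Y => ‖f z.1 - F₀ z.2‖) ρ := by
    refine Integrable.of_bound (hfm.sub hFm).norm.aestronglyMeasurable (‖f‖ + ‖F₀‖) (ae_of_all _ fun z => ?_)
    rw [norm_norm]
    exact (norm_sub_le _ _).trans (add_le_add (f.norm_coe_le_norm _) (F₀.norm_coe_le_norm _))
  set ψ : X × Ω × Y → ℝ := fun z => ∑ h ∈ Icc 1 H, ‖f (R^[h] z).1 - F₀ (R^[h] z).2‖ with hψ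
  have hdh : ∀ h : ℕ, Integrable (fun z => ‖f (R^[h] z).1 - F₀ (R^[h] z).2‖) ρ := fun h =>
    (hρ.iterate h).integrable_comp_of_integrable hdi
  have hψi : Integrable ψ ρ := integrable_finsetSum _ fun h _ => hdh h
  have hψint : ∫ z, ψ z ∂ρ ≤ H * (ε ^ 2 / 16) := by
    rw [hψ, integral_finsetSum _ fun h _ => hdh h]
    have h1 : ∀ h ∈ Icc 1 H, ∫ z, ‖f (R^[h] z).1 - F₀ (R^[h] z).2‖ ∂ρ ≤ ε ^ 2 / 16 := by
      intro h _
      have h2 : ∫ z, ‖f (R^[h] z).1 - F₀ (R^[h] z).2‖ ∂ρ = ∫ z, ‖f z.1 - F₀ z.2‖ ∂ρ := by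
        have h3 := (hρ.iterate h)
        have h4 : ∫ z, ‖f z.1 - F₀ z.2‖ ∂ρ = ∫ z, ‖f z.1 - F₀ z.2‖ ∂(ρ.map (R^[h])) := by rw [h3.map_eq]
        rw [h4, integral_map h3.measurable.aemeasurable]
        rw [h3.map_eq]
        exact hdi.aestronglyMeasurable
      rw [h2]; exact hF₀
    refine (sum_le_sum h1).trans (le_of_eq ?_)
    rw [sum_const, Nat.card_Icc, nsmul_eq_mul, Nat.add_sub_cancel]
  have hbad3 : ρ.real {z | ε / 2 * H ≤ ψ z} ≤ ε / 4 := by
    have h1 := mul_meas_ge_le_integral_of_nonneg (ae_of_all _ fun z => sum_nonneg fun h _ => norm_nonneg _) hψi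
      (ε / 2 * H)
    have h2 : ε / 2 * H * ρ.real {z | ε / 2 * H ≤ ψ z} ≤ ε / 2 * H * (ε / 8) := by
      refine (h1.trans hψint).trans (le_of_eq ?_); ring
    have h3 := le_of_mul_le_mul_left h2 (by positivity)
    linarith
  have hbad1 : ρ.real {z | par (g z.2.1) ∉ E} ≤ ε / 4 := by
    unfold Measure.real
    rw [← ENNReal.toReal_ofReal (show 0 ≤ ε / 4 by positivity)]
    exact ENNReal.toReal_mono ENNReal.ofReal_ne_top hρE.le
  have hcov : (Set.univ : Set (X × Ω × Y)) ⊆ (Prod.fst ⁻¹' O ∪ {z | par (g z.2.1) ∉ E}) ∪ {z | ε / 2 * H ≤ ψ z} := by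
    intro z _
    by_cases h1 : par (g z.2.1) ∉ E
    · exact Or.inl (Or.inr h1)
    by_cases h3 : ε / 2 * H ≤ ψ z
    · exact Or.inr h3
    refine Or.inl (Or.inl ?_)
    have h4 := ht (Set.mem_univ z.2.1)
    rw [Set.mem_iUnion₂] at h4
    obtain ⟨ω, hω, hzω⟩ := h4
    refine ⟨fun h => F₀.curry ω ((act (g z.2.1))^[h] z.2.2), ?_, ?_⟩
    · rw [hW, Set.mem_iUnion₂]
      exact ⟨ω, hω, g z.2.1, not_not.1 h1, z.2.2, rfl⟩
    · have h5 : ∀ h ∈ Icc 1 H, ‖f (T^[h] z.1) - F₀.curry ω ((act (g z.2.1))^[h] z.2.2)‖ ≤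
          ‖f (R^[h] z).1 - F₀ (R^[h] z).2‖ + ε / 4 := by
        intro h _
        rw [hRn]
        have h7 : dist (F₀ (z.2.1, (act (g z.2.1))^[h] z.2.2)) (F₀ (ω, (act (g z.2.1))^[h] z.2.2)) ≤ ε / 4 :=
          (ContinuousMap.dist_apply_le_dist (f := F₀.curry z.2.1) (g := F₀.curry ω)
            ((act (g z.2.1))^[h] z.2.2)).trans (le_of_lt hzω)
        rw [dist_eq_norm] at h7
        have h8 : f (T^[h] z.1) - F₀.curry ω ((act (g z.2.1))^[h] z.2.2) =
            (f (T^[h] z.1) - F₀ (z.2.1, (act (g z.2.1))^[h] z.2.2)) +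
            (F₀ (z.2.1, (act (g z.2.1))^[h] z.2.2) - F₀ (ω, (act (g z.2.1))^[h] z.2.2)) := by
          rw [ContinuousMap.curry_apply]
          ring
        rw [h8]
        exact (norm_add_le _ _).trans (add_le_add le_rfl h7)
      calc ∑ h ∈ Icc 1 H, ‖f (T^[h] z.1) - F₀.curry ω ((act (g z.2.1))^[h] z.2.2)‖ ≤
          ∑ h ∈ Icc 1 H, (‖f (R^[h] z).1 - F₀ (R^[h] z).2‖ + ε / 4) := sum_le_sum h5
        _ = ψ z + H * (ε / 4) := by
            rw [sum_add_distrib, sum_const, Nat.card_Icc, nsmul_eq_mul, Nat.add_sub_cancel]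
        _ < ε / 2 * H + H * (ε / 4) := by linarith [not_le.1 h3]
        _ ≤ ε * H := by nlinarith
  have h9 : ρ.real Set.univ ≤ ρ.real (Prod.fst ⁻¹' O) + ρ.real {z | par (g z.2.1) ∉ E} +
      ρ.real {z | ε / 2 * H ≤ ψ z} := by
    refine (measureReal_mono hcov).trans ?_
    refine (measureReal_union_le _ _).trans (add_le_add ?_ le_rfl)
    exact measureReal_union_le _ _
  linarith

end Pool.Agent.Helper16.NL
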