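import Pool.Agent.Helper16.NL.Eqa
import Pool.Graph.R_pool_sql_team_seeded_1e53cb71.Helper44K9.FN.Pusha
import Pool.Graph.R_pool_sql_team_seeded_1e53cb71.Helper44K9.FU.Tk

/-! Long sums: a criterion of Kátai type which only uses large primes, and nilsequences. -/

set_option autoImplicit false

namespace Pool.Agent.Helper16.NL

open Finset Topology MeasureTheory
open Pool.Agent.Helper44K9.FN (pw cw)
open Pool.Agent.Helper44K9.FU (Mul1)
open Pool.Agent.Helper44K9.FU.LsL (dual exists_primes)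

/-- primes beyond a bound -/
lemma primes_beyond (A : ℝ) (z : ℕ) : ∃ I : Finset ℕ, (∀ p ∈ I, p.Prime ∧ z < p) ∧ A ≤ ∑ p ∈ I, 1 / (p : ℝ) := by
  obtain ⟨I, hI, hIA⟩ := exists_primes (A + z)
  refine ⟨I.filter (fun p => z < p), fun p hp => ⟨hI p (mem_filter.1 hp).1, (mem_filter.1 hp).2⟩, ?_⟩
  rw [← sum_filter_add_sum_filter_not I (fun p => z < p)] at hIA
  have h1 : ∑ p ∈ I.filter (fun p => ¬ z < p), 1 / (p : ℝ) ≤ z := by
    have h2 : I.filter (fun p => ¬ z < p) ⊆ Ioc 0 z := by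
      intro p hp
      rw [mem_filter] at hp
      rw [mem_Ioc]
      exact ⟨(hI p hp.1).pos, not_lt.1 hp.2⟩
    calc ∑ p ∈ I.filter (fun p => ¬ z < p), 1 / (p : ℝ) ≤ ∑ p ∈ I.filter (fun p => ¬ z < p), (1 : ℝ) := by
          refine sum_le_sum fun p hp => ?_
          have hp1 : (1 : ℝ) ≤ p := by exact_mod_cast (hI p (mem_filter.1 hp).1).one_lt.le
          rw [div_le_one (by linarith)]
          exact hp1
      _ = #(I.filter (fun p => ¬ z < p)) := by simp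
      _ ≤ #(Ioc 0 z) := by exact_mod_cast card_le_card h2
      _ = z := by simp
  linarith

/-- a dyadic block with many elements -/
lemma block {P : Finset ℕ} {R k₁ : ℕ} (hR : 2 * R < 2 ^ k₁) (hP : ∀ p ∈ P, 2 ^ k₁ ≤ p) (h : 1 ≤ ∑ p ∈ P, 1 / (p : ℝ)) :
    ∃ k, R < #(P.filter (fun p => Nat.log 2 p = k)) := by
  by_contra hcon
  push Not at hcon
  obtain ⟨k₂, hk₂⟩ : ∃ k₂, ∀ p ∈ P, Nat.log 2 p < k₂ :=
    ⟨P.sup (Nat.log 2) + 1, fun p hp => Nat.lt_succ_of_le (le_sup (f := Nat.log 2) hp)⟩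
  have h1 : ∑ p ∈ P, 1 / (p : ℝ) = ∑ k ∈ Ico k₁ k₂, ∑ p ∈ P.filter (fun p => Nat.log 2 p = k), 1 / (p : ℝ) := by
    refine (sum_fiberwise_of_maps_to (fun p hp => ?_) _).symm
    rw [mem_Ico]
    refine ⟨?_, hk₂ p hp⟩
    have := Nat.log_mono_right (b := 2) (hP p hp)
    rwa [Nat.log_pow (by norm_num)] at this
  have h2 : ∀ k, ∑ p ∈ P.filter (fun p => Nat.log 2 p = k), 1 / (p : ℝ) ≤ R * (1 / 2) ^ k := by
    intro k
    calc ∑ p ∈ P.filter (fun p => Nat.log 2 p = k), 1 / (p : ℝ) ≤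
        ∑ p ∈ P.filter (fun p => Nat.log 2 p = k), ((1 : ℝ) / 2) ^ k := by
          refine sum_le_sum fun p hp => ?_
          rw [mem_filter] at hp
          have hp0 : p ≠ 0 := by
            have := hP p hp.1
            have : 0 < 2 ^ k₁ := by positivity
            omega
          have h3 := Nat.pow_log_le_self 2 hp0
          rw [hp.2] at h3
          rw [one_div_pow]
          exact one_div_le_one_div_of_le (by positivity) (by exact_mod_cast h3)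
      _ = #(P.filter (fun p => Nat.log 2 p = k)) * (1 / 2 : ℝ) ^ k := by rw [sum_const, nsmul_eq_mul]
      _ ≤ R * (1 / 2) ^ k := mul_le_mul_of_nonneg_right (by exact_mod_cast hcon k) (by positivity)
  have h3 : ∑ k ∈ Ico k₁ k₂, (R : ℝ) * (1 / 2) ^ k ≤ R * (2 * (1 / 2) ^ k₁) := by
    rw [← mul_sum]
    refine mul_le_mul_of_nonneg_left ?_ (Nat.cast_nonneg _)
    rcases le_total k₁ k₂ with h4 | h4
    · rw [geom_sum_Ico (by norm_num) h4]
      have : (0 : ℝ) ≤ (1 / 2) ^ k₂ := by positivity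
      have h5 : ((1 / 2 : ℝ) ^ k₂ - (1 / 2) ^ k₁) / (1 / 2 - 1) = 2 * ((1 / 2) ^ k₁ - (1 / 2) ^ k₂) := by ring
      rw [h5]
      linarith
    · rw [Ico_eq_empty_of_le h4, sum_empty]
      positivity
  have h4 : ∑ p ∈ P, 1 / (p : ℝ) ≤ R * (2 * (1 / 2) ^ k₁) := by
    rw [h1]
    exact (sum_le_sum fun k _ => h2 k).trans h3
  have h5 : (R : ℝ) * (2 * (1 / 2) ^ k₁) < 1 := by
    have h6 : (2 * R : ℝ) < 2 ^ k₁ := by exact_mod_cast hR
    rw [one_div_pow, mul_one_div, mul_div_assoc', div_lt_one (by positivity)]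
    linarith
  linarith

open Classical in
/-- the criterion -/
theorem kata2 (T : Set (ℕ → ℂ)) (hTb : ∀ ψ ∈ T, ∀ m, ‖ψ m‖ ≤ 1)
    (hpair : ∀ ε : ℝ, 0 < ε → ∃ z : ℕ, ∀ p q : ℕ, p.Prime → q.Prime → z < p → z < q → p ≠ q → ∃ X₀ : ℕ, ∀ X ≥ X₀, ∀ ψ ∈ T,
      pw (fun m => ψ (p * m)) (fun m => ψ (q * m)) 0 X ≤ ε * X) :
    ∀ ε : ℝ, 0 < ε → ∃ X₀ : ℕ, ∀ X ≥ X₀, ∀ f : ℕ → ℂ, Mul1 f → ∀ ψ ∈ T, cw f ψ 0 X ≤ ε * X := by
  intro ε hε
  set ε' : ℝ := ε ^ 2 / 256 with hε'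
  have hε'0 : 0 < ε' := by positivity
  obtain ⟨z, hz⟩ := hpair ε' hε'0
  obtain ⟨R, hR⟩ := exists_nat_ge (256 / ε ^ 2)
  obtain ⟨z₂, hz₂⟩ := exists_nat_ge (8 / (ε / 2))
  set k₁ := z + z₂ + 2 * R + 1 with hk₁
  have hk₁' : k₁ < 2 ^ k₁ := Nat.lt_two_pow_self
  obtain ⟨I, hI, hIA⟩ := primes_beyond (100 / (ε / 2) ^ 2 + 1) (2 ^ k₁)
  obtain ⟨H₀, hH₀⟩ := Pool.Agent.Helper44K9.FN.pusha Pool.Agent.Helper44K9.FU.tk I (ε / 2) (by positivity) (fun p hp => by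
    refine ⟨(hI p hp).1, hz₂.trans ?_⟩
    have := (hI p hp).2
    have : z₂ ≤ p := by omega
    exact_mod_cast this)
  have hpair2 : ∀ p q : ℕ, ∃ X₀ : ℕ, p ∈ I → q ∈ I → p ≠ q → ∀ X ≥ X₀, ∀ ψ ∈ T,
      pw (fun m => ψ (p * m)) (fun m => ψ (q * m)) 0 X ≤ ε' * X := by
    intro p q
    by_cases h : p ∈ I ∧ q ∈ I ∧ p ≠ q
    · obtain ⟨X₀, hX₀⟩ := hz p q (hI p h.1).1 (hI q h.2.1).1 (by have := (hI p h.1).2; omega)
        (by have := (hI q h.2.1).2; omega) h.2.2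
      exact ⟨X₀, fun _ _ _ => hX₀⟩
    · exact ⟨0, fun a b c => absurd ⟨a, b, c⟩ h⟩
  choose Y hY using hpair2
  obtain ⟨H₁, hH₁⟩ : ∃ H₁ : ℕ, ∀ p ∈ I, ∀ q ∈ I, Y p q ≤ H₁ := by
    refine ⟨I.sup fun p => I.sup fun q => Y p q, fun p hp q hq => ?_⟩
    exact (le_sup (f := fun q => Y p q) hq).trans (le_sup (f := fun p => I.sup fun q => Y p q) hp)
  obtain ⟨B, hB⟩ : ∃ B : ℕ, ∀ p ∈ I, p ≤ B := ⟨I.sup id, fun p hp => le_sup (f := id) hp⟩
  refine ⟨H₀ + B * (H₁ + 1) + 2 * B + 1, fun X hX f hf ψ hψT => ?_⟩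
  have hψ := hTb ψ hψT
  have hXpos : (0 : ℝ) < X := by
    have : 0 < X := by omega
    exact_mod_cast this
  by_contra hcon
  rw [not_le] at hcon
  have hbad := hH₀ X (by omega) f hf ψ hψ 0
  set bad := I.filter (fun p => cw f (fun m => ψ (p * m)) (0 / p) (X / p) < (cw f ψ 0 X / X - ε / 2) * ((X / p : ℕ) : ℝ)) with hbadd
  set P := I.filter (fun p => ¬ cw f (fun m => ψ (p * m)) (0 / p) (X / p) < (cw f ψ 0 X / X - ε / 2) * ((X / p : ℕ) : ℝ)) with hP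
  have hPmass : 1 ≤ ∑ p ∈ P, 1 / (p : ℝ) := by
    rw [← sum_filter_add_sum_filter_not I (fun p => cw f (fun m => ψ (p * m)) (0 / p) (X / p) <
      (cw f ψ 0 X / X - ε / 2) * ((X / p : ℕ) : ℝ))] at hIA
    linarith
  have hPI : P ⊆ I := filter_subset _ _
  have hgood : ∀ p ∈ P, ε / 2 * ((X / p : ℕ) : ℝ) ≤ cw f (fun m => ψ (p * m)) 0 (X / p) := by
    intro p hp
    have h1 := not_lt.1 (mem_filter.1 hp).2
    rw [Nat.zero_div] at h1
    refine le_trans ?_ h1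
    refine mul_le_mul_of_nonneg_right ?_ (Nat.cast_nonneg _)
    have : ε < cw f ψ 0 X / X := by rw [lt_div_iff₀ hXpos]; exact hcon
    linarith
  obtain ⟨k, hk⟩ := block (P := P) (R := R) (k₁ := k₁) (by omega) (fun p hp => (hI p (hPI hp)).2.le) hPmass
  set Pk := P.filter (fun p => Nat.log 2 p = k) with hPk
  have hPkI : ∀ p ∈ Pk, p ∈ I := fun p hp => hPI (mem_filter.1 hp).1
  have hlog : ∀ p ∈ Pk, 2 ^ k ≤ p ∧ p < 2 ^ (k + 1) := by
    intro p hp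
    have h1 := (mem_filter.1 hp).2
    have hp0 : p ≠ 0 := (hI p (hPkI p hp)).1.ne_zero
    refine ⟨?_, ?_⟩
    · rw [← h1]; exact Nat.pow_log_le_self 2 hp0
    · rw [← h1]; exact Nat.lt_pow_succ_log_self (by norm_num) p
  set g : ℕ → ℕ → ℂ := fun p m => if m ≤ X / p then ψ (p * m) else 0 with hg
  have hwin : ∀ p ∈ Pk, X / p ≤ X / 2 ^ k := fun p hp => Nat.div_le_div_left (hlog p hp).1 (by positivity)
  have hW : ∀ p ∈ Pk, ∑ m ∈ Ioc 0 (X / 2 ^ k), f m * g p m = ∑ m ∈ Ioc 0 (0 + X / p), f m * ψ (p * m) := by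
    intro p hp
    have h1 : Ioc 0 (0 + X / p) = (Ioc 0 (X / 2 ^ k)).filter (fun m => m ≤ X / p) := by
      ext m
      rw [mem_filter, mem_Ioc, mem_Ioc]
      have := hwin p hp
      omega
    rw [h1, sum_filter]
    refine sum_congr rfl fun m _ => ?_
    simp only [hg]
    split_ifs
    · rfl
    · rw [mul_zero]
  have hc : ∀ p : ℕ, ∃ c : ℂ, ‖c‖ ≤ 1 ∧ c * ∑ m ∈ Ioc 0 (0 + X / p), f m * ψ (p * m) =
      (cw f (fun m => ψ (p * m)) 0 (X / p) : ℝ) := by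
    intro p
    set w := ∑ m ∈ Ioc 0 (0 + X / p), f m * ψ (p * m) with hw
    have h1 : cw f (fun m => ψ (p * m)) 0 (X / p) = ‖w‖ := rfl
    rw [h1]
    by_cases h0 : w = 0
    · exact ⟨0, by simp, by rw [h0]; simp⟩
    · have h2 : ‖w‖ ≠ 0 := norm_ne_zero_iff.2 h0
      refine ⟨(starRingEnd ℂ) w / ‖w‖, ?_, ?_⟩
      · rw [norm_div, RCLike.norm_conj, Complex.norm_real, norm_norm, div_self h2]
      · rw [div_mul_eq_mul_div, mul_comm ((starRingEnd ℂ) w), Complex.mul_conj', sq, mul_div_assoc,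
          div_self (by exact_mod_cast h2), mul_one]
  choose c hc1 hc2 using hc
  have h1 := dual Pk (Ioc 0 (X / 2 ^ k)) g f c hf.1
  have h2 : ∑ p ∈ Pk, c p * ∑ m ∈ Ioc 0 (X / 2 ^ k), f m * g p m =
      ((∑ p ∈ Pk, cw f (fun m => ψ (p * m)) 0 (X / p) : ℝ) : ℂ) := by
    push_cast
    refine sum_congr rfl fun p hp => ?_
    rw [hW p hp, hc2]
  set N : ℝ := (#Pk : ℝ) with hN
  have hN0 : (256 / ε ^ 2) < N := by
    refine lt_of_le_of_lt hR ?_
    rw [hN]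
    exact_mod_cast hk
  have hNpos : 0 < N := lt_trans (by positivity) hN0
  have h2k : (0 : ℝ) < 2 ^ k := by positivity
  have h3 : N * (ε / 2 * (X / (4 * 2 ^ k))) ≤ ∑ p ∈ Pk, cw f (fun m => ψ (p * m)) 0 (X / p) := by
    rw [hN, ← nsmul_eq_mul, ← sum_const]
    refine sum_le_sum fun p hp => ?_
    refine le_trans ?_ (hgood p (mem_filter.1 hp).1)
    refine mul_le_mul_of_nonneg_left ?_ (by positivity)
    have h5 : X < X / p * p + p := Nat.lt_div_mul_add (hI p (hPkI p hp)).1.pos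
    have h6 : (X : ℝ) < ((X / p : ℕ) : ℝ) * p + p := by exact_mod_cast h5
    have h7 : 2 * (p : ℝ) ≤ X := by
      have : 2 * p ≤ X := (Nat.mul_le_mul_left 2 (hB p (hPkI p hp))).trans (by omega)
      exact_mod_cast this
    have h8 : (p : ℝ) ≤ 2 * 2 ^ k := by
      have : p ≤ 2 * 2 ^ k := by have := (hlog p hp).2; rw [pow_succ] at this; omega
      exact_mod_cast this
    rw [div_le_iff₀ (by positivity)]
    have h9 : (0 : ℝ) ≤ ((X / p : ℕ) : ℝ) := Nat.cast_nonneg _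
    nlinarith
  have hnn : 0 ≤ ∑ p ∈ Pk, cw f (fun m => ψ (p * m)) 0 (X / p) := sum_nonneg fun p _ => norm_nonneg _
  rw [h2, Complex.norm_real, Real.norm_of_nonneg hnn, Nat.card_Ioc, Nat.sub_zero] at h1
  have hgg : ∀ p q : ℕ, p ∈ Pk → q ∈ Pk → ∑ m ∈ Ioc 0 (X / 2 ^ k), g p m * (starRingEnd ℂ) (g q m) =
      ∑ m ∈ Ioc 0 (0 + min (X / p) (X / q)), ψ (p * m) * (starRingEnd ℂ) (ψ (q * m)) := by
    intro p q hp hq
    have h2 : Ioc 0 (0 + min (X / p) (X / q)) = (Ioc 0 (X / 2 ^ k)).filter (fun m => m ≤ X / p ∧ m ≤ X / q) := by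
      ext m
      rw [mem_filter, mem_Ioc, mem_Ioc]
      have := hwin p hp
      have := hwin q hq
      generalize X / p = y at *
      generalize X / q = z at *
      omega
    rw [h2, sum_filter]
    refine sum_congr rfl fun m _ => ?_
    simp only [hg]
    by_cases h3 : m ≤ X / p
    · by_cases h4 : m ≤ X / q
      · rw [if_pos h3, if_pos h4, if_pos ⟨h3, h4⟩]
      · rw [if_neg h4, if_neg (fun h : m ≤ X / p ∧ m ≤ X / q => h4 h.2), map_zero, mul_zero]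
    · rw [if_neg h3, if_neg (fun h : m ≤ X / p ∧ m ≤ X / q => h3 h.1), zero_mul]
  have hXk : ((X / 2 ^ k : ℕ) : ℝ) ≤ X / 2 ^ k := by
    have := Nat.cast_div_le (α := ℝ) (m := X) (n := 2 ^ k)
    push_cast at this
    exact this
  have h4 : ∑ p ∈ Pk, ∑ q ∈ Pk, ‖c p‖ * ‖c q‖ * ‖∑ m ∈ Ioc 0 (X / 2 ^ k), g p m * (starRingEnd ℂ) (g q m)‖ ≤
      ∑ p ∈ Pk, (X / 2 ^ k + N * (ε' * (X / 2 ^ k))) := by
    refine sum_le_sum fun p hp => ?_
    have h5 : ∀ q ∈ Pk, ‖c p‖ * ‖c q‖ * ‖∑ m ∈ Ioc 0 (X / 2 ^ k), g p m * (starRingEnd ℂ) (g q m)‖ ≤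
        ‖∑ m ∈ Ioc 0 (X / 2 ^ k), g p m * (starRingEnd ℂ) (g q m)‖ := by
      intro q _
      exact mul_le_of_le_one_left (norm_nonneg _) (mul_le_one₀ (hc1 p) (norm_nonneg _) (hc1 q))
    refine (sum_le_sum h5).trans ?_
    rw [← add_sum_erase Pk _ hp]
    refine add_le_add ?_ ?_
    · refine (norm_sum_le _ _).trans ?_
      calc ∑ m ∈ Ioc 0 (X / 2 ^ k), ‖g p m * (starRingEnd ℂ) (g p m)‖ ≤ ∑ m ∈ Ioc 0 (X / 2 ^ k), (1 : ℝ) := by
            refine sum_le_sum fun m _ => ?_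
            have h6 : ‖g p m‖ ≤ 1 := by
              simp only [hg]
              split_ifs
              · exact hψ _
              · simp
            rw [norm_mul, RCLike.norm_conj]
            exact mul_le_one₀ h6 (norm_nonneg _) h6
        _ = ((X / 2 ^ k : ℕ) : ℝ) := by simp
        _ ≤ _ := hXk
    · calc ∑ q ∈ Pk.erase p, ‖∑ m ∈ Ioc 0 (X / 2 ^ k), g p m * (starRingEnd ℂ) (g q m)‖ ≤
          ∑ q ∈ Pk.erase p, ε' * (X / 2 ^ k) := by
            refine sum_le_sum fun q hq => ?_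
            rw [mem_erase] at hq
            rw [hgg p q hp hq.2]
            obtain ⟨L, hL⟩ : ∃ L, L = min (X / p) (X / q) := ⟨_, rfl⟩
            rw [← hL]
            have hdiv : ∀ r ∈ I, H₁ + 1 ≤ X / r := by
              intro r hr
              rw [Nat.le_div_iff_mul_le (hI r hr).1.pos]
              calc (H₁ + 1) * r ≤ (H₁ + 1) * B := Nat.mul_le_mul_left _ (hB r hr)
                _ = B * (H₁ + 1) := mul_comm _ _
                _ ≤ X := by omega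
            have hL1 : H₁ + 1 ≤ L := by
              rw [hL]
              exact le_min (hdiv p (hPkI p hp)) (hdiv q (hPkI q hq.2))
            have hL2 : (L : ℝ) ≤ X / 2 ^ k := by
              refine le_trans ?_ hXk
              have : L ≤ X / 2 ^ k := by rw [hL]; exact (min_le_left _ _).trans (hwin p hp)
              exact_mod_cast this
            have h6 := hY p q (hPkI p hp) (hPkI q hq.2) (fun h => hq.1 h.symm) L
              (by have := hH₁ p (hPkI p hp) q (hPkI q hq.2); omega) ψ hψT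
            have h7 : ‖∑ m ∈ Ioc 0 (0 + L), ψ (p * m) * (starRingEnd ℂ) (ψ (q * m))‖ ≤ ε' * L := h6
            exact h7.trans (mul_le_mul_of_nonneg_left hL2 hε'0.le)
        _ ≤ N * (ε' * (X / 2 ^ k)) := by
            rw [sum_const, nsmul_eq_mul]
            refine mul_le_mul_of_nonneg_right ?_ (by positivity)
            rw [hN]
            exact_mod_cast card_le_card (erase_subset p Pk)
  rw [sum_const, nsmul_eq_mul, ← hN] at h4
  have h5 : (N * (ε / 2 * (X / (4 * 2 ^ k)))) ^ 2 ≤ (X / 2 ^ k) * (N * (X / 2 ^ k + N * (ε' * (X / 2 ^ k)))) := by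
    calc (N * (ε / 2 * (X / (4 * 2 ^ k)))) ^ 2 ≤ (∑ p ∈ Pk, cw f (fun m => ψ (p * m)) 0 (X / p)) ^ 2 :=
          pow_le_pow_left₀ (by positivity) h3 2
      _ ≤ _ := h1
      _ ≤ _ := by
          refine mul_le_mul hXk h4 ?_ (by positivity)
          exact sum_nonneg fun p _ => sum_nonneg fun q _ => by positivity
  have h6 : (X / 2 ^ k : ℝ) ^ 2 * (N ^ 2 * ε ^ 2 / 64) ≤ (X / 2 ^ k : ℝ) ^ 2 * (N + N ^ 2 * ε') := by
    refine le_trans (le_of_eq ?_) (h5.trans (le_of_eq ?_))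
    · field_simp
      ring
    · ring
  have h7 := le_of_mul_le_mul_left h6 (by positivity)
  have h8 : 256 < N * ε ^ 2 := by
    rw [div_lt_iff₀ (by positivity)] at hN0
    exact hN0
  rw [hε'] at h7
  have h9 : 0 < N * (N * ε ^ 2 - 256) := mul_pos hNpos (by linarith)
  nlinarith

/-- bounded linear forms are far from the integers -/
lemma kap {ι : Type} [Fintype ι] {E : Set (ι → UnitAddCircle)} (hE : IsCompact E)
    (hirr : ∀ k : ι → ℤ, k ≠ 0 → ∀ x ∈ E, addOrderOf (lf k x) = 0) (K : ℕ) :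
    ∃ κ : ℝ, 0 < κ ∧ ∀ x : ι → ℝ, md x ∈ E → ∀ k : ι → ℤ, Bd K k → ¬ Nr κ (dt k x) := by
  have h1 : (0 : UnitAddCircle) ∉ Est K E := by
    intro h
    have := Est_irr K hirr 0 h
    rw [addOrderOf_zero] at this
    exact one_ne_zero this
  have h2 : (Est K E)ᶜ ∈ 𝓝 (0 : UnitAddCircle) := (Est_cpt K hE).isClosed.isOpen_compl.mem_nhds h1
  obtain ⟨κ, hκ, h3⟩ := Metric.mem_nhds_iff.1 h2
  refine ⟨κ / 2, by positivity, fun x hx k hk hNr => ?_⟩
  have h4 := norm_of_nr hNr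
  rw [← lf_md] at h4
  have h5 : lf k (md x) ∈ Metric.ball (0 : UnitAddCircle) κ := by
    rw [mem_ball_zero_iff]; linarith
  apply h3 h5
  rw [Est, Set.mem_iUnion₂]
  exact ⟨k, hk, _, hx, rfl⟩

variable {G : Type} [Group G] [TopologicalSpace G] [IsTopologicalGroup G] {Γ : Subgroup G} (D : NilData G Γ)

/-- **long sums** -/
theorem lsn {j : ℕ} {k : D.ι j → ℤ} (hk : k ≠ 0) {F : G → ℂ} (hF : VC D j k F) (hF1 : ∀ g, ‖F g‖ ≤ 1)
    {E : Set (D.ι 0 → UnitAddCircle)} (hE : IsCompact E)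
    (hirr : ∀ k : D.ι 0 → ℤ, k ≠ 0 → ∀ x ∈ E, addOrderOf (lf k x) = 0) :
    ∀ ε : ℝ, 0 < ε → ∃ X₀ : ℕ, ∀ X ≥ X₀, ∀ f : ℕ → ℂ, Mul1 f → ∀ ψ ∈ Cn D F E, cw f ψ 0 X ≤ ε * X := by
  refine kata2 (Cn D F E) (fun ψ h m => Cn_bdd D hF1 h m) fun ε hε => ?_
  obtain ⟨K, hK⟩ := pair D hk hF hε
  refine ⟨K, fun p q hp hq hpK hqK hpq => ?_⟩
  obtain ⟨κ, hκ, hκ'⟩ := kap hE hirr ((p + q) * K)
  obtain ⟨N₀, hN₀⟩ := hK κ hκ
  refine ⟨N₀, fun X hX ψ hψ => ?_⟩
  obtain ⟨a, y, ha, hψe⟩ := hψ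
  by_contra hcon
  rw [not_le] at hcon
  have h1 : pw (fun m => ψ (p * m)) (fun m => ψ (q * m)) 0 X = ‖∑ i ∈ range X, F ((a ^ p) ^ i * (a ^ p * y)) *
      (starRingEnd ℂ) (F ((a ^ q) ^ i * (a ^ q * y)))‖ := by
    unfold pw
    rw [Pool.Agent.Helper44K9.FN.VdcL.Ioc_range (fun m => ψ (p * m) * (starRingEnd ℂ) (ψ (q * m))) 0 X]
    congr 1
    refine sum_congr rfl fun i _ => ?_
    have h2 : ∀ r : ℕ, ψ (r * (0 + 1 + i)) = F ((a ^ r) ^ i * (a ^ r * y)) := by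
      intro r
      rw [hψe, ← mul_assoc, ← pow_succ, ← pow_mul]
      congr 3
      ring
    rw [h2, h2]
  rw [h1] at hcon
  obtain ⟨m, m', h0, hm, hm', hNr⟩ := hN₀ X hX (a ^ p) (a ^ q) (a ^ p * y) (a ^ q * y) hcon.le
  rw [D.π_pow0, D.π_pow0, dt_smul, dt_smul] at hNr
  have h2 : (p : ℝ) * dt m (D.π 0 a) + q * dt m' (D.π 0 a) = dt (fun i => (p : ℤ) * m i + q * m' i) (D.π 0 a) := by
    unfold dt
    rw [mul_sum, mul_sum, ← sum_add_distrib]
    exact sum_congr rfl fun i _ => by push_cast; ring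
  rw [h2] at hNr
  refine hκ' _ ha _ ⟨?_, fun i => ?_⟩ hNr
  · intro h3
    have hcop : IsCoprime (q : ℤ) (p : ℤ) := by
      rw [Nat.isCoprime_iff_coprime]
      exact (Nat.coprime_primes hq hp).2 (fun h => hpq h.symm)
    have h4 : ∀ i, m i = 0 ∧ m' i = 0 := by
      intro i
      have h5 := congrFun h3 i
      simp only [Pi.zero_apply] at h5
      have h6 : (q : ℤ) ∣ m i := by
        apply hcop.dvd_of_dvd_mul_left
        exact ⟨-m' i, by linarith⟩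
      have h7 : (p : ℤ) ∣ m' i := by
        apply hcop.symm.dvd_of_dvd_mul_left
        exact ⟨-m i, by linarith⟩
      refine ⟨?_, ?_⟩
      · refine Int.eq_zero_of_abs_lt_dvd h6 ?_
        exact lt_of_le_of_lt (hm i) (by exact_mod_cast hqK)
      · refine Int.eq_zero_of_abs_lt_dvd h7 ?_
        exact lt_of_le_of_lt (hm' i) (by exact_mod_cast hpK)
    rcases h0 with h0 | h0
    · exact h0 (funext fun i => (h4 i).1)
    · exact h0 (funext fun i => (h4 i).2)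
  · calc |(p : ℤ) * m i + q * m' i| ≤ |(p : ℤ) * m i| + |q * m' i| := abs_add_le _ _
      _ = p * |m i| + q * |m' i| := by rw [abs_mul, abs_mul, Nat.abs_cast, Nat.abs_cast]
      _ ≤ p * K + q * K := add_le_add (mul_le_mul_of_nonneg_left (hm i) (Nat.cast_nonneg _))
          (mul_le_mul_of_nonneg_left (hm' i) (Nat.cast_nonneg _))
      _ = (((p + q) * K : ℕ) : ℤ) := by push_cast; ring

end Pool.Agent.Helper16.NL
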