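import Pool.Agent.Helper16.NL.Nil

/-! Nilpotent groups with a lattice: products. -/

set_option autoImplicit false

namespace Pool.Agent.Helper16.NL

open Finset

namespace NilData

variable {G : Type} [Group G] [TopologicalSpace G] [IsTopologicalGroup G] {Γ : Subgroup G} (D : NilData G Γ)

lemma normal (i : ℕ) : (D.fil i).Normal := ⟨fun _ hx g => D.conj_mem i hx g⟩

lemma comm_tl {i j : ℕ} {x₁ x₂ y₁ y₂ : G} (hx : x₂ ∈ D.fil i) (hu : x₁ * x₂⁻¹ ∈ D.fil (i + 1)) (hy : y₂ ∈ D.fil j)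
    (hv : y₁ * y₂⁻¹ ∈ D.fil (j + 1)) :
    (x₁ * y₁ * x₁⁻¹ * y₁⁻¹) * (x₂ * y₂ * x₂⁻¹ * y₂⁻¹)⁻¹ ∈ D.fil (i + j + 1 + 1) := by
  have := D.normal (i + j + 1 + 1)
  set N := D.fil (i + j + 1 + 1) with hN
  set u := x₁ * x₂⁻¹ with hu'
  set v := y₁ * y₂⁻¹ with hv'
  have hx1 : x₁ = u * x₂ := by rw [hu']; group
  have hy1 : y₁ = v * y₂ := by rw [hv']; group
  have hC1 : ∀ y ∈ D.fil j, Commute (QuotientGroup.mk u : G ⧸ N) (QuotientGroup.mk y) := by
    intro y hyj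
    have h1 : u * y * u⁻¹ * y⁻¹ ∈ N := by
      have := D.comm (i + 1) j u y hu hyj
      rwa [show i + 1 + j + 1 = i + j + 1 + 1 by omega] at this
    have h2 := (QuotientGroup.eq_one_iff _).2 h1
    simp only [QuotientGroup.mk_mul, QuotientGroup.mk_inv] at h2
    show (QuotientGroup.mk u : G ⧸ N) * QuotientGroup.mk y = QuotientGroup.mk y * QuotientGroup.mk u
    rw [mul_inv_eq_one, mul_inv_eq_iff_eq_mul] at h2
    exact h2
  have hC2 : ∀ x ∈ D.fil i, Commute (QuotientGroup.mk v : G ⧸ N) (QuotientGroup.mk x) := by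
    intro x hxi
    have h1 : v * x * v⁻¹ * x⁻¹ ∈ N := by
      have := D.comm (j + 1) i v x hv hxi
      rwa [show j + 1 + i + 1 = i + j + 1 + 1 by omega] at this
    have h2 := (QuotientGroup.eq_one_iff _).2 h1
    simp only [QuotientGroup.mk_mul, QuotientGroup.mk_inv] at h2
    show (QuotientGroup.mk v : G ⧸ N) * QuotientGroup.mk x = QuotientGroup.mk x * QuotientGroup.mk v
    rw [mul_inv_eq_one, mul_inv_eq_iff_eq_mul] at h2
    exact h2
  rw [← QuotientGroup.eq_one_iff, hx1, hy1]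
  have e1 := hC2 x₂ hx
  have e2 := hC1 v (D.fil_anti j hv)
  have e3 := hC1 (x₂ * y₂ * x₂⁻¹) (D.conj_mem j hy x₂)
  have e4 := hC2 (x₂ * y₂ * x₂⁻¹ * y₂⁻¹) (D.anti (by omega) (D.comm i j x₂ y₂ hx hy))
  simp only [QuotientGroup.mk_mul, QuotientGroup.mk_inv] at e1 e2 e3 e4 ⊢
  generalize (QuotientGroup.mk u : G ⧸ N) = U at *
  generalize (QuotientGroup.mk v : G ⧸ N) = V at *
  generalize (QuotientGroup.mk x₂ : G ⧸ N) = X at *
  generalize (QuotientGroup.mk y₂ : G ⧸ N) = Y at *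
  rw [mul_inv_eq_one]
  calc U * X * (V * Y) * (U * X)⁻¹ * (V * Y)⁻¹ = U * (X * V) * Y * X⁻¹ * U⁻¹ * Y⁻¹ * V⁻¹ := by group
    _ = U * (V * X) * Y * X⁻¹ * U⁻¹ * Y⁻¹ * V⁻¹ := by rw [e1.eq]
    _ = (U * V) * (X * Y * X⁻¹) * U⁻¹ * Y⁻¹ * V⁻¹ := by group
    _ = (V * U) * (X * Y * X⁻¹) * U⁻¹ * Y⁻¹ * V⁻¹ := by rw [e2.eq]
    _ = V * (U * (X * Y * X⁻¹)) * U⁻¹ * Y⁻¹ * V⁻¹ := by group
    _ = V * ((X * Y * X⁻¹) * U) * U⁻¹ * Y⁻¹ * V⁻¹ := by rw [e3.eq]
    _ = (V * (X * Y * X⁻¹ * Y⁻¹)) * V⁻¹ := by group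
    _ = ((X * Y * X⁻¹ * Y⁻¹) * V) * V⁻¹ := by rw [e4.eq]
    _ = X * Y * X⁻¹ * Y⁻¹ := by group

/-- pairs with the same horizontal part -/
def tl : Subgroup (G × G) where
  carrier := {p | p.1 * p.2⁻¹ ∈ D.fil 1}
  mul_mem' := by
    rintro ⟨a, b⟩ ⟨c, d⟩ h1 h2
    simp only [Set.mem_ofPred_eq, Prod.mk_mul_mk] at h1 h2 ⊢
    have := (D.fil 1).mul_mem (D.conj_mem 1 h2 a) h1
    convert this using 1
    group
  one_mem' := by simp [one_mem]
  inv_mem' := by
    rintro ⟨a, b⟩ h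
    simp only [Set.mem_ofPred_eq, Prod.inv_mk] at h ⊢
    have := D.conj_mem' 1 ((D.fil 1).inv_mem h) a
    convert this using 1
    group

lemma mem_tl {p : G × G} : p ∈ D.tl ↔ p.1 * p.2⁻¹ ∈ D.fil 1 := Iff.rfl

/-- the filtration of `tl` -/
def tf (i : ℕ) : Subgroup D.tl where
  carrier := {p | p.1.2 ∈ D.fil i ∧ p.1.1 * p.1.2⁻¹ ∈ D.fil (i + 1)}
  mul_mem' := by
    rintro ⟨⟨a, b⟩, h1⟩ ⟨⟨c, d⟩, h2⟩ ⟨h3, h4⟩ ⟨h5, h6⟩
    refine ⟨(D.fil i).mul_mem h3 h5, ?_⟩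
    simp only at h4 h6
    show a * c * (b * d)⁻¹ ∈ _
    have := (D.fil (i + 1)).mul_mem (D.conj_mem (i + 1) h6 a) h4
    convert this using 1
    group
  one_mem' := by
    refine ⟨one_mem _, ?_⟩
    simp [one_mem]
  inv_mem' := by
    rintro ⟨⟨a, b⟩, h1⟩ ⟨h3, h4⟩
    refine ⟨(D.fil i).inv_mem h3, ?_⟩
    simp only at h4 ⊢
    have := D.conj_mem' (i + 1) ((D.fil (i + 1)).inv_mem h4) a
    show a⁻¹ * b⁻¹⁻¹ ∈ _
    convert this using 1
    group

lemma mem_tf {i : ℕ} {p : D.tl} : p ∈ D.tf i ↔ p.1.2 ∈ D.fil i ∧ p.1.1 * p.1.2⁻¹ ∈ D.fil (i + 1) := Iff.rfl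

/-- the data of `tl` -/
noncomputable def tilde : NilData D.tl ((Γ.prod Γ).subgroupOf D.tl) where
  fil := D.tf
  fil_zero := by
    rw [eq_top_iff]
    intro p _
    exact ⟨D.mem0 _, p.2⟩
  fil_anti := fun i p hp => ⟨D.fil_anti i hp.1, D.fil_anti (i + 1) hp.2⟩
  comm := by
    rintro i j ⟨⟨x₁, x₂⟩, hx⟩ ⟨⟨y₁, y₂⟩, hy⟩ ⟨h1, h2⟩ ⟨h3, h4⟩
    exact ⟨D.comm i j _ _ h1 h3, D.comm_tl h1 h2 h3 h4⟩
  s := D.s
  fil_s := by
    rw [eq_bot_iff]
    rintro ⟨⟨a, b⟩, h⟩ ⟨h1, h2⟩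
    simp only at h1 h2
    have h3 := D.fil_big le_rfl h1
    have h4 := D.fil_big (Nat.le_succ _) h2
    subst h3
    rw [inv_one, mul_one] at h4
    subst h4
    rw [Subgroup.mem_bot]
    rfl
  ι := fun i => D.ι (i + 1) ⊕ D.ι i
  fin := fun i => inferInstance
  π := fun i p => Sum.elim (D.π (i + 1) (p.1.1 * p.1.2⁻¹)) (D.π i p.1.2)
  π_cont := by
    intro i
    rw [continuousOn_pi]
    rintro (j | j)
    · have h1 : ContinuousOn (fun p : D.tl => D.π (i + 1) (p.1.1 * p.1.2⁻¹)) (D.tf i) :=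
        (D.π_cont (i + 1)).comp (by fun_prop) fun p hp => hp.2
      exact (continuous_apply j).comp_continuousOn h1
    · have h1 : ContinuousOn (fun p : D.tl => D.π i p.1.2) (D.tf i) :=
        (D.π_cont i).comp (by fun_prop) fun p hp => hp.1
      exact (continuous_apply j).comp_continuousOn h1
  π_mul := by
    rintro i ⟨⟨x₁, x₂⟩, hx⟩ ⟨⟨y₁, y₂⟩, hy⟩ ⟨h1, h2⟩ ⟨h3, h4⟩
    simp only at h1 h2 h3 h4
    funext j
    cases j with
    | inl j =>
      show D.π (i + 1) (x₁ * y₁ * (x₂ * y₂)⁻¹) j = D.π (i + 1) (x₁ * x₂⁻¹) j + D.π (i + 1) (y₁ * y₂⁻¹) j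
      have h5 : x₁ * y₁ * (x₂ * y₂)⁻¹ = (x₁ * (y₁ * y₂⁻¹) * x₁⁻¹) * (x₁ * x₂⁻¹) := by group
      rw [h5, D.π_mul _ _ _ (D.conj_mem _ h4 _) h2, D.π_conj _ h4, add_comm]
      rfl
    | inr j =>
      show D.π i (x₂ * y₂) j = D.π i x₂ j + D.π i y₂ j
      rw [D.π_mul _ _ _ h1 h3]
      rfl
  π_ker := by
    rintro i ⟨⟨x₁, x₂⟩, hx⟩ ⟨h1, h2⟩
    simp only at h1 h2
    constructor
    · intro h
      refine ⟨?_, ?_⟩
      · rw [← D.π_ker i _ h1]
        funext j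
        exact congrFun h (Sum.inr j)
      · rw [← D.π_ker (i + 1) _ h2]
        funext j
        exact congrFun h (Sum.inl j)
    · rintro ⟨h3, h4⟩
      funext j
      cases j with
      | inl j => exact congrFun ((D.π_ker (i + 1) _ h2).2 h4) j
      | inr j => exact congrFun ((D.π_ker i _ h1).2 h3) j
  π_int := by
    rintro i ⟨⟨x₁, x₂⟩, hx⟩ ⟨h1, h2⟩ h3
    obtain ⟨h4, h5⟩ : x₁ ∈ Γ ∧ x₂ ∈ Γ := h3
    obtain ⟨m₁, hm₁⟩ := D.π_int (i + 1) _ h2 (Γ.mul_mem h4 (Γ.inv_mem h5))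
    obtain ⟨m₂, hm₂⟩ := D.π_int i _ h1 h5
    refine ⟨Sum.elim m₁ m₂, ?_⟩
    funext j
    cases j with
    | inl j => exact congrFun hm₁ j
    | inr j => exact congrFun hm₂ j
  σ := fun i t => ⟨(D.σ (i + 1) (fun j => t (Sum.inl j)) * D.σ i (fun j => t (Sum.inr j)), D.σ i (fun j => t (Sum.inr j))), by
    rw [mem_tl]
    simp only [mul_inv_cancel_right]
    exact D.anti (by omega) (D.σ_mem (i + 1) _)⟩
  σ_cont := by
    intro i
    have h1 := D.σ_cont i
    have h2 := D.σ_cont (i + 1)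
    refine Continuous.subtype_mk ?_ _
    fun_prop
  σ_mem := by
    intro i t
    refine ⟨D.σ_mem i _, ?_⟩
    simp only [mul_inv_cancel_right]
    exact D.σ_mem (i + 1) _
  π_σ := by
    intro i t
    funext j
    cases j with
    | inl j =>
      simp only [mul_inv_cancel_right, Sum.elim_inl]
      rw [D.π_σ]
    | inr j =>
      simp only [Sum.elim_inr]
      rw [D.π_σ]
  σ_int := by
    intro i m
    exact ⟨Γ.mul_mem (D.σ_int (i + 1) fun j => m (Sum.inl j)) (D.σ_int i fun j => m (Sum.inr j)),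
      D.σ_int i fun j => m (Sum.inr j)⟩
  nd := by
    intro i m h
    have h1 : (fun j => m (Sum.inr j)) = 0 := by
      apply D.nd i
      intro u hu g
      have h2 := h ⟨(u, u), by rw [mem_tl]; simp [one_mem]⟩ ⟨hu, by simp [one_mem]⟩ ⟨(g, g), by rw [mem_tl]; simp [one_mem]⟩
      rw [Fintype.sum_sum_type] at h2
      simp only [Sum.elim_inl, Sum.elim_inr] at h2
      rw [sum_eq_zero, zero_add] at h2
      · exact h2
      · intro j _
        have h3 : (u * g * u⁻¹ * g⁻¹) * (u * g * u⁻¹ * g⁻¹)⁻¹ = 1 := mul_inv_cancel _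
        have h4 : D.π (i + 1 + 1) ((u * g * u⁻¹ * g⁻¹) * (u * g * u⁻¹ * g⁻¹)⁻¹) j = 0 := by
          rw [h3, D.π_one]; rfl
        exact mul_eq_zero_of_right _ h4
    have h2 : (fun j => m (Sum.inl j)) = 0 := by
      apply D.nd (i + 1)
      intro u hu g
      have h2 := h ⟨(u, 1), by rw [mem_tl]; simpa using D.anti (by omega) hu⟩ ⟨one_mem _, by simpa using hu⟩
        ⟨(g, g), by rw [mem_tl]; simp [one_mem]⟩
      rw [Fintype.sum_sum_type] at h2
      simp only [Sum.elim_inl, Sum.elim_inr] at h2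
      rw [add_comm, sum_eq_zero, zero_add] at h2
      · have h3 : ∀ j, D.π (i + 1 + 1) (u * g * u⁻¹ * g⁻¹) j =
            D.π (i + 1 + 1) ((u * g * u⁻¹ * g⁻¹) * (1 * g * 1⁻¹ * g⁻¹)⁻¹) j := by
          intro j
          congr 1
          group
        simp only [h3]
        exact h2
      · intro j _
        have h4 : D.π (i + 1) (1 * g * 1⁻¹ * g⁻¹) j = 0 := by
          have : (1 * g * 1⁻¹ * g⁻¹ : G) = 1 := by group
          rw [this, D.π_one]; rfl
        exact mul_eq_zero_of_right _ h4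
    funext j
    cases j with
    | inl j => exact congrFun h2 j
    | inr j => exact congrFun h1 j

/-- the data of the square -/
noncomputable def sq : NilData (G × G) (Γ.prod Γ) where
  fil := fun i => (D.fil i).prod (D.fil i)
  fil_zero := by rw [D.fil_zero]; exact Subgroup.top_prod_top
  fil_anti := fun i p hp => ⟨D.fil_anti i hp.1, D.fil_anti i hp.2⟩
  comm := by
    rintro i j ⟨x₁, x₂⟩ ⟨y₁, y₂⟩ ⟨h1, h2⟩ ⟨h3, h4⟩
    exact ⟨D.comm i j _ _ h1 h3, D.comm i j _ _ h2 h4⟩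
  s := D.s
  fil_s := by rw [D.fil_s]; exact Subgroup.bot_prod_bot
  ι := fun i => D.ι i ⊕ D.ι i
  fin := fun i => inferInstance
  π := fun i p => Sum.elim (D.π i p.1) (D.π i p.2)
  π_cont := by
    intro i
    rw [continuousOn_pi]
    rintro (j | j)
    · have h1 : ContinuousOn (fun p : G × G => D.π i p.1) ((D.fil i).prod (D.fil i)) :=
        (D.π_cont i).comp (by fun_prop) fun p hp => hp.1
      exact (continuous_apply j).comp_continuousOn h1
    · have h1 : ContinuousOn (fun p : G × G => D.π i p.2) ((D.fil i).prod (D.fil i)) :=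
        (D.π_cont i).comp (by fun_prop) fun p hp => hp.2
      exact (continuous_apply j).comp_continuousOn h1
  π_mul := by
    rintro i ⟨x₁, x₂⟩ ⟨y₁, y₂⟩ ⟨h1, h2⟩ ⟨h3, h4⟩
    funext j
    cases j with
    | inl j =>
      simp only [Prod.mk_mul_mk, Sum.elim_inl, Pi.add_apply]
      rw [D.π_mul _ _ _ h1 h3]; rfl
    | inr j =>
      simp only [Prod.mk_mul_mk, Sum.elim_inr, Pi.add_apply]
      rw [D.π_mul _ _ _ h2 h4]; rfl
  π_ker := by
    rintro i ⟨x₁, x₂⟩ ⟨h1, h2⟩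
    constructor
    · intro h
      refine ⟨?_, ?_⟩
      · refine (D.π_ker i x₁ h1).1 ?_
        funext j
        exact congrFun h (Sum.inl j)
      · refine (D.π_ker i x₂ h2).1 ?_
        funext j
        exact congrFun h (Sum.inr j)
    · rintro ⟨h3, h4⟩
      funext j
      cases j with
      | inl j => exact congrFun ((D.π_ker i _ h1).2 h3) j
      | inr j => exact congrFun ((D.π_ker i _ h2).2 h4) j
  π_int := by
    rintro i ⟨x₁, x₂⟩ ⟨h1, h2⟩ ⟨h4, h5⟩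
    obtain ⟨m₁, hm₁⟩ := D.π_int i _ h1 h4
    obtain ⟨m₂, hm₂⟩ := D.π_int i _ h2 h5
    refine ⟨Sum.elim m₁ m₂, ?_⟩
    funext j
    cases j with
    | inl j => exact congrFun hm₁ j
    | inr j => exact congrFun hm₂ j
  σ := fun i t => (D.σ i (fun j => t (Sum.inl j)), D.σ i (fun j => t (Sum.inr j)))
  σ_cont := by
    intro i
    have h1 := D.σ_cont i
    fun_prop
  σ_mem := fun i t => ⟨D.σ_mem i _, D.σ_mem i _⟩
  π_σ := by
    intro i t
    funext j
    cases j with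
    | inl j => simp only [Sum.elim_inl]; rw [D.π_σ]
    | inr j => simp only [Sum.elim_inr]; rw [D.π_σ]
  σ_int := fun i m => ⟨D.σ_int i fun j => m (Sum.inl j), D.σ_int i fun j => m (Sum.inr j)⟩
  nd := by
    intro i m h
    have h1 : (fun j => m (Sum.inr j)) = 0 := by
      apply D.nd i
      intro u hu g
      have h2 := h (1, u) ⟨one_mem _, hu⟩ (1, g)
      rw [Fintype.sum_sum_type] at h2
      simp only [Sum.elim_inl, Sum.elim_inr] at h2
      rw [sum_eq_zero, zero_add] at h2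
      · exact h2
      · intro j _
        have h4 : D.π (i + 1) (1 * 1 * 1⁻¹ * 1⁻¹) j = 0 := by
          have : (1 * 1 * 1⁻¹ * 1⁻¹ : G) = 1 := by group
          rw [this, D.π_one]; rfl
        exact mul_eq_zero_of_right _ h4
    have h2 : (fun j => m (Sum.inl j)) = 0 := by
      apply D.nd i
      intro u hu g
      have h2 := h (u, 1) ⟨hu, one_mem _⟩ (g, 1)
      rw [Fintype.sum_sum_type] at h2
      simp only [Sum.elim_inl, Sum.elim_inr] at h2
      rw [add_comm, sum_eq_zero, zero_add] at h2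
      · exact h2
      · intro j _
        have h4 : D.π (i + 1) (1 * 1 * 1⁻¹ * 1⁻¹) j = 0 := by
          have : (1 * 1 * 1⁻¹ * 1⁻¹ : G) = 1 := by group
          rw [this, D.π_one]; rfl
        exact mul_eq_zero_of_right _ h4
    funext j
    cases j with
    | inl j => exact congrFun h2 j
    | inr j => exact congrFun h1 j

end NilData

end Pool.Agent.Helper16.NL
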