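import Pool.Agent.Helper16.NL.Vert
import Pool.Agent.Helper16.NL.Tilde

/-! Linear sequences on nilmanifolds: a large mean value of a function with a nontrivial vertical character gives a
bounded approximate relation between the horizontal frequencies. -/

set_option autoImplicit false

namespace Pool.Agent.Helper16.NL

open Finset Topology
open Pool.Agent.H807R2.Dav (ee ee_add norm_ee ee_zero ee_int)
open Pool.Agent.Helper44K9.FN (VdcL.many)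

/-- the statement for functions with a nontrivial character on `fil j` -/
def V (j : ℕ) : Prop := ∀ (G : Type) [Group G] [TopologicalSpace G] [IsTopologicalGroup G] (Γ : Subgroup G)
  (D : NilData G Γ) (F : G → ℂ) (k : D.ι j → ℤ), k ≠ 0 → VC D j k F → ∀ δ : ℝ, 0 < δ → ∃ K : ℕ, ∀ η : ℝ, 0 < η →
  ∃ N₀ : ℕ, ∀ N ≥ N₀, ∀ a y : G, δ * N ≤ ‖∑ n ∈ range N, F (a ^ n * y)‖ →
    ∃ m : D.ι 0 → ℤ, Bd K m ∧ Nr η (dt m (D.π 0 a))

theorem V_zero : V 0 := by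
  intro G _ _ _ Γ D F k hk hF δ hδ
  obtain ⟨B, hB0, hB⟩ := D.bdd hF.1 hF.2.1
  refine ⟨∑ i, (k i).natAbs, fun η hη => ?_⟩
  obtain ⟨N₀, hN₀⟩ := exists_nat_gt (B / (η * δ))
  refine ⟨N₀, fun N hN a y h => ⟨k, ⟨hk, fun i => ?_⟩, ?_⟩⟩
  · have h1 : (k i).natAbs ≤ ∑ i, (k i).natAbs := single_le_sum (f := fun i => (k i).natAbs) (fun _ _ => Nat.zero_le _) (mem_univ i)
    rw [Int.abs_eq_natAbs]
    exact_mod_cast h1
  · by_contra hcon
    have h1 : ∀ n : ℕ, F (a ^ n * y) = ee (n * dt k (D.π 0 a)) * F y := by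
      intro n
      rw [hF.2.2 _ (D.mem0 _), D.π_pow0]
      congr 2
      unfold dt
      rw [mul_sum]
      exact sum_congr rfl fun i _ => by rw [Pi.smul_apply, smul_eq_mul]; ring
    rw [sum_congr rfl fun n _ => h1 n, ← sum_mul, norm_mul] at h
    have h2 := far hη hcon 0 N (Nat.zero_le _)
    rw [← Finset.range_eq_Ico] at h2
    have h3 : δ * N ≤ 1 / η * B := h.trans (mul_le_mul h2 (hB y) (norm_nonneg _) (by positivity))
    have h4 : (N₀ : ℝ) ≤ N := by exact_mod_cast hN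
    have h5 : B / (η * δ) < N := hN₀.trans_le h4
    rw [div_lt_iff₀ (by positivity)] at h5
    have h6 : 1 / η * B * η = B := by field_simp
    nlinarith

namespace NilData

variable {G : Type} [Group G] [TopologicalSpace G] [IsTopologicalGroup G] {Γ : Subgroup G} (D : NilData G Γ)

/-- the function on `tl` -/
noncomputable def Ft (F : G → ℂ) (q : G × G) (p : D.tl) : ℂ := F (q.1 * q.2 * p.1.1) * (starRingEnd ℂ) (F (q.1 * p.1.2))

lemma Ft_cont {F : G → ℂ} (hF : Continuous F) : Continuous fun z : (G × G) × D.tl => D.Ft F z.1 z.2 := by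
  unfold Ft
  fun_prop

lemma Ft_lat {F : G → ℂ} (hΓ : ∀ g γ, γ ∈ Γ → F (g * γ) = F g) (q : G × G) (p γ : D.tl)
    (hγ : γ ∈ (Γ.prod Γ).subgroupOf D.tl) : D.Ft F q (p * γ) = D.Ft F q p := by
  obtain ⟨h1, h2⟩ : γ.1.1 ∈ Γ ∧ γ.1.2 ∈ Γ := hγ
  unfold Ft
  show F (q.1 * q.2 * (p.1.1 * γ.1.1)) * (starRingEnd ℂ) (F (q.1 * (p.1.2 * γ.1.2))) = _
  rw [← mul_assoc, ← mul_assoc q.1 p.1.2, hΓ _ _ h1, hΓ _ _ h2]

lemma Ft_char {j : ℕ} {k : D.ι (j + 1) → ℤ} {F : G → ℂ} (hF : VC D (j + 1) k F) (q : G × G) (p z : D.tl)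
    (h1 : z.1.1 ∈ D.fil (j + 1)) (h2 : z.1.2 ∈ D.fil (j + 1)) :
    D.Ft F q (z * p) = ee (dt k (D.π (j + 1) z.1.1) - dt k (D.π (j + 1) z.1.2)) * D.Ft F q p := by
  unfold Ft
  show F (q.1 * q.2 * (z.1.1 * p.1.1)) * (starRingEnd ℂ) (F (q.1 * (z.1.2 * p.1.2))) = _
  have h3 : q.1 * q.2 * (z.1.1 * p.1.1) = ((q.1 * q.2) * z.1.1 * (q.1 * q.2)⁻¹) * (q.1 * q.2 * p.1.1) := by group
  have h4 : q.1 * (z.1.2 * p.1.2) = (q.1 * z.1.2 * q.1⁻¹) * (q.1 * p.1.2) := by group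
  rw [h3, h4, hF.2.2 _ (D.conj_mem _ h1 _), hF.2.2 _ (D.conj_mem _ h2 _), D.π_conj _ h1, D.π_conj _ h2, map_mul,
    conj_ee, sub_eq_add_neg, ee_add]
  ring

lemma Ft_inv {j : ℕ} {k : D.ι (j + 1) → ℤ} {F : G → ℂ} (hF : VC D (j + 1) k F) (q : G × G) (z : D.tl)
    (hz : z ∈ D.tf (j + 1)) (p : D.tl) : D.Ft F q (z * p) = D.Ft F q p := by
  have h3 : z.1.1 ∈ D.fil (j + 1) := by
    have := (D.fil (j + 1)).mul_mem (D.fil_anti _ hz.2) hz.1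
    rwa [inv_mul_cancel_right] at this
  have h1 : D.π (j + 1) z.1.1 = D.π (j + 1) z.1.2 := by
    have := D.π_mul (j + 1) _ _ (D.fil_anti _ hz.2) hz.1
    rw [inv_mul_cancel_right, D.π_zero _ hz.2, zero_add] at this
    exact this
  rw [D.Ft_char hF q p z h3 hz.1, h1, sub_self, ee_zero, one_mul]

/-- the components with the zero character vanish -/
lemma Ft_zero {j : ℕ} {k : D.ι (j + 1) → ℤ} (hk : k ≠ 0) {F : G → ℂ} (hF : VC D (j + 1) k F) (q : G × G)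
    {Φ : (D.tilde.ι j → ℤ) → D.tl → ℂ} (hΦ : ∀ k, VC D.tilde j k (Φ k))
    (hu : ∀ z ∈ D.tilde.fil j, ∀ u : ℂ, (∀ g, D.Ft F q (z * g) = u * D.Ft F q g) → ∀ k g, Φ k (z * g) = u * Φ k g)
    (p : D.tl) : Φ 0 p = 0 := by
  classical
  obtain ⟨i, hi⟩ := Function.ne_iff.1 hk
  rw [Pi.zero_apply] at hi
  have hir : (k i : ℝ) ≠ 0 := by exact_mod_cast hi
  set t : D.ι (j + 1) → ℝ := Pi.single i (1 / (2 * (k i : ℝ))) with ht
  have hdt : dt k t = 1 / 2 := by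
    unfold dt
    rw [sum_eq_single i]
    · rw [ht, Pi.single_eq_same]; field_simp
    · intro b _ hb
      rw [ht, Pi.single_eq_of_ne hb, mul_zero]
    · intro h; exact absurd (mem_univ i) h
  have hz1 : ((D.σ (j + 1) t, 1) : G × G) ∈ D.tl := by
    rw [mem_tl]
    simpa using D.anti (by omega) (D.σ_mem (j + 1) t)
  have hz : (⟨(D.σ (j + 1) t, 1), hz1⟩ : D.tl) ∈ D.tilde.fil j := by
    refine ⟨one_mem _, ?_⟩
    show D.σ (j + 1) t * 1⁻¹ ∈ _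
    rw [inv_one, mul_one]
    exact D.σ_mem _ _
  have hee : ee (1 / 2) = -1 := by
    unfold ee
    rw [show (2 * (Real.pi : ℂ) * Complex.I * ((1 / 2 : ℝ) : ℂ)) = Real.pi * Complex.I by push_cast; ring]
    exact Complex.exp_pi_mul_I
  have h1 := hu _ hz (-1) (fun g => by
    rw [D.Ft_char hF q g _ (D.σ_mem _ _) (one_mem _)]
    simp only
    rw [D.π_σ, D.π_one, hdt]
    have : dt k (0 : D.ι (j + 1) → ℝ) = 0 := by unfold dt; simp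
    rw [this, sub_zero, hee]) 0 p
  have h2 := (hΦ 0).2.2 _ hz p
  have h3 : dt (0 : D.tilde.ι j → ℤ) (D.tilde.π j ⟨(D.σ (j + 1) t, 1), hz1⟩) = 0 := by unfold dt; simp
  rw [h3, ee_zero, one_mul] at h2
  rw [h2] at h1
  linear_combination (1 / 2) * h1

/-- mean values of the functions `Ft` -/
theorem Ft_mean {j : ℕ} (hV : V j) {k : D.ι (j + 1) → ℤ} (hk : k ≠ 0) {F : G → ℂ} (hF : VC D (j + 1) k F) {C : Set (G × G)}
    (hC : IsCompact C) {δ : ℝ} (hδ : 0 < δ) : ∃ K : ℕ, ∀ η : ℝ, 0 < η → ∃ N₀ : ℕ, ∀ N ≥ N₀, ∀ q ∈ C, ∀ a : D.tl,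
      δ * N ≤ ‖∑ n ∈ range N, D.Ft F q (a ^ n)‖ →
      ∃ m : D.tilde.ι 0 → ℤ, Bd K m ∧ Nr η (dt m (D.tilde.π 0 a)) := by
  classical
  -- the net
  obtain ⟨C', hC', hCΓ⟩ := D.tilde.cpt0
  have hnet : ∀ q ∈ C, {q' : G × G | ∀ p, ‖D.Ft F q' p - D.Ft F q p‖ ≤ δ / 4} ∈ 𝓝 q := by
    intro q _
    have h1 : ∀ᶠ q' in 𝓝 q, ∀ p ∈ C', ‖D.Ft F q' p - D.Ft F q p‖ ≤ δ / 4 := by
      refine hC'.eventually_forall_of_forall_eventually fun p _ => ?_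
      have h2 : Continuous fun z : (G × G) × D.tl => ‖D.Ft F z.1 z.2 - D.Ft F q z.2‖ := by
        have h3 := D.Ft_cont hF.1
        exact (h3.sub (h3.comp (by fun_prop : Continuous fun z : (G × G) × D.tl => (q, z.2)))).norm
      have h3 := h2.tendsto (q, p)
      simp only [sub_self, norm_zero] at h3
      have h4 : (0 : ℝ) < δ / 4 := by positivity
      exact (h3.eventually (gt_mem_nhds h4)).mono fun _ h => le_of_lt h
    refine Filter.mem_of_superset h1 fun q' hq' p => ?_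
    obtain ⟨c, hc, γ, hγ, rfl⟩ := hCΓ p
    rw [D.Ft_lat hF.2.1 _ _ _ hγ, D.Ft_lat hF.2.1 _ _ _ hγ]
    exact hq' c hc
  obtain ⟨T, hTC, hT⟩ := hC.elim_nhds_subcover _ hnet
  -- the expansions
  have hexp : ∀ q : G × G, ∃ (S : Finset (D.tilde.ι j → ℤ)) (Φ : (D.tilde.ι j → ℤ) → D.tl → ℂ),
      (∀ k, VC D.tilde j k (Φ k)) ∧
      (∀ z ∈ D.tilde.fil j, ∀ u : ℂ, (∀ g, D.Ft F q (z * g) = u * D.Ft F q g) → ∀ k g, Φ k (z * g) = u * Φ k g) ∧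
      ∀ g, ‖D.Ft F q g - ∑ k ∈ S, Φ k g‖ ≤ δ / 4 := fun q =>
    D.tilde.vert ((D.Ft_cont hF.1).comp (by fun_prop : Continuous fun p : D.tl => (q, p)))
      (fun g γ hγ => D.Ft_lat hF.2.1 q g γ hγ) (fun z hz g => D.Ft_inv hF q z hz g) (by positivity)
  choose S Φ h1 h2 h3 using hexp
  set R : ℕ := ∑ q ∈ T, #(S q) with hR
  set δ₁ : ℝ := δ / (4 * (R + 1)) with hδ₁
  have hδ₁0 : 0 < δ₁ := by positivity
  have hδ₂ : ((R : ℝ) + 1) * δ₁ = δ / 4 := by rw [hδ₁]; field_simp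
  clear_value δ₁
  have hK : ∀ (q : G × G) (k' : D.tilde.ι j → ℤ), ∃ K : ℕ, k' ≠ 0 → ∀ η : ℝ, 0 < η →
      ∃ N₀ : ℕ, ∀ N ≥ N₀, ∀ a y : D.tl, δ₁ * N ≤ ‖∑ n ∈ range N, Φ q k' (a ^ n * y)‖ →
        ∃ m : D.tilde.ι 0 → ℤ, Bd K m ∧ Nr η (dt m (D.tilde.π 0 a)) := by
    intro q k'
    by_cases hk' : k' = 0
    · exact ⟨0, fun h => absurd hk' h⟩
    · obtain ⟨K, hK⟩ := hV _ _ D.tilde (Φ q k') k' hk' (h1 q k') δ₁ hδ₁0
      exact ⟨K, fun _ => hK⟩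
  choose K hK using hK
  refine ⟨∑ q ∈ T, ∑ k' ∈ S q, K q k', fun η hη => ?_⟩
  have hN : ∀ (q : G × G) (k' : D.tilde.ι j → ℤ), ∃ N₀ : ℕ, k' ≠ 0 →
      ∀ N ≥ N₀, ∀ a y : D.tl, δ₁ * N ≤ ‖∑ n ∈ range N, Φ q k' (a ^ n * y)‖ →
        ∃ m : D.tilde.ι 0 → ℤ, Bd (K q k') m ∧ Nr η (dt m (D.tilde.π 0 a)) := by
    intro q k'
    by_cases hk' : k' = 0
    · exact ⟨0, fun h => absurd hk' h⟩
    · obtain ⟨N₀, hN₀⟩ := hK q k' hk' η hη
      exact ⟨N₀, fun _ => hN₀⟩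
  choose N₀ hN₀ using hN
  refine ⟨∑ q ∈ T, ∑ k' ∈ S q, N₀ q k' + 1, fun N hN q hq a ha => ?_⟩
  obtain ⟨q', hq'T, hq'⟩ : ∃ q' ∈ T, ∀ p, ‖D.Ft F q p - D.Ft F q' p‖ ≤ δ / 4 := by
    have := hT hq
    rw [Set.mem_iUnion₂] at this
    obtain ⟨q', hq', h4⟩ := this
    exact ⟨q', hq', h4⟩
  have hNr : (0 : ℝ) < N := by
    have : 0 < N := by omega
    exact_mod_cast this
  -- the sum of the components
  have h4 : δ / 2 * N ≤ ∑ k' ∈ S q', ‖∑ n ∈ range N, Φ q' k' (a ^ n)‖ := by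
    have h5 : ‖∑ n ∈ range N, D.Ft F q (a ^ n) - ∑ k' ∈ S q', ∑ n ∈ range N, Φ q' k' (a ^ n)‖ ≤ δ / 2 * N := by
      rw [sum_comm, ← sum_sub_distrib]
      refine (norm_sum_le _ _).trans ?_
      calc ∑ n ∈ range N, ‖D.Ft F q (a ^ n) - ∑ k' ∈ S q', Φ q' k' (a ^ n)‖ ≤ ∑ n ∈ range N, δ / 2 := by
            refine sum_le_sum fun n _ => ?_
            have h6 := hq' (a ^ n)
            have h7 := h3 q' (a ^ n)
            calc ‖D.Ft F q (a ^ n) - ∑ k' ∈ S q', Φ q' k' (a ^ n)‖ ≤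
                ‖D.Ft F q (a ^ n) - D.Ft F q' (a ^ n)‖ + ‖D.Ft F q' (a ^ n) - ∑ k' ∈ S q', Φ q' k' (a ^ n)‖ :=
                  norm_sub_le_norm_sub_add_norm_sub _ _ _
              _ ≤ _ := by linarith
        _ = δ / 2 * N := by rw [sum_const, card_range, nsmul_eq_mul]; ring
    have h6 : ‖∑ n ∈ range N, D.Ft F q (a ^ n)‖ ≤ δ / 2 * N + ‖∑ k' ∈ S q', ∑ n ∈ range N, Φ q' k' (a ^ n)‖ := by
      have := norm_le_norm_sub_add (∑ n ∈ range N, D.Ft F q (a ^ n)) (∑ k' ∈ S q', ∑ n ∈ range N, Φ q' k' (a ^ n))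
      linarith
    have h7 := norm_sum_le (S q') fun k' => ∑ n ∈ range N, Φ q' k' (a ^ n)
    linarith
  obtain ⟨k', hk'S, hk'⟩ : ∃ k' ∈ S q', δ₁ * N ≤ ‖∑ n ∈ range N, Φ q' k' (a ^ n)‖ := by
    by_contra hcon
    push Not at hcon
    have h5 : ∑ k' ∈ S q', ‖∑ n ∈ range N, Φ q' k' (a ^ n)‖ ≤ #(S q') * (δ₁ * N) := by
      rw [← nsmul_eq_mul, ← sum_const]
      exact sum_le_sum fun k' hk' => (hcon k' hk').le
    have h6 : (#(S q') : ℝ) ≤ R := by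
      rw [hR]
      exact_mod_cast single_le_sum (f := fun q => #(S q)) (fun _ _ => Nat.zero_le _) hq'T
    have h7 : (#(S q') : ℝ) * (δ₁ * N) ≤ (R + 1) * (δ₁ * N) :=
      mul_le_mul_of_nonneg_right (h6.trans (le_add_of_nonneg_right zero_le_one)) (mul_pos hδ₁0 hNr).le
    have h8 : ((R : ℝ) + 1) * (δ₁ * N) = δ / 4 * N := by
      rw [← mul_assoc, hδ₂]
    have h9 : 0 < δ * N := mul_pos hδ hNr
    have h10 := h4.trans (h5.trans h7)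
    rw [h8] at h10
    clear hK hN₀ h1 h2 h3 hcon
    linarith
  have hk'0 : k' ≠ 0 := by
    intro h0
    rw [h0, sum_eq_zero fun n _ => D.Ft_zero hk hF q' (h1 q') (h2 q') (a ^ n), norm_zero] at hk'
    exact absurd hk' (not_le.2 (mul_pos hδ₁0 hNr))
  have h5 : ∀ f : (G × G) → (D.tilde.ι j → ℤ) → ℕ, f q' k' ≤ ∑ q ∈ T, ∑ k' ∈ S q, f q k' := by
    intro f
    refine le_trans ?_ (single_le_sum (f := fun q => ∑ k' ∈ S q, f q k') (fun _ _ => Nat.zero_le _) hq'T)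
    exact single_le_sum (f := fun k' => f q' k') (fun _ _ => Nat.zero_le _) hk'S
  obtain ⟨m, hm1, hm2⟩ := hN₀ q' k' hk'0 N (by have := h5 N₀; omega) a 1 (by
    have h6 : ∀ n, Φ q' k' (a ^ n * 1) = Φ q' k' (a ^ n) := fun n => by rw [mul_one]
    rw [sum_congr rfl fun n _ => h6 n]; exact hk')
  exact ⟨m, hm1.mono (h5 K), hm2⟩

end NilData

end Pool.Agent.Helper16.NL
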