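import Pool.Agent.Helper16.NL.Asm

/-! All nilmanifolds: all multiplicative functions, and the mean value. -/

set_option autoImplicit false

namespace Pool.Agent.Helper16.NL

open Finset Topology MeasureTheory
open Pool.Agent.H807R2.Dav (ee ee_add norm_ee ee_zero)
open Pool.Agent.Helper44K9.FU (Mul1)

variable {G : Type} [Group G] [TopologicalSpace G] [IsTopologicalGroup G] {Γ : Subgroup G} (D : NilData G Γ)

/-- the function on the quotient -/
noncomputable def qf (F : G → ℂ) (x : G ⧸ Γ) : ℂ := F x.out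

omit [TopologicalSpace G] [IsTopologicalGroup G] in
lemma qf_mk {F : G → ℂ} (hΓ : ∀ g γ, γ ∈ Γ → F (g * γ) = F g) (g : G) : qf F (g : G ⧸ Γ) = F g := by
  unfold qf
  have h1 : (((g : G ⧸ Γ).out : G) : G ⧸ Γ) = (g : G ⧸ Γ) := Quotient.out_eq' _
  have h2 := QuotientGroup.eq.1 h1
  have h3 := hΓ ((g : G ⧸ Γ).out) _ h2
  rw [mul_inv_cancel_left] at h3
  exact h3.symm

omit [IsTopologicalGroup G] in
lemma qf_cont {F : G → ℂ} (hF : Continuous F) (hΓ : ∀ g γ, γ ∈ Γ → F (g * γ) = F g) : Continuous (qf F : G ⧸ Γ → ℂ) := by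
  rw [(QuotientGroup.isQuotientMap_mk Γ).continuous_iff]
  have : (qf F : G ⧸ Γ → ℂ) ∘ (QuotientGroup.mk : G → G ⧸ Γ) = F := by
    funext g
    exact qf_mk hΓ g
  rw [this]
  exact hF

variable [MeasurableSpace (G ⧸ Γ)] [BorelSpace (G ⧸ Γ)] (ρ : Measure (G ⧸ Γ)) [IsProbabilityMeasure ρ]

include D in
lemma qf_int {F : G → ℂ} (hF : Continuous F) (hΓ : ∀ g γ, γ ∈ Γ → F (g * γ) = F g) : Integrable (qf F : G ⧸ Γ → ℂ) ρ := by
  obtain ⟨B, _, hB⟩ := D.bdd hF hΓ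
  exact Integrable.of_bound (qf_cont hF hΓ).aestronglyMeasurable B (Filter.Eventually.of_forall fun x => hB _)

omit [IsProbabilityMeasure ρ] in
/-- functions with a nontrivial character have mean zero -/
lemma mean_char (hρ : ∀ g : G, ρ.map (fun x => g • x) = ρ) {j : ℕ} {k : D.ι j → ℤ} (hk : k ≠ 0) {F : G → ℂ} (hF : VC D j k F) :
    ∫ x, (qf F : G ⧸ Γ → ℂ) x ∂ρ = 0 := by
  classical
  obtain ⟨i, hi⟩ := Function.ne_iff.1 hk
  rw [Pi.zero_apply] at hi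
  have hir : (k i : ℝ) ≠ 0 := by exact_mod_cast hi
  set t : D.ι j → ℝ := Pi.single i (1 / (2 * (k i : ℝ))) with ht
  have hdt : dt k t = 1 / 2 := by
    unfold dt
    rw [sum_eq_single i]
    · rw [ht, Pi.single_eq_same]; field_simp
    · intro b _ hb
      rw [ht, Pi.single_eq_of_ne hb, mul_zero]
    · intro h; exact absurd (mem_univ i) h
  have hee : ee (1 / 2) = -1 := by
    unfold ee
    rw [show (2 * (Real.pi : ℂ) * Complex.I * ((1 / 2 : ℝ) : ℂ)) = Real.pi * Complex.I by push_cast; ring]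
    exact Complex.exp_pi_mul_I
  have h1 : ∀ x : G ⧸ Γ, qf F (D.σ j t • x) = - qf F x := by
    intro x
    obtain ⟨g, rfl⟩ := QuotientGroup.mk_surjective x
    have h2 : D.σ j t • (g : G ⧸ Γ) = ((D.σ j t * g : G) : G ⧸ Γ) := rfl
    rw [h2, qf_mk hF.2.1, qf_mk hF.2.1, hF.2.2 _ (D.σ_mem j t), D.π_σ, hdt, hee]
    ring
  have h2 : ∫ x, (qf F : G ⧸ Γ → ℂ) x ∂ρ = ∫ x, qf F (D.σ j t • x) ∂ρ := by
    conv_lhs => rw [← hρ (D.σ j t)]
    rw [integral_map (continuous_const_smul _).aemeasurable]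
    exact (qf_cont hF.1 hF.2.1).aestronglyMeasurable
  simp only [h1] at h2
  rw [integral_neg] at h2
  have h3 : (2 : ℂ) * ∫ x, (qf F : G ⧸ Γ → ℂ) x ∂ρ = 0 := by linear_combination h2
  exact (mul_eq_zero.1 h3).resolve_left two_ne_zero

variable {𝓕 : Set (ℕ → ℂ)}

/-- all multiplicative functions, functions minus the mean value -/
theorem gd_all (hρ : ∀ g : G, ρ.map (fun x => g • x) = ρ) (h𝓕 : ∀ f ∈ 𝓕, Mul1 f) (n : ℕ) :
    ∀ F : G → ℂ, Continuous F → (∀ g γ, γ ∈ Γ → F (g * γ) = F g) → (∀ z ∈ D.fil n, ∀ g, F (z * g) = F g) →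
    Gd D 𝓕 (fun g => F g - ∫ x, (qf F : G ⧸ Γ → ℂ) x ∂ρ) := by
  induction n with
  | zero =>
    intro F hF hΓ hinv
    have hc : ∀ g, F g = F 1 := fun g => by
      have := hinv g (D.mem0 g) 1
      rwa [mul_one] at this
    have h1 : ∫ x, (qf F : G ⧸ Γ → ℂ) x ∂ρ = F 1 := by
      have : (qf F : G ⧸ Γ → ℂ) = fun _ => F 1 := by
        funext x
        exact hc _
      rw [this]
      simp
    have h2 : (fun g => F g - ∫ x, (qf F : G ⧸ Γ → ℂ) x ∂ρ) = fun _ => 0 := by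
      funext g
      rw [h1, hc, sub_self]
    rw [h2]
    exact gd_zero D
  | succ n ih =>
    intro F hF hΓ hinv
    classical
    obtain ⟨B, _, hB⟩ := D.bdd hF hΓ
    refine gd_approx D (B := B + ‖∫ x, (qf F : G ⧸ Γ → ℂ) x ∂ρ‖) (fun f hf => (h𝓕 f hf).1)
      (fun g => (norm_sub_le _ _).trans (add_le_add (hB g) le_rfl)) fun ε hε => ?_
    obtain ⟨S, Φ, h1, _, h3⟩ := D.vert hF hΓ hinv (ε := ε / 2) (by positivity)
    refine ⟨fun g => ∑ k ∈ S, (Φ k g - ∫ x, (qf (Φ k) : G ⧸ Γ → ℂ) x ∂ρ),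
      gd_sum D (fun f hf => (h𝓕 f hf).1) S (fun k g => Φ k g - ∫ x, (qf (Φ k) : G ⧸ Γ → ℂ) x ∂ρ) fun k _ => ?_, fun g => ?_⟩
    · by_cases hk : k = 0
      · refine ih (Φ k) (h1 k).1 (h1 k).2.1 fun z hz g => ?_
        rw [(h1 k).2.2 z hz g, hk]
        have : dt (0 : D.ι n → ℤ) (D.π n z) = 0 := by unfold dt; simp
        rw [this, ee_zero, one_mul]
      · simp only [mean_char D ρ hρ hk (h1 k), sub_zero]
        exact gd_char D hk (h1 k) h𝓕
    · have h4 : ‖∫ x, (qf F : G ⧸ Γ → ℂ) x ∂ρ - ∑ k ∈ S, ∫ x, (qf (Φ k) : G ⧸ Γ → ℂ) x ∂ρ‖ ≤ ε / 2 := by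
        rw [← integral_finsetSum S fun k _ => qf_int D ρ (h1 k).1 (h1 k).2.1,
          ← integral_sub (qf_int D ρ hF hΓ) (integrable_finsetSum S fun k _ => qf_int D ρ (h1 k).1 (h1 k).2.1)]
        refine (norm_integral_le_of_norm_le_const (C := ε / 2) (Filter.Eventually.of_forall fun x => ?_)).trans ?_
        · exact h3 _
        · simp
      beta_reduce
      rw [sum_sub_distrib]
      have h5 : F g - ∫ x, (qf F : G ⧸ Γ → ℂ) x ∂ρ - (∑ k ∈ S, Φ k g - ∑ k ∈ S, ∫ x, (qf (Φ k) : G ⧸ Γ → ℂ) x ∂ρ) =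
          (F g - ∑ k ∈ S, Φ k g) - (∫ x, (qf F : G ⧸ Γ → ℂ) x ∂ρ - ∑ k ∈ S, ∫ x, (qf (Φ k) : G ⧸ Γ → ℂ) x ∂ρ) := by ring
      rw [h5]
      refine (norm_sub_le _ _).trans ?_
      have := h3 g
      linarith

end Pool.Agent.Helper16.NL
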