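import Pool.Agent.Helper16.NL.Bl

/-! Nilpotent groups with a lattice: the data. -/

set_option autoImplicit false

namespace Pool.Agent.Helper16.NL

open Finset Pointwise
open Pool.Agent.H807R2.Dav (ee)

/-- Mal'cev data of a nilpotent topological group `G` and a subgroup `Γ`: a filtration `G = fil 0 ≥ fil 1 ≥ …` with
`[fil i, fil j] ≤ fil (i + j + 1)` and `fil s = 1`; homomorphisms `π i` of `fil i` onto a real vector space, with kernel
`fil (i + 1)`, integral on `Γ`; continuous sections `σ i` of them with `σ i (m) ∈ Γ` for integral vectors `m`; no nonzero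
integral linear form vanishes on the commutators `[u, g]`, `u ∈ fil i`, `g ∈ G`. -/
structure NilData (G : Type) [Group G] [TopologicalSpace G] [IsTopologicalGroup G] (Γ : Subgroup G) where
  fil : ℕ → Subgroup G
  fil_zero : fil 0 = ⊤
  fil_anti : ∀ i, fil (i + 1) ≤ fil i
  comm : ∀ i j x y, x ∈ fil i → y ∈ fil j → x * y * x⁻¹ * y⁻¹ ∈ fil (i + j + 1)
  s : ℕ
  fil_s : fil s = ⊥
  ι : ℕ → Type
  fin : ∀ i, Fintype (ι i)
  π : ∀ i, G → ι i → ℝ
  π_cont : ∀ i, ContinuousOn (π i) (fil i)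
  π_mul : ∀ i x y, x ∈ fil i → y ∈ fil i → π i (x * y) = π i x + π i y
  π_ker : ∀ i x, x ∈ fil i → (π i x = 0 ↔ x ∈ fil (i + 1))
  π_int : ∀ i x, x ∈ fil i → x ∈ Γ → ∃ m : ι i → ℤ, π i x = fun j => (m j : ℝ)
  σ : ∀ i, (ι i → ℝ) → G
  σ_cont : ∀ i, Continuous (σ i)
  σ_mem : ∀ i t, σ i t ∈ fil i
  π_σ : ∀ i t, π i (σ i t) = t
  σ_int : ∀ i (m : ι i → ℤ), σ i (fun j => (m j : ℝ)) ∈ Γ
  nd : ∀ i (m : ι (i + 1) → ℤ), (∀ u ∈ fil i, ∀ g : G, ∑ j, (m j : ℝ) * π (i + 1) (u * g * u⁻¹ * g⁻¹) j = 0) → m = 0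

attribute [instance] NilData.fin

namespace NilData

variable {G : Type} [Group G] [TopologicalSpace G] [IsTopologicalGroup G] {Γ : Subgroup G} (D : NilData G Γ)

lemma mem0 (g : G) : g ∈ D.fil 0 := by rw [D.fil_zero]; trivial

lemma anti {i j : ℕ} (h : i ≤ j) : D.fil j ≤ D.fil i := by
  induction j, h using Nat.le_induction with
  | base => exact le_rfl
  | succ j _ ih => exact (D.fil_anti j).trans ih

lemma comm' (i : ℕ) {x : G} (hx : x ∈ D.fil i) (g : G) : x * g * x⁻¹ * g⁻¹ ∈ D.fil (i + 1) :=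
  D.comm i 0 x g hx (D.mem0 g)

lemma comm'' (i : ℕ) {x : G} (hx : x ∈ D.fil i) (g : G) : g * x * g⁻¹ * x⁻¹ ∈ D.fil (i + 1) := by
  have := (D.fil (i + 1)).inv_mem (D.comm' i hx g)
  convert this using 1
  group

lemma conj_mem (i : ℕ) {x : G} (hx : x ∈ D.fil i) (g : G) : g * x * g⁻¹ ∈ D.fil i := by
  have h1 := (D.fil i).mul_mem (D.fil_anti i (D.comm'' i hx g)) hx
  convert h1 using 1
  group

lemma conj_mem' (i : ℕ) {x : G} (hx : x ∈ D.fil i) (g : G) : g⁻¹ * x * g ∈ D.fil i := by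
  have := D.conj_mem i hx g⁻¹
  rwa [inv_inv] at this

lemma π_one (i : ℕ) : D.π i 1 = 0 := by
  have := D.π_mul i 1 1 (one_mem _) (one_mem _)
  rw [mul_one] at this
  simpa using this

lemma π_inv (i : ℕ) {x : G} (hx : x ∈ D.fil i) : D.π i x⁻¹ = -D.π i x := by
  have := D.π_mul i x x⁻¹ hx ((D.fil i).inv_mem hx)
  rw [mul_inv_cancel, D.π_one] at this
  exact eq_neg_of_add_eq_zero_right this.symm

lemma π_zero (i : ℕ) {x : G} (hx : x ∈ D.fil (i + 1)) : D.π i x = 0 := (D.π_ker i x (D.fil_anti i hx)).2 hx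

lemma π_conj (i : ℕ) {x : G} (hx : x ∈ D.fil i) (g : G) : D.π i (g * x * g⁻¹) = D.π i x := by
  have h1 : g * x * g⁻¹ = (g * x * g⁻¹ * x⁻¹) * x := by group
  rw [h1, D.π_mul i _ _ (D.fil_anti i (D.comm'' i hx g)) hx, D.π_zero i (D.comm'' i hx g), zero_add]

lemma π_conj' (i : ℕ) {x : G} (hx : x ∈ D.fil i) (g : G) : D.π i (g⁻¹ * x * g) = D.π i x := by
  have := D.π_conj i hx g⁻¹
  rwa [inv_inv] at this

lemma π_mul0 (x y : G) : D.π 0 (x * y) = D.π 0 x + D.π 0 y := D.π_mul 0 x y (D.mem0 _) (D.mem0 _)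

lemma π_pow0 (x : G) (n : ℕ) : D.π 0 (x ^ n) = (n : ℝ) • D.π 0 x := by
  induction n with
  | zero => simp [D.π_one]
  | succ n ih => rw [pow_succ, D.π_mul0, ih]; push_cast; rw [add_smul, one_smul]

lemma fil_big {i : ℕ} (h : D.s ≤ i) {x : G} (hx : x ∈ D.fil i) : x = 1 := by
  have := D.anti h hx
  rw [D.fil_s] at this
  exact this

/-- two elements with the same image -/
lemma same {i : ℕ} {x y : G} (hx : x ∈ D.fil i) (hy : y ∈ D.fil i) (h : D.π i x = D.π i y) :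
    x * y⁻¹ ∈ D.fil (i + 1) := by
  rw [← D.π_ker i _ ((D.fil i).mul_mem hx ((D.fil i).inv_mem hy)), D.π_mul i _ _ hx ((D.fil i).inv_mem hy), D.π_inv i hy, h,
    add_neg_cancel]

/-- compact sets of representatives -/
lemma cpt (i : ℕ) : ∃ C : Set G, IsCompact C ∧ C ⊆ D.fil i ∧ ∀ g ∈ D.fil i, ∃ c ∈ C, ∃ γ ∈ Γ, γ ∈ D.fil i ∧ g = c * γ := by
  have key : ∀ n i : ℕ, D.s ≤ i + n → ∃ C : Set G, IsCompact C ∧ C ⊆ D.fil i ∧
      ∀ g ∈ D.fil i, ∃ c ∈ C, ∃ γ ∈ Γ, γ ∈ D.fil i ∧ g = c * γ := by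
    intro n
    induction n with
    | zero =>
      intro i hi
      refine ⟨{1}, isCompact_singleton, by simp, fun g hg => ⟨1, rfl, 1, one_mem _, one_mem _, ?_⟩⟩
      rw [D.fil_big hi hg, one_mul]
    | succ n ih =>
      intro i hi
      obtain ⟨C, hC, hC1, hC2⟩ := ih (i + 1) (by omega)
      refine ⟨(D.σ i '' Set.pi Set.univ fun _ => Set.Icc 0 1) * C,
        ((isCompact_univ_pi fun _ => isCompact_Icc).image (D.σ_cont i)).mul hC, ?_, fun g hg => ?_⟩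
      · rintro _ ⟨_, ⟨t, _, rfl⟩, c, hc, rfl⟩
        exact (D.fil i).mul_mem (D.σ_mem i t) (D.fil_anti i (hC1 hc))
      · set t := D.π i g with ht
        set u : G := D.σ i (fun j => Int.fract (t j)) with hu
        set v : G := D.σ i (fun j => ((⌊t j⌋ : ℤ) : ℝ)) with hv
        have hui : u ∈ D.fil i := D.σ_mem i _
        have hvi : v ∈ D.fil i := D.σ_mem i _
        have hvΓ : v ∈ Γ := D.σ_int i fun j => ⌊t j⌋
        have h1 : u⁻¹ * g * v⁻¹ ∈ D.fil (i + 1) := by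
          have h2 : u⁻¹ * g ∈ D.fil i := (D.fil i).mul_mem ((D.fil i).inv_mem hui) hg
          rw [← D.π_ker i _ ((D.fil i).mul_mem h2 ((D.fil i).inv_mem hvi)), D.π_mul i _ _ h2 ((D.fil i).inv_mem hvi),
            D.π_mul i _ _ ((D.fil i).inv_mem hui) hg, D.π_inv i hui, D.π_inv i hvi, hu, hv, D.π_σ, D.π_σ, ← ht]
          funext j
          simp only [Pi.add_apply, Pi.neg_apply, Pi.zero_apply]
          have := Int.fract_add_floor (t j)
          linarith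
        obtain ⟨c, hc, γ, hγ, hγi, he⟩ := hC2 _ h1
        have h2 : u ∈ D.σ i '' Set.pi Set.univ fun _ => Set.Icc 0 1 := by
          refine ⟨_, ?_, rfl⟩
          intro j _
          exact ⟨Int.fract_nonneg _, (Int.fract_lt_one _).le⟩
        refine ⟨u * c, ⟨u, h2, c, hc, rfl⟩, γ * v, Γ.mul_mem hγ hvΓ,
          (D.fil i).mul_mem (D.fil_anti i hγi) hvi, ?_⟩
        · have : g = u * (u⁻¹ * g * v⁻¹) * v := by group
          rw [this, he]; group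
  exact key D.s i (by omega)

include D in
lemma cpt0 : ∃ C : Set G, IsCompact C ∧ ∀ g : G, ∃ c ∈ C, ∃ γ ∈ Γ, g = c * γ := by
  obtain ⟨C, hC, _, h⟩ := D.cpt 0
  refine ⟨C, hC, fun g => ?_⟩
  obtain ⟨c, hc, γ, hγ, _, he⟩ := h g (D.mem0 g)
  exact ⟨c, hc, γ, hγ, he⟩

include D in
/-- invariant continuous functions are bounded -/
lemma bdd {F : G → ℂ} (hF : Continuous F) (hΓ : ∀ g γ, γ ∈ Γ → F (g * γ) = F g) : ∃ B : ℝ, 0 < B ∧ ∀ g, ‖F g‖ ≤ B := by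
  obtain ⟨C, hC, h⟩ := D.cpt0
  obtain ⟨B, hB⟩ := hC.exists_bound_of_continuousOn hF.continuousOn
  refine ⟨|B| + 1, by positivity, fun g => ?_⟩
  obtain ⟨c, hc, γ, hγ, rfl⟩ := h g
  rw [hΓ _ _ hγ]
  have := hB c hc
  have := le_abs_self B
  linarith

/-- the commutator form -/
lemma form : ∃ A : D.ι 1 → D.ι 0 → D.ι 0 → ℤ, (∀ c b : G, ∀ l, D.π 1 (c⁻¹ * b * c * b⁻¹) l =
    ∑ i, ∑ p, (A l i p : ℝ) * D.π 0 c i * D.π 0 b p) ∧
    ∀ m : D.ι 1 → ℤ, m ≠ 0 → ∃ i p, ∑ l, m l * A l i p ≠ 0 := by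
  classical
  -- the form on the group
  have hmem : ∀ c b : G, c⁻¹ * b * c * b⁻¹ ∈ D.fil 1 := fun c b => by
    have := D.comm'' 0 (D.mem0 b) c⁻¹
    rwa [inv_inv] at this
  have hadd1 : ∀ c c' b : G, D.π 1 ((c * c')⁻¹ * b * (c * c') * b⁻¹) =
      D.π 1 (c⁻¹ * b * c * b⁻¹) + D.π 1 (c'⁻¹ * b * c' * b⁻¹) := by
    intro c c' b
    have h1 : (c * c')⁻¹ * b * (c * c') * b⁻¹ = (c'⁻¹ * (c⁻¹ * b * c * b⁻¹) * c') * (c'⁻¹ * b * c' * b⁻¹) := by group
    rw [h1, D.π_mul 1 _ _ (D.conj_mem' 1 (hmem c b) c') (hmem c' b), D.π_conj' 1 (hmem c b)]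
  have hadd2 : ∀ c b b' : G, D.π 1 (c⁻¹ * (b * b') * c * (b * b')⁻¹) =
      D.π 1 (c⁻¹ * b * c * b⁻¹) + D.π 1 (c⁻¹ * b' * c * b'⁻¹) := by
    intro c b b'
    have h1 : c⁻¹ * (b * b') * c * (b * b')⁻¹ = (c⁻¹ * b * c * b⁻¹) * (b * (c⁻¹ * b' * c * b'⁻¹) * b⁻¹) := by group
    rw [h1, D.π_mul 1 _ _ (hmem c b) (D.conj_mem 1 (hmem c b') b), D.π_conj 1 (hmem c b')]
  have hz1 : ∀ c b : G, c ∈ D.fil 1 → D.π 1 (c⁻¹ * b * c * b⁻¹) = 0 := by
    intro c b hc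
    have := D.comm' 1 ((D.fil 1).inv_mem hc) b
    rw [inv_inv] at this
    exact D.π_zero 1 this
  have hz2 : ∀ c b : G, b ∈ D.fil 1 → D.π 1 (c⁻¹ * b * c * b⁻¹) = 0 := by
    intro c b hb
    have := D.comm'' 1 hb c⁻¹
    rw [inv_inv] at this
    exact D.π_zero 1 this
  -- real linearity
  have hlin : ∀ f : (D.ι 0 → ℝ) → (D.ι 1 → ℝ), Continuous f → (∀ x y, f (x + y) = f x + f y) →
      ∀ x l, f x l = ∑ i, x i * f (Pi.single i 1) l := by
    intro f hf hadd x l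
    set g : (D.ι 0 → ℝ) →+ (D.ι 1 → ℝ) := AddMonoidHom.mk' f hadd with hg
    have h1 := LinearMap.pi_apply_eq_sum_univ (g.toRealLinearMap hf).toLinearMap x
    have h2 : (g.toRealLinearMap hf).toLinearMap x = f x := rfl
    rw [h2] at h1
    rw [h1, Finset.sum_apply]
    refine sum_congr rfl fun i _ => ?_
    rw [Pi.smul_apply, smul_eq_mul]
    have h3 : (fun j => if i = j then (1 : ℝ) else 0) = Pi.single i 1 := by
      funext j; simp [Pi.single_apply, eq_comm]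
    rw [h3]
    rfl
  -- sections
  have hσ : ∀ x : D.ι 0 → ℝ, ∀ c : G, D.π 0 c = x → c * (D.σ 0 x)⁻¹ ∈ D.fil 1 := by
    intro x c hc
    exact D.same (D.mem0 _) (D.mem0 _) (by rw [hc, D.π_σ])
  have hdep1 : ∀ c c' b : G, D.π 0 c = D.π 0 c' → D.π 1 (c⁻¹ * b * c * b⁻¹) = D.π 1 (c'⁻¹ * b * c' * b⁻¹) := by
    intro c c' b h
    have h1 : c = (c * c'⁻¹) * c' := by group
    conv_lhs => rw [h1]
    rw [hadd1, hz1 _ _ (D.same (D.mem0 _) (D.mem0 _) h), zero_add]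
  have hdep2 : ∀ c b b' : G, D.π 0 b = D.π 0 b' → D.π 1 (c⁻¹ * b * c * b⁻¹) = D.π 1 (c⁻¹ * b' * c * b'⁻¹) := by
    intro c b b' h
    have h1 : b = (b * b'⁻¹) * b' := by group
    conv_lhs => rw [h1]
    rw [hadd2, hz2 _ _ (D.same (D.mem0 _) (D.mem0 _) h), zero_add]
  have hf1 : ∀ b c : G, ∀ l, D.π 1 (c⁻¹ * b * c * b⁻¹) l =
      ∑ i, D.π 0 c i * D.π 1 ((D.σ 0 (Pi.single i 1))⁻¹ * b * D.σ 0 (Pi.single i 1) * b⁻¹) l := by
    intro b c l
    set f : (D.ι 0 → ℝ) → (D.ι 1 → ℝ) := fun x => D.π 1 ((D.σ 0 x)⁻¹ * b * D.σ 0 x * b⁻¹) with hf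
    have h1 : Continuous f := by
      refine (D.π_cont 1).comp_continuous ?_ fun x => hmem _ _
      have := D.σ_cont 0
      fun_prop
    have h2 : ∀ x y, f (x + y) = f x + f y := by
      intro x y
      simp only [hf]
      rw [← hadd1]
      apply hdep1
      rw [D.π_σ, D.π_mul0, D.π_σ, D.π_σ]
    have h3 := hlin f h1 h2 (D.π 0 c) l
    rw [← h3]
    simp only [hf]
    rw [hdep1 c (D.σ 0 (D.π 0 c)) b (by rw [D.π_σ])]
  have hf2 : ∀ c b : G, ∀ l, D.π 1 (c⁻¹ * b * c * b⁻¹) l =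
      ∑ p, D.π 0 b p * D.π 1 (c⁻¹ * D.σ 0 (Pi.single p 1) * c * (D.σ 0 (Pi.single p 1))⁻¹) l := by
    intro c b l
    set f : (D.ι 0 → ℝ) → (D.ι 1 → ℝ) := fun x => D.π 1 (c⁻¹ * D.σ 0 x * c * (D.σ 0 x)⁻¹) with hf
    have h1 : Continuous f := by
      refine (D.π_cont 1).comp_continuous ?_ fun x => hmem _ _
      have := D.σ_cont 0
      fun_prop
    have h2 : ∀ x y, f (x + y) = f x + f y := by
      intro x y
      simp only [hf]
      rw [← hadd2]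
      apply hdep2
      rw [D.π_σ, D.π_mul0, D.π_σ, D.π_σ]
    have h3 := hlin f h1 h2 (D.π 0 b) l
    rw [← h3]
    simp only [hf]
    rw [hdep2 c b (D.σ 0 (D.π 0 b)) (by rw [D.π_σ])]
  -- integrality
  have hΓ : ∀ i : D.ι 0, D.σ 0 (Pi.single i 1) ∈ Γ := by
    intro i
    have h1 := D.σ_int 0 (Pi.single i 1)
    convert h1 using 2
    funext j
    rcases eq_or_ne j i with h | h
    · subst h; simp
    · simp [Pi.single_eq_of_ne h]
  have hint : ∀ i p : D.ι 0, ∃ m : D.ι 1 → ℤ, D.π 1 ((D.σ 0 (Pi.single i 1))⁻¹ * D.σ 0 (Pi.single p 1) *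
      D.σ 0 (Pi.single i 1) * (D.σ 0 (Pi.single p 1))⁻¹) = fun j => (m j : ℝ) := by
    intro i p
    exact D.π_int 1 _ (hmem _ _) (Γ.mul_mem (Γ.mul_mem (Γ.mul_mem (Γ.inv_mem (hΓ i)) (hΓ p)) (hΓ i)) (Γ.inv_mem (hΓ p)))
  choose m hm using hint
  have hA : ∀ c b : G, ∀ l, D.π 1 (c⁻¹ * b * c * b⁻¹) l =
      ∑ i, ∑ p, (m i p l : ℝ) * D.π 0 c i * D.π 0 b p := by
    intro c b l
    rw [hf1]
    refine sum_congr rfl fun i _ => ?_
    rw [hf2, mul_sum]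
    refine sum_congr rfl fun p _ => ?_
    rw [hm]
    ring
  refine ⟨fun l i p => m i p l, hA, fun k hk => ?_⟩
  by_contra hcon
  push Not at hcon
  apply hk
  apply D.nd 0 k
  intro u _ g
  have h1 : ∀ l, D.π (0 + 1) (u * g * u⁻¹ * g⁻¹) l = ∑ i, ∑ p, (m i p l : ℝ) * D.π 0 u⁻¹ i * D.π 0 g p := by
    intro l
    have := hA u⁻¹ g l
    rw [inv_inv] at this
    exact this
  calc ∑ l, (k l : ℝ) * D.π (0 + 1) (u * g * u⁻¹ * g⁻¹) l
      = ∑ l, ∑ i, ∑ p, (k l : ℝ) * ((m i p l : ℝ) * D.π 0 u⁻¹ i * D.π 0 g p) := by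
        refine sum_congr rfl fun l _ => ?_
        rw [h1, mul_sum]
        refine sum_congr rfl fun i _ => ?_
        rw [mul_sum]
    _ = ∑ i, ∑ p, (∑ l, (k l : ℝ) * (m i p l : ℝ)) * D.π 0 u⁻¹ i * D.π 0 g p := by
        rw [sum_comm]
        refine sum_congr rfl fun i _ => ?_
        rw [sum_comm]
        refine sum_congr rfl fun p _ => ?_
        rw [sum_mul, sum_mul]
        exact sum_congr rfl fun l _ => by ring
    _ = 0 := by
        refine sum_eq_zero fun i _ => sum_eq_zero fun p _ => ?_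
        have h2 : (∑ l, (k l : ℝ) * (m i p l : ℝ)) = 0 := by exact_mod_cast hcon i p
        rw [h2, zero_mul, zero_mul]

end NilData

/-- continuous functions on `G/Γ` with a character on `fil j` -/
def VC {G : Type} [Group G] [TopologicalSpace G] [IsTopologicalGroup G] {Γ : Subgroup G} (D : NilData G Γ) (j : ℕ)
    (k : D.ι j → ℤ) (F : G → ℂ) : Prop :=
  Continuous F ∧ (∀ g γ, γ ∈ Γ → F (g * γ) = F g) ∧ ∀ z ∈ D.fil j, ∀ g, F (z * g) = ee (dt k (D.π j z)) * F g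

end Pool.Agent.Helper16.NL
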