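import Pool.Agent.Helper16.NL.Step

/-! Correlations of two nilsequences. -/

set_option autoImplicit false

namespace Pool.Agent.Helper16.NL

open Finset Topology
open Pool.Agent.H807R2.Dav (ee ee_add norm_ee ee_zero ee_int)

variable {G : Type} [Group G] [TopologicalSpace G] [IsTopologicalGroup G] {Γ : Subgroup G} (D : NilData G Γ)

lemma VC_sq {j : ℕ} {k : D.ι j → ℤ} {F : G → ℂ} (hF : VC D j k F) :
    VC D.sq j (Sum.elim k (-k)) (fun p : G × G => F p.1 * (starRingEnd ℂ) (F p.2)) := by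
  refine ⟨?_, ?_, ?_⟩
  · have := hF.1
    fun_prop
  · rintro ⟨g, g'⟩ ⟨γ, γ'⟩ ⟨h1, h2⟩
    show F (g * γ) * (starRingEnd ℂ) (F (g' * γ')) = F g * (starRingEnd ℂ) (F g')
    rw [hF.2.1 _ _ h1, hF.2.1 _ _ h2]
  · rintro ⟨z, z'⟩ ⟨h1, h2⟩ ⟨g, g'⟩
    show F (z * g) * (starRingEnd ℂ) (F (z' * g')) = _ * (F g * (starRingEnd ℂ) (F g'))
    have h3 : dt (Sum.elim k (-k)) (D.sq.π j (z, z')) = dt k (D.π j z) + -dt k (D.π j z') := by
      have h4 : dt (Sum.elim k (-k)) (D.sq.π j (z, z')) = dt (fun l => Sum.elim k (-k) (Sum.inl l)) (D.π j z) +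
        dt (fun l => Sum.elim k (-k) (Sum.inr l)) (D.π j z') := dt_sum _ _ _
      rw [h4]
      congr 1
      exact dt_neg k _
    refine Eq.trans ?_ (congrArg (fun t => ee t * (F g * (starRingEnd ℂ) (F g'))) h3).symm
    rw [hF.2.2 _ h1, hF.2.2 _ h2, ee_add, map_mul, conj_ee]
    ring

/-- correlations of two sequences -/
theorem pair {j : ℕ} {k : D.ι j → ℤ} (hk : k ≠ 0) {F : G → ℂ} (hF : VC D j k F) {δ : ℝ} (hδ : 0 < δ) :
    ∃ K : ℕ, ∀ η : ℝ, 0 < η → ∃ N₀ : ℕ, ∀ N ≥ N₀, ∀ a b y z : G,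
      δ * N ≤ ‖∑ n ∈ range N, F (a ^ n * y) * (starRingEnd ℂ) (F (b ^ n * z))‖ →
      ∃ m m' : D.ι 0 → ℤ, (m ≠ 0 ∨ m' ≠ 0) ∧ (∀ i, |m i| ≤ K) ∧ (∀ i, |m' i| ≤ K) ∧
        Nr η (dt m (D.π 0 a) + dt m' (D.π 0 b)) := by
  have hk' : Sum.elim k (-k) ≠ (0 : D.sq.ι j → ℤ) := by
    intro h
    apply hk
    funext l
    exact congrFun h (Sum.inl l)
  obtain ⟨K, hK⟩ := V_all j _ _ D.sq _ _ hk' (VC_sq D hF) δ hδ
  refine ⟨K, fun η hη => ?_⟩
  obtain ⟨N₀, hN₀⟩ := hK η hη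
  refine ⟨N₀, fun N hN a b y z h => ?_⟩
  obtain ⟨m, hm1, hm2⟩ := hN₀ N hN (a, b) (y, z) h
  refine ⟨fun l => m (Sum.inl l), fun l => m (Sum.inr l), ?_, fun i => hm1.2 (Sum.inl i), fun i => hm1.2 (Sum.inr i), ?_⟩
  · by_contra hcon
    push Not at hcon
    apply hm1.1
    funext l
    cases l with
    | inl l => exact congrFun hcon.1 l
    | inr l => exact congrFun hcon.2 l
  · have h3 : dt m (D.sq.π 0 (a, b)) = dt (fun l => m (Sum.inl l)) (D.π 0 a) + dt (fun l => m (Sum.inr l)) (D.π 0 b) :=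
      dt_sum _ _ _
    rw [h3] at hm2
    exact hm2

end Pool.Agent.Helper16.NL
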