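import Pool.Agent.Helper16.NL.Box

/-! Points of a line in a torus: slabs. -/

set_option autoImplicit false

namespace Pool.Agent.Helper16.NL

open Finset

variable {ι : Type} [Fintype ι]

lemma floor_close {B : ℕ} (hB : 1 ≤ B) {u v : ℝ} (hu : 0 ≤ u) (hv : 0 ≤ v) (h : ⌊B * u⌋₊ = ⌊B * v⌋₊) :
    |u - v| ≤ 1 / B := by
  have hB0 : (0 : ℝ) < B := by exact_mod_cast hB
  have h1 := Nat.floor_le (a := B * u) (by positivity)
  have h2 := Nat.lt_floor_add_one (B * u)
  have h3 := Nat.floor_le (a := B * v) (by positivity)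
  have h4 := Nat.lt_floor_add_one (B * v)
  rw [h] at h1 h2
  have h5 : |B * (u - v)| ≤ 1 := by rw [abs_le]; constructor <;> linarith
  rw [abs_mul, abs_of_pos hB0] at h5
  rw [le_div_iff₀ hB0]
  linarith

lemma nr_round {ρ y : ℝ} (h : Nr ρ y) : |y - round y| ≤ ρ := by
  obtain ⟨a, ha⟩ := h
  exact (round_le y a).trans ha

open Classical in
/-- slabs -/
theorem slab {c W : ℝ} (hc : 0 < c) (hW : 0 ≤ W) : ∃ M : ℕ, 1 ≤ M ∧ ∀ η : ℝ, 0 < η → ∃ L₀ : ℕ, 1 ≤ L₀ ∧ ∀ L ≥ L₀,
    ∀ x : ι → ℝ, (∀ k : ι → ℤ, Bd M k → ¬ Nr η (dt k x)) → ∀ w : ι → ℝ, (∀ i, |w i| ≤ W) →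
    ∀ i₀, (∀ i, |w i| ≤ |w i₀|) → 0 < |w i₀| → ∀ κ ρ : ℝ, ρ ≤ |w i₀| / (16 * M * (Fintype.card ι + 2)) → ∀ a : ℕ,
    (#((Ico a (a + L)).filter (fun h : ℕ => Nr ρ (κ + ∑ i, w i * Int.fract ((h : ℝ) * x i)))) : ℝ) ≤ c * L := by
  set d := Fintype.card ι with hd
  set C : ℝ := 2 * 4 ^ d * (16 * (d + 2)) ^ (d - 1) * (2 * (d + 1) * W + 1) with hC
  have hC0 : 0 < C := by positivity
  obtain ⟨M, hM⟩ := exists_nat_ge (C / c)
  refine ⟨M + 1, by omega, fun η hη => ?_⟩
  set M' := M + 1 with hM'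
  have hM'1 : 1 ≤ M' := by omega
  have hMr : (0 : ℝ) < M' := by positivity
  have hCM : C ≤ c * M' := by
    rw [div_le_iff₀ hc] at hM
    have : (M' : ℝ) = M + 1 := by rw [hM']; push_cast; ring
    nlinarith
  obtain ⟨L₀, hL₀⟩ := exists_nat_ge ((M' : ℝ) ^ d / η)
  refine ⟨L₀ + 1, by omega, fun L hL x hx w hw i₀ hi₀ hw0 κ ρ hρ a => ?_⟩
  have hLr : (M' : ℝ) ^ d / η ≤ L := by
    have : (L₀ : ℝ) + 1 ≤ L := by exact_mod_cast hL
    linarith
  set B : ℕ := 16 * M' * (d + 2) with hB
  have hB1 : 1 ≤ B := by rw [hB]; exact Nat.one_le_iff_ne_zero.2 (by positivity)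
  have hBr : (0 : ℝ) < B := by exact_mod_cast hB1
  have hBr1 : (1 : ℝ) ≤ B := by exact_mod_cast hB1
  have hBe : (B : ℝ) = 16 * M' * (d + 2) := by rw [hB]; push_cast; ring
  rw [← hBe] at hρ
  have hd1 : 1 ≤ d := by rw [hd]; exact Fintype.card_pos_iff.2 ⟨i₀⟩
  set y : ℕ → ℝ := fun h => κ + ∑ i, w i * Int.fract ((h : ℝ) * x i) with hy
  set S := (Ico a (a + L)).filter (fun h : ℕ => Nr ρ (y h)) with hS
  set t : Finset ((ι → ℕ) × ℤ) := (Fintype.piFinset fun i => if i = i₀ then {0} else range B) ×ˢ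
    Icc ⌈κ - (d + 1) * W⌉ ⌊κ + (d + 1) * W⌋ with ht
  set f : ℕ → (ι → ℕ) × ℤ := fun h => (fun i => if i = i₀ then 0 else ⌊B * Int.fract ((h : ℝ) * x i)⌋₊, round (y h)) with hf
  have hyb : ∀ h : ℕ, |y h - κ| ≤ d * W := by
    intro h
    rw [hy]
    simp only [add_sub_cancel_left]
    refine (abs_sum_le_sum_abs _ _).trans ?_
    calc ∑ i, |w i * Int.fract ((h : ℝ) * x i)| ≤ ∑ i : ι, W := by
          refine sum_le_sum fun i _ => ?_
          rw [abs_mul, abs_of_nonneg (Int.fract_nonneg ((h : ℝ) * x i))]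
          calc |w i| * Int.fract ((h : ℝ) * x i) ≤ W * 1 :=
                mul_le_mul (hw i) (Int.fract_lt_one _).le (Int.fract_nonneg _) hW
            _ = W := mul_one _
      _ = d * W := by rw [sum_const, nsmul_eq_mul, Finset.card_univ]
  have hρW : ρ ≤ W := by
    refine hρ.trans ?_
    rw [div_le_iff₀ hBr]
    have := hw i₀
    nlinarith
  have hmaps : ∀ h ∈ S, f h ∈ t := by
    intro h hh
    rw [ht, mem_product]
    refine ⟨Fintype.mem_piFinset.2 fun i => ?_, ?_⟩
    · by_cases hi : i = i₀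
      · simp [hf, hi]
      · simp only [hf, hi, if_false, mem_range]
        rw [Nat.floor_lt (by have := Int.fract_nonneg ((h : ℝ) * x i); positivity)]
        have := Int.fract_lt_one ((h : ℝ) * x i)
        nlinarith
    · have h1 := nr_round (mem_filter.1 hh).2
      have h2 := hyb h
      rw [abs_le] at h1 h2
      rw [mem_Icc]
      simp only [hf]
      rw [Int.ceil_le, Int.le_floor]
      constructor <;> nlinarith
  have hfib : ∀ b ∈ t, (#(S.filter (fun h => f h = b)) : ℝ) ≤ 4 ^ d * (L / (M' : ℝ) ^ d + 1 / η) := by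
    intro b _
    rcases (S.filter (fun h => f h = b)).eq_empty_or_nonempty with he | ⟨h₀, hh₀⟩
    · rw [he]; simp; positivity
    · refine le_trans ?_ (box M' hM'1 hη x hx (fun i => (h₀ : ℝ) * x i) a L)
      have hsub : S.filter (fun h => f h = b) ⊆ (Ico a (a + L)).filter
          (fun h : ℕ => ∀ i, Nr (1 / (16 * M')) ((h : ℝ) * x i - (h₀ : ℝ) * x i)) := by
        intro h hh
        rw [mem_filter] at hh hh₀ ⊢
        refine ⟨(mem_filter.1 hh.1).1, ?_⟩
        have hff : f h = f h₀ := by rw [hh.2, hh₀.2]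
        set Δ : ι → ℝ := fun i => Int.fract ((h : ℝ) * x i) - Int.fract ((h₀ : ℝ) * x i) with hΔ
        have h1 : ∀ i, i ≠ i₀ → |Δ i| ≤ 1 / B := by
          intro i hi
          have h2 := congrFun (congrArg Prod.fst hff) i
          simp only [hf, hi, if_false] at h2
          exact floor_close hB1 (Int.fract_nonneg _) (Int.fract_nonneg _) h2
        have h2 : |Δ i₀| ≤ 1 / (16 * M') := by
          have h3 : round (y h) = round (y h₀) := congrArg Prod.snd hff
          have h4 := nr_round (mem_filter.1 hh.1).2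
          have h5 := nr_round (mem_filter.1 hh₀.1).2
          rw [h3] at h4
          have h6 : |y h - y h₀| ≤ 2 * ρ := by
            rw [abs_le] at h4 h5 ⊢
            constructor <;> linarith
          have h7 : y h - y h₀ = ∑ i, w i * Δ i := by
            simp only [hy, hΔ, mul_sub, sum_sub_distrib]; ring
          have h8 : w i₀ * Δ i₀ = (y h - y h₀) - ∑ i ∈ univ.erase i₀, w i * Δ i := by
            rw [h7, ← add_sum_erase univ _ (mem_univ i₀)]; ring
          have h9 : |∑ i ∈ univ.erase i₀, w i * Δ i| ≤ (d - 1) * (|w i₀| / B) := by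
            refine (abs_sum_le_sum_abs _ _).trans ?_
            calc ∑ i ∈ univ.erase i₀, |w i * Δ i| ≤ ∑ i ∈ univ.erase i₀, |w i₀| / B := by
                  refine sum_le_sum fun i hi => ?_
                  rw [abs_mul, div_eq_mul_one_div]
                  exact mul_le_mul (hi₀ i) (h1 i (mem_erase.1 hi).1) (abs_nonneg _) (abs_nonneg _)
              _ = (d - 1) * (|w i₀| / B) := by
                  rw [sum_const, card_erase_of_mem (mem_univ _), Finset.card_univ, nsmul_eq_mul, ← hd,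
                    Nat.cast_sub hd1]
                  push_cast; ring
          have h10 : |w i₀| * |Δ i₀| ≤ (d + 1) * (|w i₀| / B) := by
            rw [← abs_mul, h8]
            refine (abs_sub _ _).trans ?_
            linarith
          have h11 : |Δ i₀| ≤ (d + 1) / B := by
            have : |w i₀| * |Δ i₀| ≤ |w i₀| * ((d + 1) / B) := by
              refine h10.trans (le_of_eq ?_); ring
            exact le_of_mul_le_mul_left this hw0
          refine h11.trans ?_
          rw [hBe, div_le_div_iff₀ (by positivity) (by positivity)]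
          nlinarith
        have h12 : ∀ i, |Δ i| ≤ 1 / (16 * M') := by
          intro i
          by_cases hi : i = i₀
          · rw [hi]; exact h2
          · refine (h1 i hi).trans ?_
            rw [hBe]
            refine one_div_le_one_div_of_le (by positivity) ?_
            have : (0 : ℝ) ≤ d := Nat.cast_nonneg _
            nlinarith
        intro i
        refine ⟨⌊(h : ℝ) * x i⌋ - ⌊(h₀ : ℝ) * x i⌋, ?_⟩
        have h13 : (h : ℝ) * x i - (h₀ : ℝ) * x i - ((⌊(h : ℝ) * x i⌋ - ⌊(h₀ : ℝ) * x i⌋ : ℤ) : ℝ) = Δ i := by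
          simp only [hΔ, ← Int.self_sub_floor]; push_cast; ring
        rw [h13]
        exact h12 i
      exact_mod_cast card_le_card hsub
  have hcard : (#t : ℝ) ≤ (16 * (d + 2)) ^ (d - 1) * (M' : ℝ) ^ (d - 1) * (2 * (d + 1) * W + 1) := by
    have h1 : (#(Fintype.piFinset fun i => if i = i₀ then ({0} : Finset ℕ) else range B) : ℝ) =
        (16 * (d + 2)) ^ (d - 1) * (M' : ℝ) ^ (d - 1) := by
      rw [Fintype.card_piFinset, ← mul_prod_erase univ _ (mem_univ i₀)]
      simp only [if_true, card_singleton, one_mul]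
      rw [prod_congr rfl (g := fun _ => B) (fun i hi => by rw [if_neg (mem_erase.1 hi).1, card_range]), prod_const,
        card_erase_of_mem (mem_univ _), Finset.card_univ, ← hd]
      push_cast
      rw [hBe, ← mul_pow]
      congr 1; ring
    have h2 : (#(Icc ⌈κ - (d + 1) * W⌉ ⌊κ + (d + 1) * W⌋) : ℝ) ≤ 2 * (d + 1) * W + 1 := by
      rw [Int.card_Icc]
      have h3 := Int.floor_le (κ + (d + 1) * W)
      have h4 := Int.le_ceil (κ - (d + 1) * W)
      rcases le_total 0 (⌊κ + (d + 1) * W⌋ + 1 - ⌈κ - (d + 1) * W⌉) with h5 | h5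
      · have h6 : (((⌊κ + (d + 1) * W⌋ + 1 - ⌈κ - (d + 1) * W⌉).toNat : ℕ) : ℝ) =
            ((⌊κ + (d + 1) * W⌋ + 1 - ⌈κ - (d + 1) * W⌉ : ℤ) : ℝ) := by
          rw [← Int.cast_natCast, Int.toNat_of_nonneg h5]
        rw [h6]
        push_cast
        linarith
      · rw [Int.toNat_of_nonpos h5]
        push_cast
        positivity
    rw [ht, card_product]
    push_cast
    rw [h1]
    exact mul_le_mul_of_nonneg_left h2 (by positivity)
  have h1 : (#S : ℝ) = ∑ b ∈ t, (#(S.filter (fun h => f h = b)) : ℝ) := by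
    rw [← Nat.cast_sum]
    exact congrArg _ (card_eq_sum_card_fiberwise hmaps)
  have h2 : 1 / η ≤ L / (M' : ℝ) ^ d := by
    rw [div_le_div_iff₀ hη (by positivity), one_mul]
    rw [div_le_iff₀ hη] at hLr
    exact hLr
  calc (#S : ℝ) = ∑ b ∈ t, (#(S.filter (fun h => f h = b)) : ℝ) := h1
    _ ≤ ∑ b ∈ t, 4 ^ d * (L / (M' : ℝ) ^ d + 1 / η) := sum_le_sum hfib
    _ = #t * (4 ^ d * (L / (M' : ℝ) ^ d + 1 / η)) := by rw [sum_const, nsmul_eq_mul]
    _ ≤ ((16 * (d + 2)) ^ (d - 1) * (M' : ℝ) ^ (d - 1) * (2 * (d + 1) * W + 1)) *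
        (4 ^ d * (2 * (L / (M' : ℝ) ^ d))) := by
        refine mul_le_mul hcard ?_ (by positivity) (by positivity)
        refine mul_le_mul_of_nonneg_left ?_ (by positivity)
        linarith
    _ = C * (L / M') := by
        rw [hC]
        obtain ⟨e, he⟩ : ∃ e, d = e + 1 := ⟨d - 1, by omega⟩
        rw [he, Nat.add_sub_cancel]
        field_simp
        ring
    _ ≤ c * L := by
        rw [mul_div_assoc', div_le_iff₀ hMr]
        have : (0 : ℝ) ≤ L := Nat.cast_nonneg _
        nlinarith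

end Pool.Agent.Helper16.NL
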