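import Pool.Agent.Helper16.NL.Leib

/-! Linear sequences on nilmanifolds: the induction step. -/

set_option autoImplicit false

namespace Pool.Agent.Helper16.NL

open Finset Topology
open Pool.Agent.H807R2.Dav (ee ee_add norm_ee ee_zero ee_int)

lemma dt_sum {α β : Type} [Fintype α] [Fintype β] (m : α ⊕ β → ℤ) (u : α → ℝ) (w : β → ℝ) :
    dt m (Sum.elim u w) = dt (fun l => m (Sum.inl l)) u + dt (fun p => m (Sum.inr p)) w := by
  unfold dt
  rw [Fintype.sum_sum_type]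
  rfl

namespace NilData

variable {G : Type} [Group G] [TopologicalSpace G] [IsTopologicalGroup G] {Γ : Subgroup G} (D : NilData G Γ)

/-- the element of `tl` -/
def et (c b : G) : D.tl := ⟨(c⁻¹ * b * c, b), by
  rw [mem_tl]
  have := D.comm'' 0 (D.mem0 b) c⁻¹
  rwa [inv_inv] at this⟩

omit [TopologicalSpace G] [IsTopologicalGroup G] in
lemma pow_conj' (c b : G) (n : ℕ) : (c⁻¹ * b * c) ^ n = c⁻¹ * b ^ n * c := by
  induction n with
  | zero => simp
  | succ n ih => rw [pow_succ, ih, pow_succ]; group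

lemma et_pow (c b : G) (n : ℕ) : ((D.et c b) ^ n).1 = (c⁻¹ * b ^ n * c, b ^ n) := by
  rw [Subgroup.coe_pow]
  show (c⁻¹ * b * c, b) ^ n = _
  rw [Prod.pow_mk, pow_conj']

lemma Ft_et {F : G → ℂ} (hΓ : ∀ g γ, γ ∈ Γ → F (g * γ) = F g) {a y₀ γ₀ c γ : G} {h : ℕ} (hγ₀ : γ₀ ∈ Γ) (hγ : γ ∈ Γ)
    (hb : (y₀⁻¹ * a * y₀) ^ h = c * γ) (n : ℕ) :
    D.Ft F (y₀, c) ((D.et c (y₀⁻¹ * a * y₀)) ^ n) =
      F (a ^ (n + h) * (y₀ * γ₀)) * (starRingEnd ℂ) (F (a ^ n * (y₀ * γ₀))) := by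
  unfold Ft
  rw [et_pow]
  simp only
  have h1 : ∀ m : ℕ, F (a ^ m * (y₀ * γ₀)) = F (a ^ m * y₀) := fun m => by rw [← mul_assoc, hΓ _ _ hγ₀]
  rw [h1, h1, pow_conj']
  have h2 : y₀ * c * (c⁻¹ * (y₀⁻¹ * a ^ n * y₀) * c) = a ^ n * y₀ * c := by group
  have h3 : a ^ (n + h) * y₀ = a ^ n * y₀ * c * γ := by
    rw [mul_assoc (a ^ n * y₀), ← hb, pow_conj', pow_add]; group
  have h4 : y₀ * (y₀⁻¹ * a ^ n * y₀) = a ^ n * y₀ := by group
  rw [h2, h3, hΓ _ _ hγ, h4]

lemma π_et (c b : G) (m : D.tilde.ι 0 → ℤ) : dt m (D.tilde.π 0 (D.et c b)) =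
    dt (fun l => m (Sum.inl l)) (D.π 1 (c⁻¹ * b * c * b⁻¹)) + dt (fun p => m (Sum.inr p)) (D.π 0 b) :=
  dt_sum _ _ _

end NilData

lemma form_sum {α β : Type} [Fintype α] [Fintype β] (A : α → β → β → ℤ) (m : α → ℤ) (u x : β → ℝ) (z : α → ℝ)
    (hz : ∀ l, z l = ∑ i, ∑ p, (A l i p : ℝ) * u i * x p) :
    dt m z = ∑ i, dt (fun p => ∑ l, m l * A l i p) x * u i := by
  unfold dt
  calc ∑ l, (m l : ℝ) * z l = ∑ l, ∑ i, ∑ p, (m l : ℝ) * ((A l i p : ℝ) * u i * x p) := by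
        refine sum_congr rfl fun l _ => ?_
        rw [hz, mul_sum]
        exact sum_congr rfl fun i _ => by rw [mul_sum]
    _ = ∑ i, ∑ p, ∑ l, (m l : ℝ) * ((A l i p : ℝ) * u i * x p) := by
        rw [sum_comm]
        exact sum_congr rfl fun i _ => sum_comm
    _ = _ := by
        refine sum_congr rfl fun i _ => ?_
        rw [sum_mul]
        refine sum_congr rfl fun p _ => ?_
        push_cast
        rw [sum_mul, sum_mul]
        exact sum_congr rfl fun l _ => by ring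

set_option maxHeartbeats 4000000 in
theorem V_succ {j : ℕ} (hV : V j) : V (j + 1) := by
  intro G _ _ _ Γ D F k hk hF δ hδ
  classical
  obtain ⟨B, hB0, hB⟩ := D.bdd hF.1 hF.2.1
  obtain ⟨C, hC, hCΓ⟩ := D.cpt0
  obtain ⟨A, hA1, hA2⟩ := D.form
  obtain ⟨R₀, hR₀⟩ : ∃ R₀ : ℕ, ∀ c ∈ C, ∀ i, |D.π 0 c i| ≤ R₀ := by
    have h1 : ContinuousOn (D.π 0) C := (D.π_cont 0).mono fun c _ => D.mem0 c
    obtain ⟨R, hR⟩ := hC.exists_bound_of_continuousOn h1
    obtain ⟨R', hR'⟩ := exists_nat_ge R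
    refine ⟨R', fun c hc i => ?_⟩
    have h2 := norm_le_pi_norm (D.π 0 c) i
    rw [Real.norm_eq_abs] at h2
    exact h2.trans ((hR c hc).trans hR')
  set δ' : ℝ := δ / B with hδ'
  have hδ'0 : 0 < δ' := by positivity
  set c₁ : ℝ := δ' ^ 2 / 8 with hc₁
  have hc₁0 : 0 < c₁ := by positivity
  have hδ₂0 : 0 < B ^ 2 * c₁ := by positivity
  obtain ⟨K₁, hK₁⟩ := D.Ft_mean hV hk hF (hC.prod hC) hδ₂0
  set W : Finset ((D.ι 1 ⊕ D.ι 0 → ℤ) × (D.ι 0 → ℤ)) := (Fintype.piFinset fun _ => Icc (-(K₁ : ℤ)) K₁) ×ˢ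
    (Fintype.piFinset fun _ => Icc (-((R₀ : ℤ) + 1)) (R₀ + 1)) with hW
  set c₂ : ℝ := c₁ / (#W + 1) with hc₂
  have hc₂0 : 0 < c₂ := by positivity
  obtain ⟨K₂, hK₂⟩ := bl (ι := D.ι 0) hc₂0
  set a₀ : ℕ := ∑ l, ∑ i, ∑ p, (A l i p).natAbs with ha₀
  refine ⟨K₁ + K₂ + K₂ * (K₁ * a₀), fun η hη => ?_⟩
  obtain ⟨η₁, hη₁, N₂, hN₂⟩ := hK₂ η hη
  have hη₂ : 0 < min η η₁ := lt_min hη hη₁
  obtain ⟨N₁, hN₁⟩ := hK₁ (min η η₁) hη₂
  obtain ⟨N₃, hN₃⟩ := exists_nat_ge (2 / δ' ^ 2)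
  obtain ⟨N₄, hN₄⟩ := exists_nat_ge (N₁ / c₁)
  refine ⟨N₂ + N₃ + N₄ + 1, fun N hN a y hay => ?_⟩
  have hNpos : (0 : ℝ) < N := by
    have : 0 < N := by omega
    exact_mod_cast this
  have hN1r : (N₁ : ℝ) ≤ c₁ * N := by
    rw [div_le_iff₀ hc₁0] at hN₄
    have : (N₄ : ℝ) ≤ N := by
      have : N₄ ≤ N := by omega
      exact_mod_cast this
    nlinarith
  obtain ⟨y₀, hy₀, γ₀, hγ₀, rfl⟩ := hCΓ y
  set b : G := y₀⁻¹ * a * y₀ with hb
  set x : D.ι 0 → ℝ := D.π 0 a with hx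
  have hxb : D.π 0 b = x := D.π_conj' 0 (D.mem0 a) y₀
  have hcg : ∀ h : ℕ, ∃ c ∈ C, ∃ γ ∈ Γ, b ^ h = c * γ := fun h => hCΓ _
  choose c hc γ hγ hbc using hcg
  -- van der Corput
  set v : ℕ → ℂ := fun n => F (a ^ n * (y₀ * γ₀)) / B with hv
  have hBc : (B : ℂ) ≠ 0 := by exact_mod_cast hB0.ne'
  have hmany := Pool.Agent.Helper44K9.FN.VdcL.many hδ'0 v N (fun i => by
    rw [hv]; simp only
    rw [norm_div, Complex.norm_real, Real.norm_of_nonneg hB0.le, div_le_one hB0]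
    exact hB _) (by
    refine hN₃.trans ?_
    have : N₃ ≤ N := by omega
    exact_mod_cast this) (by
    have h1 : ∑ i ∈ range N, v i = (∑ n ∈ range N, F (a ^ n * (y₀ * γ₀))) / B := by
      rw [hv, sum_div]
    rw [h1, norm_div, Complex.norm_real, Real.norm_of_nonneg hB0.le, le_div_iff₀ hB0, hδ']
    refine le_trans (le_of_eq ?_) hay
    field_simp)
  rw [← hc₁] at hmany
  set U : Finset ℕ := (Ico 1 N).filter (fun h : ℕ => c₁ * N ≤
    ‖∑ i ∈ range (N - h), v (i + h) * (starRingEnd ℂ) (v i)‖) with hU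
  have hmany' : c₁ * N ≤ #U := hmany
  -- the relations
  have hrel : ∀ h ∈ U, ∃ m : D.tilde.ι 0 → ℤ, Bd K₁ m ∧ Nr (min η η₁) (dt m (D.tilde.π 0 (D.et (c h) b))) := by
    intro h hh
    rw [hU, mem_filter, mem_Ico] at hh
    obtain ⟨⟨hh1, hh2⟩, hh3⟩ := hh
    have h1 : ∑ i ∈ range (N - h), v (i + h) * (starRingEnd ℂ) (v i) =
        (∑ n ∈ range (N - h), D.Ft F (y₀, c h) ((D.et (c h) b) ^ n)) / (B : ℂ) ^ 2 := by
      rw [sum_div]
      refine sum_congr rfl fun n _ => ?_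
      rw [hb, D.Ft_et hF.2.1 hγ₀ (hγ h) (hbc h) n, hv]
      simp only
      rw [map_div₀, Complex.conj_ofReal]
      field_simp
    have h2 : ‖∑ i ∈ range (N - h), v (i + h) * (starRingEnd ℂ) (v i)‖ ≤ ((N - h : ℕ) : ℝ) := by
      refine (norm_sum_le _ _).trans ?_
      have h3 : ∀ i, ‖v i‖ ≤ 1 := by
        intro i
        rw [hv]; simp only
        rw [norm_div, Complex.norm_real, Real.norm_of_nonneg hB0.le, div_le_one hB0]
        exact hB _
      calc ∑ i ∈ range (N - h), ‖v (i + h) * (starRingEnd ℂ) (v i)‖ ≤ ∑ i ∈ range (N - h), (1 : ℝ) := by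
            refine sum_le_sum fun i _ => ?_
            rw [norm_mul, RCLike.norm_conj]
            exact mul_le_one₀ (h3 _) (norm_nonneg _) (h3 _)
        _ = _ := by simp
    have h3 : N₁ ≤ N - h := by
      have : (N₁ : ℝ) ≤ ((N - h : ℕ) : ℝ) := hN1r.trans (hh3.trans h2)
      exact_mod_cast this
    refine hN₁ (N - h) h3 (y₀, c h) ⟨hy₀, hc h⟩ _ ?_
    rw [h1, norm_div, norm_pow, Complex.norm_real, Real.norm_of_nonneg hB0.le, le_div_iff₀ (by positivity)] at hh3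
    refine le_trans ?_ hh3
    have h4 : ((N - h : ℕ) : ℝ) ≤ N := by exact_mod_cast Nat.sub_le _ _
    calc B ^ 2 * c₁ * ((N - h : ℕ) : ℝ) ≤ B ^ 2 * c₁ * N := mul_le_mul_of_nonneg_left h4 hδ₂0.le
      _ = c₁ * N * B ^ 2 := by ring
  choose! m hm1 hm2 using hrel
  -- the shifts
  have hg : ∀ h, ∃ g : D.ι 0 → ℤ, D.π 0 (γ h) = fun i => (g i : ℝ) := fun h => D.π_int 0 _ (D.mem0 _) (hγ h)
  choose g hg using hg
  have hcx : ∀ h i, D.π 0 (c h) i = Int.fract ((h : ℝ) * x i) + ((⌊(h : ℝ) * x i⌋ - g h i : ℤ) : ℝ) := by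
    intro h i
    have h1 : D.π 0 (b ^ h) = D.π 0 (c h) + D.π 0 (γ h) := by rw [hbc h, D.π_mul0]
    rw [D.π_pow0, hxb, hg] at h1
    have h2 := congrFun h1 i
    simp only [Pi.smul_apply, smul_eq_mul, Pi.add_apply] at h2
    push_cast
    have := Int.fract_add_floor ((h : ℝ) * x i)
    linarith
  set r : ℕ → D.ι 0 → ℤ := fun h i => ⌊(h : ℝ) * x i⌋ - g h i with hr
  have hmaps : ∀ h ∈ U, ((m h, r h) : (D.ι 1 ⊕ D.ι 0 → ℤ) × (D.ι 0 → ℤ)) ∈ W := by
    intro h hh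
    rw [hW, mem_product, Fintype.mem_piFinset, Fintype.mem_piFinset]
    refine ⟨fun i => ?_, fun i => ?_⟩
    · rw [mem_Icc, ← abs_le]
      exact (hm1 h hh).2 i
    · have h1 := hR₀ (c h) (hc h) i
      rw [hcx] at h1
      have h2 := Int.fract_nonneg ((h : ℝ) * x i)
      have h3 := Int.fract_lt_one ((h : ℝ) * x i)
      rw [abs_le] at h1
      rw [mem_Icc]
      have h4 : ((-((R₀ : ℤ) + 1) : ℤ) : ℝ) ≤ ((r h i : ℤ) : ℝ) := by
        push_cast
        rw [hr]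
        push_cast at h1 ⊢
        linarith
      have h5 : ((r h i : ℤ) : ℝ) ≤ (((R₀ : ℤ) + 1 : ℤ) : ℝ) := by
        push_cast
        rw [hr]
        push_cast at h1 ⊢
        linarith
      exact ⟨by exact_mod_cast h4, by exact_mod_cast h5⟩
  have hWne : W.Nonempty := by
    have h1 : 0 < #U := by
      have : (0 : ℝ) < #U := lt_of_lt_of_le (by positivity) hmany'
      exact_mod_cast this
    obtain ⟨h, hh⟩ := card_pos.1 h1
    exact ⟨_, hmaps h hh⟩
  obtain ⟨⟨m₀, r₀⟩, _, hpig⟩ := exists_le_card_fiber_of_nsmul_le_card_of_maps_to (b := c₂ * N) hmaps hWne (by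
    refine le_trans ?_ hmany'
    rw [nsmul_eq_mul, hc₂]
    have h1 : (#W : ℝ) * (c₁ / (#W + 1) * N) = (#W / (#W + 1)) * (c₁ * N) := by ring
    rw [h1]
    have h2 : (#W : ℝ) / (#W + 1) ≤ 1 := by
      rw [div_le_one (by positivity)]; linarith
    calc (#W : ℝ) / (#W + 1) * (c₁ * N) ≤ 1 * (c₁ * N) := mul_le_mul_of_nonneg_right h2 (by positivity)
      _ = c₁ * N := one_mul _)
  set U' := U.filter (fun h => ((m h, r h) : (D.ι 1 ⊕ D.ι 0 → ℤ) × (D.ι 0 → ℤ)) = (m₀, r₀)) with hU'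
  have hU'ne : U'.Nonempty := by
    have : (0 : ℝ) < #U' := lt_of_lt_of_le (by positivity) hpig
    exact card_pos.1 (by exact_mod_cast this)
  obtain ⟨h₁, hh₁⟩ := hU'ne
  -- the linear forms
  set w : D.ι 0 → D.ι 0 → ℤ := fun i p => ∑ l, m₀ (Sum.inl l) * A l i p with hw
  have hval : ∀ h ∈ U', Nr (min η η₁) (∑ i, dt (w i) x * D.π 0 (c h) i + dt (fun p => m₀ (Sum.inr p)) x) := by
    intro h hh
    rw [hU', mem_filter] at hh
    obtain ⟨hhU, hhk⟩ := hh
    have h1 := hm2 h hhU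
    have h2 : m h = m₀ := congrArg Prod.fst hhk
    rw [D.π_et, h2, hxb, form_sum A (fun l => m₀ (Sum.inl l)) (D.π 0 (c h)) x _ (by
      intro l
      rw [hA1, hxb])] at h1
    exact h1
  have hm₀ : Bd K₁ m₀ := by
    rw [hU', mem_filter] at hh₁
    have h2 : m h₁ = m₀ := congrArg Prod.fst hh₁.2
    rw [← h2]
    exact hm1 h₁ hh₁.1
  by_cases hm₂ : (fun l => m₀ (Sum.inl l)) = 0
  · -- the relation is horizontal
    refine ⟨fun p => m₀ (Sum.inr p), ⟨?_, ?_⟩, ?_⟩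
    · intro h0
      apply hm₀.1
      funext i
      cases i with
      | inl l => exact congrFun hm₂ l
      | inr p => exact congrFun h0 p
    · intro i
      refine (hm₀.2 (Sum.inr i)).trans ?_
      exact_mod_cast (show K₁ ≤ K₁ + K₂ + K₂ * (K₁ * a₀) by omega)
    · have h1 := hval h₁ hh₁
      have h2 : ∑ i, dt (w i) x * D.π 0 (c h₁) i = 0 := by
        refine sum_eq_zero fun i _ => ?_
        have h3 : w i = 0 := by
          funext p
          simp only [hw]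
          refine sum_eq_zero fun l _ => ?_
          have := congrFun hm₂ l
          simp only [Pi.zero_apply] at this
          rw [this, zero_mul]
        rw [h3]
        unfold dt
        simp
      rw [h2, zero_add] at h1
      exact h1.mono (min_le_left _ _)
  · obtain ⟨i₀, p₀, hip⟩ := hA2 _ hm₂
    set α : ℝ := ∑ i, (⌊dt (w i) x⌋ : ℝ) * x i with hα
    set κ : ℝ := ∑ i, dt (w i) x * (r₀ i : ℝ) + dt (fun p => m₀ (Sum.inr p)) x with hκ
    have hbl := hN₂ N (by omega) x (fun i => Int.fract (dt (w i) x)) α κ (fun i => by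
      rw [abs_of_nonneg (Int.fract_nonneg _)]; exact (Int.fract_lt_one _).le) (by
      refine hpig.trans ?_
      have hsub : U' ⊆ (Ico 0 N).filter (fun h : ℕ => Nr η₁ (κ + α * h +
          ∑ i, Int.fract (dt (w i) x) * Int.fract ((h : ℝ) * x i))) := by
        intro h hh
        have h1 := (hval h hh).mono (min_le_right _ _)
        rw [hU', mem_filter] at hh
        obtain ⟨hhU, hhk⟩ := hh
        have hr₀ : r h = r₀ := congrArg Prod.snd hhk
        rw [hU, mem_filter, mem_Ico] at hhU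
        rw [mem_filter, mem_Ico]
        refine ⟨⟨Nat.zero_le _, hhU.1.2⟩, ?_⟩
        obtain ⟨n, hn⟩ := h1
        refine ⟨n + ∑ i, ⌊dt (w i) x⌋ * ⌊(h : ℝ) * x i⌋, ?_⟩
        convert hn using 2
        have h2 : ∀ i, dt (w i) x * D.π 0 (c h) i = dt (w i) x * (r₀ i : ℝ) + Int.fract (dt (w i) x) * Int.fract ((h : ℝ) * x i)
            + (⌊dt (w i) x⌋ : ℝ) * ((h : ℝ) * x i) - (⌊dt (w i) x⌋ : ℝ) * (⌊(h : ℝ) * x i⌋ : ℝ) := by
          intro i
          have h3 : ((⌊(h : ℝ) * x i⌋ - g h i : ℤ) : ℝ) = (r₀ i : ℝ) := by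
            have : ⌊(h : ℝ) * x i⌋ - g h i = r₀ i := congrFun hr₀ i
            rw [this]
          rw [hcx, h3, ← Int.self_sub_floor, ← Int.self_sub_floor]
          ring
        rw [sum_congr rfl fun i _ => h2 i, sum_sub_distrib, sum_add_distrib, sum_add_distrib, hκ, hα, sum_mul]
        push_cast
        have h3 : ∑ i, (⌊dt (w i) x⌋ : ℝ) * ((h : ℝ) * x i) = ∑ i, (⌊dt (w i) x⌋ : ℝ) * x i * h :=
          sum_congr rfl fun i _ => by ring
        rw [h3]
        ring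
      exact_mod_cast card_le_card hsub)
    rcases hbl with ⟨k', hk'1, hk'2⟩ | ⟨l, hl1, hl2, hl3⟩
    · exact ⟨k', hk'1.mono (by omega), hk'2⟩
    · refine ⟨fun p => l * w i₀ p, ⟨?_, fun p => ?_⟩, ?_⟩
      · intro h0
        have h1 := congrFun h0 p₀
        simp only [Pi.zero_apply, mul_eq_zero] at h1
        rcases h1 with h1 | h1
        · omega
        · exact hip h1
      · have h1 : |w i₀ p| ≤ K₁ * a₀ := by
          simp only [hw]
          refine (abs_sum_le_sum_abs _ _).trans ?_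
          calc ∑ l', |m₀ (Sum.inl l') * A l' i₀ p| ≤ ∑ l', (K₁ : ℤ) * ((A l' i₀ p).natAbs : ℤ) := by
                refine sum_le_sum fun l' _ => ?_
                rw [abs_mul, Int.abs_eq_natAbs (A l' i₀ p)]
                exact mul_le_mul_of_nonneg_right (hm₀.2 (Sum.inl l')) (by positivity)
            _ = (K₁ : ℤ) * ((∑ l', (A l' i₀ p).natAbs : ℕ) : ℤ) := by
                rw [← mul_sum]; push_cast; rfl
            _ ≤ K₁ * a₀ := by
                refine mul_le_mul_of_nonneg_left ?_ (by positivity)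
                have h2 : ∑ l', (A l' i₀ p).natAbs ≤ a₀ := by
                  rw [ha₀]
                  refine sum_le_sum fun l' _ => ?_
                  refine le_trans ?_ (single_le_sum (f := fun i => ∑ p, (A l' i p).natAbs) (fun _ _ => Nat.zero_le _) (mem_univ i₀))
                  exact single_le_sum (f := fun p => (A l' i₀ p).natAbs) (fun _ _ => Nat.zero_le _) (mem_univ p)
                exact_mod_cast h2
        rw [abs_mul, Nat.abs_cast]
        have h3 : (l : ℤ) ≤ K₂ := by exact_mod_cast hl2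
        calc (l : ℤ) * |w i₀ p| ≤ K₂ * (K₁ * a₀) := mul_le_mul h3 h1 (abs_nonneg _) (by positivity)
          _ ≤ ((K₁ + K₂ + K₂ * (K₁ * a₀) : ℕ) : ℤ) := by push_cast; nlinarith [Int.natCast_nonneg K₁, Int.natCast_nonneg K₂]
      · have h1 := hl3 i₀
        obtain ⟨n, hn⟩ := h1
        refine ⟨n + l * ⌊dt (w i₀) x⌋, ?_⟩
        convert hn using 2
        have h2 : dt (fun p => (l : ℤ) * w i₀ p) x = l * dt (w i₀) x := by
          unfold dt
          rw [mul_sum]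
          exact sum_congr rfl fun p _ => by push_cast; ring
        rw [h2, ← Int.self_sub_floor]
        push_cast
        ring

/-- **quantitative equidistribution**: a large mean value of a function with a nontrivial vertical character along
`a^n y` gives a bounded relation -/
theorem V_all (j : ℕ) : V j := by
  induction j with
  | zero => exact V_zero
  | succ j ih => exact V_succ ih

end Pool.Agent.Helper16.NL
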