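import Pool.Agent.Helper16.NL.Nil
import Pool.Graph.R_pool_sql_team_seeded_1e53cb71.Helper44K9.FB.Trigm

/-! Tori. -/

set_option autoImplicit false

namespace Pool.Agent.Helper16.NL

open Finset MeasureTheory Topology
open Pool.Agent.H807R2.Dav (ee ee_add)

variable {ι : Type} [Fintype ι]

/-- the class modulo one -/
def md (x : ι → ℝ) : ι → UnitAddCircle := fun i => (x i : UnitAddCircle)

/-- integral linear form -/
def lf (k : ι → ℤ) (x : ι → UnitAddCircle) : UnitAddCircle := ∑ i, k i • x i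

omit [Fintype ι] in
theorem oq [Finite ι] : IsOpenQuotientMap (md : (ι → ℝ) → (ι → UnitAddCircle)) := by
  have h : (md : (ι → ℝ) → (ι → UnitAddCircle)) = Pi.map (fun _ : ι => ((↑) : ℝ → UnitAddCircle)) := rfl
  rw [h]
  exact IsOpenQuotientMap.piMap fun _ => QuotientAddGroup.isOpenQuotientMap_mk

omit [Fintype ι] in
theorem md_eq {t s : ι → ℝ} (h : md t = md s) : ∃ j : ι → ℤ, t = s + fun i => (j i : ℝ) := by
  have h1 : ∀ i, ∃ n : ℤ, t i = s i + n := by
    intro i
    have h2 : ((t i : ℝ) : UnitAddCircle) = ((s i : ℝ) : UnitAddCircle) := congrFun h i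
    have h3 : ((t i - s i : ℝ) : UnitAddCircle) = 0 := by
      rw [AddCircle.coe_sub, h2, sub_self]
    obtain ⟨n, hn⟩ := (AddCircle.coe_eq_zero_iff (1 : ℝ)).1 h3
    refine ⟨n, ?_⟩
    rw [zsmul_eq_mul, mul_one] at hn
    linarith
  choose j hj using h1
  exact ⟨j, funext fun i => by simp [hj i]⟩

omit [Fintype ι] in
theorem md_surj (τ : ι → UnitAddCircle) : ∃ t : ι → ℝ, md t = τ := by
  have h1 : ∀ i, ∃ y : ℝ, (y : UnitAddCircle) = τ i := fun i => QuotientAddGroup.mk_surjective (τ i)
  choose t ht using h1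
  exact ⟨t, funext ht⟩

omit [Fintype ι] in
theorem md_add (t s : ι → ℝ) : md (t + s) = md t + md s := by
  funext i
  simp [md]

omit [Fintype ι] in
theorem md_zero : md (0 : ι → ℝ) = 0 := by
  funext i
  simp [md]

theorem lf_md (k : ι → ℤ) (t : ι → ℝ) : lf k (md t) = ((dt k t : ℝ) : UnitAddCircle) := by
  classical
  unfold lf md dt
  have h : ∀ s : Finset ι, ((∑ i ∈ s, (k i : ℝ) * t i : ℝ) : UnitAddCircle) =
      ∑ i ∈ s, k i • ((t i : ℝ) : UnitAddCircle) := by
    intro s
    induction s using Finset.induction_on with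
    | empty => simp
    | insert a s ha ih =>
      rw [sum_insert ha, sum_insert ha, AddCircle.coe_add, ih, ← AddCircle.coe_zsmul, zsmul_eq_mul]
  exact (h univ).symm

theorem lf_add (k : ι → ℤ) (τ σ : ι → UnitAddCircle) : lf k (τ + σ) = lf k τ + lf k σ := by
  unfold lf
  rw [← sum_add_distrib]
  exact sum_congr rfl fun i _ => by rw [Pi.add_apply, smul_add]

/-- the character -/
noncomputable def chi (k : ι → ℤ) (τ : ι → UnitAddCircle) : ℂ := (fourier 1 (lf k τ) : ℂ)

theorem chi_add (k : ι → ℤ) (τ σ : ι → UnitAddCircle) : chi k (τ + σ) = chi k τ * chi k σ := by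
  unfold chi
  rw [lf_add]
  simp only [fourier_apply, one_smul]
  rw [AddCircle.toCircle_add, Circle.coe_mul]

theorem chi_norm (k : ι → ℤ) (τ : ι → UnitAddCircle) : ‖chi k τ‖ = 1 := by
  unfold chi
  simp only [fourier_apply]
  exact Circle.norm_coe _

theorem chi_cont (k : ι → ℤ) : Continuous (chi k) := by
  unfold chi lf
  refine (map_continuous (fourier 1)).comp ?_
  exact continuous_finsetSum _ fun i _ => (continuous_apply i).zsmul (k i)

theorem chi_md (k : ι → ℤ) (t : ι → ℝ) : chi k (md t) = ee (dt k t) := by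
  unfold chi
  rw [lf_md, fourier_coe_apply]
  unfold ee
  congr 1
  push_cast
  ring

theorem chi_mF (k : ι → ℤ) (x : ι → UnitAddCircle) : chi k x = UnitAddTorus.mFourier k x := by
  classical
  unfold chi lf
  simp only [UnitAddTorus.mFourier, ContinuousMap.coe_mk, fourier_apply, one_smul]
  rw [show (AddCircle.toCircle (∑ i, k i • x i) : ℂ) = ((∏ i, AddCircle.toCircle (k i • x i) : Circle) : ℂ) from ?_]
  · exact map_prod (Circle.coeHom) _ _
  · congr 1
    induction (Finset.univ : Finset ι) using Finset.induction_on with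
    | empty =>
      simp only [Finset.sum_empty, Finset.prod_empty, AddCircle.toCircle_zero]
    | insert a s ha ih => rw [Finset.sum_insert ha, Finset.prod_insert ha, AddCircle.toCircle_add, ih]

theorem trigm (F : C(ι → UnitAddCircle, ℂ)) (ε : ℝ) (hε : 0 < ε) :
    ∃ (S : Finset (ι → ℤ)) (a : (ι → ℤ) → ℂ), ∀ x : ι → UnitAddCircle,
      ‖F x - ∑ k ∈ S, a k * chi k x‖ ≤ ε := by
  have h1 : F ∈ (Submodule.span ℂ (Set.range (UnitAddTorus.mFourier (d := ι)))).topologicalClosure := by
    rw [UnitAddTorus.span_mFourier_closure_eq_top]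
    trivial
  have h2 : F ∈ closure ((Submodule.span ℂ (Set.range (UnitAddTorus.mFourier (d := ι)))) : Set C(UnitAddTorus ι, ℂ)) := h1
  obtain ⟨G, hG, hd⟩ := Metric.mem_closure_iff.1 h2 ε hε
  obtain ⟨c, hc⟩ := (Finsupp.mem_span_range_iff_exists_finsupp).1 hG
  refine ⟨c.support, c, fun x => ?_⟩
  have h3 : G x = ∑ k ∈ c.support, c k * chi k x := by
    rw [← hc, Finsupp.sum, ContinuousMap.sum_apply]
    refine Finset.sum_congr rfl fun k _ => ?_
    rw [chi_mF]
    simp
  rw [← h3, ← dist_eq_norm]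
  exact (ContinuousMap.dist_apply_le_dist x).trans hd.le

theorem integ (f : (ι → UnitAddCircle) → ℂ) (hf : Continuous f) : Integrable f :=
  hf.integrable_of_hasCompactSupport (HasCompactSupport.of_compactSpace f)

theorem tmu : (volume : Measure (ι → UnitAddCircle)) Set.univ = 1 := by
  rw [volume_pi, Measure.pi_univ]
  refine Finset.prod_eq_one fun i _ => ?_
  exact UnitAddCircle.measure_univ

instance prob : IsProbabilityMeasure (volume : Measure (ι → UnitAddCircle)) := ⟨tmu⟩

instance ni : (volume : Measure (ι → UnitAddCircle)).IsNegInvariant :=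
  Measure.IsAddHaarMeasure.isNegInvariant_of_regular _

/-- a bump function on the torus -/
theorem bump (U : Set (ι → UnitAddCircle)) (hU : U ∈ 𝓝 (0 : ι → UnitAddCircle)) :
    ∃ p : (ι → UnitAddCircle) → ℝ, Continuous p ∧ (∀ σ, 0 ≤ p σ) ∧
    (∀ σ, p σ ≠ 0 → σ ∈ U) ∧ ∫ σ, p σ = 1 := by
  obtain ⟨δ, hδ, hδU⟩ := Metric.mem_nhds_iff.1 hU
  have hc : Continuous fun σ : ι → UnitAddCircle => max 0 (δ - ‖σ‖) := by fun_prop
  have hp : 0 < ∫ σ : ι → UnitAddCircle, max 0 (δ - ‖σ‖) := by
    refine hc.integral_pos_of_hasCompactSupport_nonneg_nonzero (HasCompactSupport.of_compactSpace _)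
      (fun σ => le_max_left _ _) (x := 0) ?_
    rw [norm_zero, sub_zero, max_eq_right hδ.le]
    exact hδ.ne'
  refine ⟨fun σ => max 0 (δ - ‖σ‖) / ∫ σ : ι → UnitAddCircle, max 0 (δ - ‖σ‖), hc.div_const _,
    fun σ => div_nonneg (le_max_left _ _) hp.le, fun σ hσ => ?_, ?_⟩
  · apply hδU
    rw [mem_ball_zero_iff]
    by_contra hcon
    push Not at hcon
    refine hσ ?_
    beta_reduce
    rw [max_eq_left (by linarith), zero_div]
  · rw [integral_div, div_self hp.ne']

end Pool.Agent.Helper16.NL
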