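import Pool.Agent.Helper16.NL.Torus

/-! Vertical Fourier expansion. -/

set_option autoImplicit false

namespace Pool.Agent.Helper16.NL

open Finset MeasureTheory Topology
open Pool.Agent.H807R2.Dav (ee ee_add)

namespace NilData

variable {G : Type} [Group G] [TopologicalSpace G] [IsTopologicalGroup G] {Γ : Subgroup G} (D : NilData G Γ)

/-- dependence on `π j` only -/
lemma inv_same {j : ℕ} {F : G → ℂ} (hj : ∀ z ∈ D.fil (j + 1), ∀ g, F (z * g) = F g) {z z' : G} (hz : z ∈ D.fil j)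
    (hz' : z' ∈ D.fil j) (h : D.π j z = D.π j z') (g : G) : F (z * g) = F (z' * g) := by
  have h1 := hj _ (D.same hz hz' h) (z' * g)
  rw [← h1]
  congr 1
  group

lemma inv_lat {j : ℕ} {F : G → ℂ} (hΓ : ∀ g γ, γ ∈ Γ → F (g * γ) = F g)
    (hj : ∀ z ∈ D.fil (j + 1), ∀ g, F (z * g) = F g) {x γ : G} (hγ : γ ∈ D.fil j)
    (hγΓ : γ ∈ Γ) (g : G) : F (x * γ * g) = F (x * g) := by
  have h1 : x * γ * g = (x * (γ * g * γ⁻¹ * g⁻¹) * x⁻¹) * (x * g) * γ := by group
  rw [h1, hΓ _ _ hγΓ, hj _ (D.conj_mem _ (D.comm' j hγ g) x)]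

/-- the function on `G × 𝕋` -/
theorem low {j : ℕ} {F : G → ℂ} (hF : Continuous F) (hΓ : ∀ g γ, γ ∈ Γ → F (g * γ) = F g)
    (hj : ∀ z ∈ D.fil (j + 1), ∀ g, F (z * g) = F g) :
    ∃ P : C(G × (D.ι j → UnitAddCircle), ℂ), ∀ g t, P (g, md t) = F (D.σ j t * g) := by
  have hq0 : IsOpenQuotientMap (Prod.map (id : G → G) (md : (D.ι j → ℝ) → (D.ι j → UnitAddCircle))) :=
    IsOpenQuotientMap.id.prodMap oq
  obtain ⟨q, hqe⟩ : ∃ q : C(G × (D.ι j → ℝ), G × (D.ι j → UnitAddCircle)),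
      (q : G × (D.ι j → ℝ) → _) = Prod.map id md := ⟨⟨_, hq0.continuous⟩, rfl⟩
  have hq : IsQuotientMap q := by
    rw [hqe]
    exact hq0.isQuotientMap
  have hc : Continuous fun p : G × (D.ι j → ℝ) => F (D.σ j p.2 * p.1) := by
    have := D.σ_cont j
    fun_prop
  have hfac : Function.FactorsThrough (⟨fun p : G × (D.ι j → ℝ) => F (D.σ j p.2 * p.1), hc⟩ : C(_, ℂ)) q := by
    rintro ⟨x, t⟩ ⟨y, s⟩ hxy
    rw [hqe] at hxy
    simp only [Prod.map_apply, id, Prod.mk.injEq] at hxy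
    obtain ⟨hx, ht⟩ := hxy
    obtain ⟨m, hm⟩ := md_eq ht
    subst hx
    simp only [ContinuousMap.coe_mk]
    have hmem : D.σ j s * D.σ j (fun i => (m i : ℝ)) ∈ D.fil j := (D.fil j).mul_mem (D.σ_mem _ _) (D.σ_mem _ _)
    rw [hm, D.inv_same hj (D.σ_mem j _) hmem (by
      rw [D.π_mul _ _ _ (D.σ_mem _ _) (D.σ_mem _ _), D.π_σ, D.π_σ, D.π_σ])]
    exact D.inv_lat hΓ hj (D.σ_mem _ _) (D.σ_int j m) x
  refine ⟨hq.lift _ hfac, fun g t => ?_⟩
  have h6 := congrArg (fun u : C(_, ℂ) => u (g, t)) (hq.lift_comp _ hfac)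
  simp only [ContinuousMap.comp_apply, ContinuousMap.coe_mk] at h6
  rw [← h6, hqe]
  rfl

/-- **vertical Fourier expansion** -/
theorem vert {j : ℕ} {F : G → ℂ} (hF : Continuous F) (hΓ : ∀ g γ, γ ∈ Γ → F (g * γ) = F g)
    (hj : ∀ z ∈ D.fil (j + 1), ∀ g, F (z * g) = F g) {ε : ℝ} (hε : 0 < ε) :
    ∃ (S : Finset (D.ι j → ℤ)) (Φ : (D.ι j → ℤ) → G → ℂ), (∀ k, VC D j k (Φ k)) ∧
      (∀ z ∈ D.fil j, ∀ u : ℂ, (∀ g, F (z * g) = u * F g) → ∀ k g, Φ k (z * g) = u * Φ k g) ∧
      ∀ g, ‖F g - ∑ k ∈ S, Φ k g‖ ≤ ε := by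
  classical
  obtain ⟨P, hP⟩ := D.low hF hΓ hj
  obtain ⟨C, hC, hCΓ⟩ := D.cpt0
  obtain ⟨B, hB0, hB⟩ := D.bdd hF hΓ
  have hPB : ∀ g τ, ‖P (g, τ)‖ ≤ B := by
    intro g τ
    obtain ⟨t, rfl⟩ := md_surj τ
    rw [hP]
    exact hB _
  have hPΓ : ∀ g γ τ, γ ∈ Γ → P (g * γ, τ) = P (g, τ) := by
    intro g γ τ hγ
    obtain ⟨t, rfl⟩ := md_surj τ
    rw [hP, hP, ← mul_assoc, hΓ _ _ hγ]
  have hPc : ∀ g, Continuous fun τ => P (g, τ) := fun g => P.continuous.comp (by fun_prop)
  -- uniform continuity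
  have hU : {σ : D.ι j → UnitAddCircle | ∀ g, ‖P (g, 0) - P (g, -σ)‖ ≤ ε / 2} ∈ 𝓝 (0 : D.ι j → UnitAddCircle) := by
    have h1 : ∀ᶠ σ in 𝓝 (0 : D.ι j → UnitAddCircle), ∀ g ∈ C, ‖P (g, 0) - P (g, -σ)‖ ≤ ε / 2 := by
      refine hC.eventually_forall_of_forall_eventually fun g _ => ?_
      have h2 : Continuous fun z : (D.ι j → UnitAddCircle) × G => ‖P (z.2, 0) - P (z.2, -z.1)‖ := by fun_prop
      have h3 := h2.tendsto ((0 : D.ι j → UnitAddCircle), g)
      simp only [neg_zero, sub_self, norm_zero] at h3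
      have h4 : (0 : ℝ) < ε / 2 := by positivity
      exact (h3.eventually (gt_mem_nhds h4)).mono fun _ h => le_of_lt h
    refine Filter.mem_of_superset h1 fun σ hσ g => ?_
    obtain ⟨c, hc, γ, hγ, rfl⟩ := hCΓ g
    rw [hPΓ _ _ _ hγ, hPΓ _ _ _ hγ]
    exact hσ c hc
  obtain ⟨p, hpc, hp0, hp1, hpi⟩ := bump _ hU
  obtain ⟨S, a, ha⟩ := trigm ⟨fun σ => ((p σ : ℝ) : ℂ), Complex.continuous_ofReal.comp hpc⟩ (ε / (2 * B))
    (by positivity)
  have ha' : ∀ σ, ‖((p σ : ℝ) : ℂ) - ∑ k ∈ S, a k * chi k σ‖ ≤ ε / (2 * B) := ha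
  have hneg : ∀ k : D.ι j → ℤ, Continuous fun τ => chi k (-τ) := fun k => (chi_cont k).comp continuous_neg
  set I : (D.ι j → ℤ) → G → ℂ := fun k g => ∫ τ, P (g, τ) * chi k (-τ) with hI
  refine ⟨S, fun k g => a k * I k g, fun k => ⟨?_, ?_, ?_⟩, ?_, ?_⟩
  · -- continuity
    have h1 : Continuous fun f : C(D.ι j → UnitAddCircle, ℂ) => ∫ τ, f τ * chi k (-τ) := by
      refine (LipschitzWith.of_dist_le_mul (K := 1) fun f f' => ?_).continuous
      have hi1 : Integrable (fun τ => f τ * chi k (-τ)) := integ _ (f.continuous.mul (hneg k))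
      have hi2 : Integrable (fun τ => f' τ * chi k (-τ)) := integ _ (f'.continuous.mul (hneg k))
      rw [dist_eq_norm, ← integral_sub hi1 hi2]
      refine (norm_integral_le_of_norm_le_const (C := dist f f') (Filter.Eventually.of_forall fun τ => ?_)).trans ?_
      · rw [← sub_mul, norm_mul, chi_norm, mul_one, ← dist_eq_norm]
        exact ContinuousMap.dist_apply_le_dist τ
      · simp
    exact continuous_const.mul (h1.comp P.curry.continuous)
  · intro g γ hγ
    simp only [hI, hPΓ _ _ _ hγ]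
  · intro z hz g
    have h1 : ∀ τ, P (z * g, τ) = P (g, τ + md (D.π j z)) := by
      intro τ
      obtain ⟨t, rfl⟩ := md_surj τ
      rw [hP, ← md_add, hP, ← mul_assoc]
      refine D.inv_same hj ((D.fil j).mul_mem (D.σ_mem _ _) hz) (D.σ_mem _ _) ?_ g
      rw [D.π_mul _ _ _ (D.σ_mem _ _) hz, D.π_σ, D.π_σ]
    have h2 : I k (z * g) = ee (dt k (D.π j z)) * I k g := by
      simp only [hI, h1]
      rw [← integral_const_mul, ← integral_add_right_eq_self (fun τ => ee (dt k (D.π j z)) * (P (g, τ) * chi k (-τ)))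
        (md (D.π j z))]
      refine integral_congr_ae (Filter.Eventually.of_forall fun τ => ?_)
      beta_reduce
      rw [← chi_md, show -τ = md (D.π j z) + -(τ + md (D.π j z)) by abel, chi_add]
      ring
    beta_reduce
    rw [h2]; ring
  · intro z hz u hu k g
    have h1 : ∀ τ, P (z * g, τ) = u * P (g, τ) := by
      intro τ
      obtain ⟨t, rfl⟩ := md_surj τ
      rw [hP, hP, ← hu, ← mul_assoc, ← mul_assoc]
      refine D.inv_same hj ((D.fil j).mul_mem (D.σ_mem _ _) hz) ((D.fil j).mul_mem hz (D.σ_mem _ _)) ?_ g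
      rw [D.π_mul _ _ _ (D.σ_mem _ _) hz, D.π_mul _ _ _ hz (D.σ_mem _ _), add_comm]
    have h2 : I k (z * g) = u * I k g := by
      simp only [hI, h1]
      rw [← integral_const_mul]
      refine integral_congr_ae (Filter.Eventually.of_forall fun τ => ?_)
      beta_reduce
      ring
    beta_reduce
    rw [h2]; ring
  · intro g
    have h8 : ∑ k ∈ S, (a k * I k g) = ∫ σ, P (g, -σ) * ∑ k ∈ S, a k * chi k σ := by
      have h9 : ∀ σ, P (g, -σ) * ∑ k ∈ S, a k * chi k σ = ∑ k ∈ S, a k * (P (g, -σ) * chi k σ) := by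
        intro σ
        rw [mul_sum]
        exact sum_congr rfl fun k _ => by ring
      rw [integral_congr_ae (Filter.Eventually.of_forall h9), integral_finsetSum]
      · refine sum_congr rfl fun k hk => ?_
        rw [integral_const_mul, hI]
        beta_reduce
        rw [← integral_neg_eq_self (fun σ => P (g, -σ) * chi k σ)]
        simp only [neg_neg]
      · intro k _
        refine integ _ (continuous_const.mul (((hPc g).comp continuous_neg).mul (chi_cont k)))
    have h10 : F g = ∫ σ, P (g, 0) * ((p σ : ℝ) : ℂ) := by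
      rw [integral_const_mul, integral_complex_ofReal, hpi, ← md_zero, hP]
      have h11 : D.σ j 0 ∈ D.fil (j + 1) := by
        rw [← D.π_ker j _ (D.σ_mem j 0), D.π_σ]
      rw [hj _ h11]
      simp
    rw [h8, h10, ← integral_sub]
    · refine (norm_integral_le_of_norm_le (g := fun σ => ε / 2 * p σ + ε / 2) ?_
        (Filter.Eventually.of_forall fun σ => ?_)).trans ?_
      · refine Integrable.add (Integrable.const_mul ?_ _) (integrable_const _)
        exact hpc.integrable_of_hasCompactSupport (HasCompactSupport.of_compactSpace _)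
      · have h11 : P (g, 0) * ((p σ : ℝ) : ℂ) - P (g, -σ) * ∑ k ∈ S, a k * chi k σ =
            (P (g, 0) - P (g, -σ)) * ((p σ : ℝ) : ℂ) +
              P (g, -σ) * (((p σ : ℝ) : ℂ) - ∑ k ∈ S, a k * chi k σ) := by ring
        rw [h11]
        refine (norm_add_le _ _).trans (add_le_add ?_ ?_)
        · rw [norm_mul, Complex.norm_real, Real.norm_of_nonneg (hp0 σ)]
          by_cases hz : p σ = 0
          · rw [hz, mul_zero, mul_zero]
          · exact mul_le_mul_of_nonneg_right (hp1 σ hz g) (hp0 σ)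
        · rw [norm_mul]
          calc _ ≤ B * (ε / (2 * B)) := mul_le_mul (hPB _ _) (ha' σ) (norm_nonneg _) hB0.le
            _ = ε / 2 := by field_simp
      · rw [integral_add (Integrable.const_mul (hpc.integrable_of_hasCompactSupport
          (HasCompactSupport.of_compactSpace _)) _) (integrable_const _), integral_const_mul, hpi]
        simp
    · refine integ _ (continuous_const.mul (Complex.continuous_ofReal.comp hpc))
    · refine integ _ (((hPc g).comp continuous_neg).mul (continuous_finsetSum _ fun k _ =>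
        continuous_const.mul (chi_cont k)))

end NilData

end Pool.Agent.Helper16.NL
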